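import Pool.Agent.C1G.Col

/-!
# Products of bodies with the colouring property
-/

namespace C1G

open Finset Module C1E C1E.Planar

/-- Every finite family of pairwise meeting positive homothets of `K` has a colouring with `N`
colours in which members with disjoint interiors have different colours. -/
def ColB {V : Type} [NormedAddCommGroup V] [NormedSpace ℝ V] (K : Set V) (N : ℕ) : Prop :=
  ∀ (n : ℕ) (c : Fin n → ℝ) (x : Fin n → V), (∀ i, 0 < c i) →
    (∀ i j, i ≠ j →
      ((fun y => x i + c i • y) '' K ∩ (fun y => x j + c j • y) '' K).Nonempty) →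
    ∃ col : Fin n → Fin N, ∀ i j, i ≠ j →
      interior ((fun y => x i + c i • y) '' K) ∩ interior ((fun y => x j + c j • y) '' K) = ∅ →
        col i ≠ col j

theorem image_prod {V W : Type} [AddCommGroup V] [Module ℝ V] [AddCommGroup W] [Module ℝ W]
    (K : Set V) (L : Set W) (x : V × W) (c : ℝ) :
    (fun y => x + c • y) '' (K ×ˢ L) =
      ((fun y => x.1 + c • y) '' K) ×ˢ ((fun y => x.2 + c • y) '' L) := by
  ext ⟨p, q⟩
  constructor
  · rintro ⟨⟨y1, y2⟩, ⟨h1, h2⟩, he⟩
    have he1 := congrArg Prod.fst he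
    have he2 := congrArg Prod.snd he
    exact ⟨⟨y1, h1, he1⟩, ⟨y2, h2, he2⟩⟩
  · rintro ⟨⟨y1, h1, he1⟩, ⟨y2, h2, he2⟩⟩
    exact ⟨⟨y1, y2⟩, ⟨h1, h2⟩, Prod.ext he1 he2⟩

theorem image_pi {s : ℕ} {V : Fin s → Type} [∀ j, AddCommGroup (V j)] [∀ j, Module ℝ (V j)]
    (K : ∀ j, Set (V j)) (x : ∀ j, V j) (c : ℝ) :
    (fun y => x + c • y) '' (Set.univ.pi K) =
      Set.univ.pi fun j => (fun y => x j + c • y) '' K j := by
  ext p
  constructor
  · rintro ⟨y, h1, he⟩ j _
    exact ⟨y j, h1 j (Set.mem_univ j), congrFun he j⟩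
  · intro h1
    have h1' : ∀ j, ∃ y ∈ K j, x j + c • y = p j := fun j => h1 j (Set.mem_univ j)
    choose y1 hy1 hye using h1'
    exact ⟨y1, fun j _ => hy1 j, funext hye⟩

section

variable {V W : Type} [NormedAddCommGroup V] [NormedSpace ℝ V] [NormedAddCommGroup W]
  [NormedSpace ℝ W] {K : Set V} {L : Set W} {N M : ℕ}

theorem ColB.mono (h : ColB K N) (hNM : N ≤ M) : ColB K M := by
  intro n c x hc hm
  obtain ⟨col, hcol⟩ := h n c x hc hm
  exact ⟨fun i => Fin.castLE hNM (col i), fun i j hij hd he =>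
    hcol i j hij hd (Fin.castLE_injective hNM he)⟩

/-- The meeting of homothets of a product. -/
theorem meet_prod {n : ℕ} {c : Fin n → ℝ} {x : Fin n → V × W}
    (hm : ∀ i j, i ≠ j → ((fun y => x i + c i • y) '' (K ×ˢ L) ∩
      (fun y => x j + c j • y) '' (K ×ˢ L)).Nonempty) :
    (∀ i j, i ≠ j → ((fun y => (x i).1 + c i • y) '' K ∩
      (fun y => (x j).1 + c j • y) '' K).Nonempty) ∧
    ∀ i j, i ≠ j → ((fun y => (x i).2 + c i • y) '' L ∩
      (fun y => (x j).2 + c j • y) '' L).Nonempty := by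
  simp only [image_prod] at hm
  constructor
  · intro i j hij
    obtain ⟨⟨p, q⟩, h1, h2⟩ := hm i j hij
    exact ⟨p, h1.1, h2.1⟩
  · intro i j hij
    obtain ⟨⟨p, q⟩, h1, h2⟩ := hm i j hij
    exact ⟨q, h1.2, h2.2⟩

/-- Homothets of a product with disjoint interiors are separated in a factor. -/
theorem disj_prod {c c' : ℝ} {x x' : V × W}
    (hd : interior ((fun y => x + c • y) '' (K ×ˢ L)) ∩
      interior ((fun y => x' + c' • y) '' (K ×ˢ L)) = ∅) :
    interior ((fun y => x.1 + c • y) '' K) ∩ interior ((fun y => x'.1 + c' • y) '' K) = ∅ ∨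
    interior ((fun y => x.2 + c • y) '' L) ∩ interior ((fun y => x'.2 + c' • y) '' L) = ∅ := by
  rw [image_prod, image_prod, interior_prod_eq, interior_prod_eq] at hd
  by_contra hcon
  push Not at hcon
  obtain ⟨⟨p, hp⟩, ⟨q, hq⟩⟩ := hcon
  have : (p, q) ∈ (∅ : Set (V × W)) := by
    rw [← hd]
    exact ⟨⟨hp.1, hq.1⟩, ⟨hp.2, hq.2⟩⟩
  exact this

theorem ColB.prod (hK : ColB K N) (hL : ColB L M) : ColB (K ×ˢ L) (N * M) := by
  intro n c x hc hm
  obtain ⟨h1, h2⟩ := meet_prod hm
  obtain ⟨f, hf⟩ := hK n c (fun i => (x i).1) hc h1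
  obtain ⟨g, hg⟩ := hL n c (fun i => (x i).2) hc h2
  have hcard : Fintype.card (Fin N × Fin M) = N * M := by simp
  refine ⟨fun i => Fintype.equivFinOfCardEq hcard (f i, g i), fun i j hij hd he => ?_⟩
  have he' := (Fintype.equivFinOfCardEq hcard).injective he
  rcases disj_prod hd with h | h
  · exact hf i j hij h (congrArg Prod.fst he')
  · exact hg i j hij h (congrArg Prod.snd he')

theorem ColB.pi {s : ℕ} {V : Fin s → Type} [∀ j, NormedAddCommGroup (V j)]
    [∀ j, NormedSpace ℝ (V j)] {K : ∀ j, Set (V j)} {N : Fin s → ℕ}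
    (h : ∀ j, ColB (K j) (N j)) : ColB (Set.univ.pi K) (∏ j, N j) := by
  classical
  intro n c x hc hm
  simp only [image_pi] at hm ⊢
  have h1 : ∀ j, ∃ col : Fin n → Fin (N j), ∀ i l, i ≠ l →
      interior ((fun y => x i j + c i • y) '' K j) ∩
        interior ((fun y => x l j + c l • y) '' K j) = ∅ → col i ≠ col l := by
    intro j
    refine h j n c (fun i => x i j) hc fun i l hil => ?_
    obtain ⟨p, hp1, hp2⟩ := hm i l hil
    exact ⟨p j, hp1 j (Set.mem_univ j), hp2 j (Set.mem_univ j)⟩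
  choose col hcol using h1
  have hcard : Fintype.card ((j : Fin s) → Fin (N j)) = ∏ j, N j := by
    rw [Fintype.card_pi]
    simp
  refine ⟨fun i => Fintype.equivFinOfCardEq hcard fun j => col j i, fun i l hil hd he => ?_⟩
  have he' := (Fintype.equivFinOfCardEq hcard).injective he
  by_cases h2 : ∃ j, interior ((fun y => x i j + c i • y) '' K j) ∩
      interior ((fun y => x l j + c l • y) '' K j) = ∅
  · obtain ⟨j, hj⟩ := h2
    exact hcol j i l hil hj (congrFun he' j)
  · push Not at h2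
    choose p hp using h2
    rw [interior_pi_set Set.finite_univ, interior_pi_set Set.finite_univ] at hd
    have : p ∈ (∅ : Set (∀ j, V j)) := by
      rw [← hd]
      exact ⟨fun j _ => (hp j).1, fun j _ => (hp j).2⟩
    exact this

theorem ColB.tangent (h : ColB K N) {n : ℕ} {c : Fin n → ℝ} {x : Fin n → V}
    (hc : ∀ i, 0 < c i) (hx : ∀ i j, i ≠ j →
      ((fun y => x i + c i • y) '' K ∩ (fun y => x j + c j • y) '' K).Nonempty ∧
      interior ((fun y => x i + c i • y) '' K) ∩ interior ((fun y => x j + c j • y) '' K) = ∅) :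
    n ≤ N := by
  obtain ⟨col, hcol⟩ := h n c x hc fun i j hij => (hx i j hij).1
  have h1 : Function.Injective col := fun i l hil => by
    by_contra hne
    exact hcol i l hne (hx i l hne).2 hil
  have h2 := Fintype.card_le_of_injective col h1
  rwa [Fintype.card_fin, Fintype.card_fin] at h2

/-- Tangent families of homothets of `K × L`, if `L` has the colouring property. -/
theorem ColB.mul (h : ColB L M)
    (hK : ∀ (n : ℕ) (c : Fin n → ℝ) (x : Fin n → V), (∀ i, 0 < c i) → (∀ i j, i ≠ j →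
      ((fun y => x i + c i • y) '' K ∩ (fun y => x j + c j • y) '' K).Nonempty ∧
      interior ((fun y => x i + c i • y) '' K) ∩ interior ((fun y => x j + c j • y) '' K) = ∅) →
      n ≤ N) {n : ℕ} {c : Fin n → ℝ} {x : Fin n → V × W} (hc : ∀ i, 0 < c i)
    (hx : ∀ i j, i ≠ j →
      ((fun y => x i + c i • y) '' (K ×ˢ L) ∩ (fun y => x j + c j • y) '' (K ×ˢ L)).Nonempty ∧
      interior ((fun y => x i + c i • y) '' (K ×ˢ L)) ∩
        interior ((fun y => x j + c j • y) '' (K ×ˢ L)) = ∅) : n ≤ N * M := by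
  classical
  obtain ⟨h1, h2⟩ := meet_prod fun i j hij => (hx i j hij).1
  obtain ⟨col, hcol⟩ := h n c (fun i => (x i).2) hc h2
  have hclass : ∀ o, (Finset.univ.filter fun i => col i = o).card ≤ N := by
    intro o
    set S := Finset.univ.filter fun i => col i = o with hS
    set e := S.orderEmbOfFin rfl with he
    refine hK S.card (fun i => c (e i)) (fun i => (x (e i)).1) (fun i => hc _) fun i l hil => ?_
    have hne : e i ≠ e l := fun h => hil (e.injective h)
    refine ⟨h1 _ _ hne, ?_⟩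
    rcases disj_prod (hx _ _ hne).2 with h | h
    · exact h
    · have h3 := (Finset.mem_filter.1 (Finset.orderEmbOfFin_mem S rfl i)).2
      have h4 := (Finset.mem_filter.1 (Finset.orderEmbOfFin_mem S rfl l)).2
      exact absurd (h3.trans h4.symm) (hcol _ _ hne h)
  have h3 := Finset.card_eq_sum_card_fiberwise (f := col) (s := Finset.univ)
    (t := Finset.univ) fun i _ => Finset.mem_coe.2 (Finset.mem_univ _)
  have h4 : ∑ o : Fin M, (Finset.univ.filter fun i => col i = o).card ≤ ∑ _o : Fin M, N :=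
    Finset.sum_le_sum fun o _ => hclass o
  rw [Finset.card_univ, Fintype.card_fin] at h3
  rw [Finset.sum_const, Finset.card_univ, Fintype.card_fin, smul_eq_mul] at h4
  rw [h3, mul_comm N]
  exact h4

end

/-- Planar convex bodies. -/
theorem colB_planar (K : Set (EuclideanSpace ℝ (Fin 2))) (hK : Convex ℝ K) (hKc : IsCompact K)
    (hKi : (interior K).Nonempty) : ColB K 4 := by
  intro n c x hc hm
  refine planar_col K hK hKc hKi n (Fin n) (Fintype.card_fin n) c x hc fun i l => ?_
  by_cases hil : i = l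
  · subst hil
    rw [Set.inter_self]
    obtain ⟨y, hy⟩ := hKi
    exact ⟨_, ⟨y, interior_subset hy, rfl⟩⟩
  · exact hm i l hil

/-- Centrally symmetric polyhedra whose facet normals come in blocks with at most two vectors more
than their dimension. -/
theorem colB_slab {d s : ℕ} (k m : Fin s → ℕ) (hk : ∑ j, k j = d) (hkm : ∀ j, m j ≤ k j + 2)
    (u : (j : Fin s) → Fin (m j) → EuclideanSpace ℝ (Fin d))
    (hu : ∀ j, Module.finrank ℝ (Submodule.span ℝ (Set.range (u j))) ≤ k j)
    (z : EuclideanSpace ℝ (Fin d)) :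
    ColB {y : EuclideanSpace ℝ (Fin d) | ∀ j a, |inner ℝ (u j a) (y - z)| ≤ 1} (2 ^ d) := by
  classical
  intro n c x hc hm
  set f : (Σ j : Fin s, Fin (m j)) → EuclideanSpace ℝ (Fin d) →L[ℝ] ℝ :=
    fun p => innerSL ℝ (u p.1 p.2) with hf
  have hbody : {y : EuclideanSpace ℝ (Fin d) | ∀ j a, |inner ℝ (u j a) (y - z)| ≤ 1} =
      slab f z := by
    ext y
    constructor
    · rintro hy ⟨j, a⟩
      exact hy j a
    · intro hy j a
      exact hy ⟨j, a⟩
  rw [hbody] at hm ⊢
  have hle : ∀ j i l (a : Fin (m j)),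
      |inner ℝ (u j a) (x i + c i • z) - inner ℝ (u j a) (x l + c l • z)| ≤ c i + c l := by
    intro j i l a
    by_cases hil : i = l
    · subst hil
      simp only [sub_self, abs_zero]
      have := hc i
      linarith
    · exact slab_meet f z (x i) (x l) (c i) (c l) (hc i) (hc l) (hm i l hil) ⟨j, a⟩
  have hS : ∀ j : Fin s, ∃ col : Fin n → Fin (2 ^ k j), ∀ i l a,
      inner ℝ (u j a) (x i + c i • z) - inner ℝ (u j a) (x l + c l • z) = c i + c l →
      col i ≠ col l := fun j =>
    block_col_all (hkm j) (u j) (hu j) c hc (fun i => x i + c i • z) (hle j)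
  choose col hcol using hS
  have hcard : Fintype.card ((j : Fin s) → Fin (2 ^ k j)) = 2 ^ d := by
    rw [Fintype.card_pi, ← hk]
    simp [Finset.prod_pow_eq_pow_sum]
  refine ⟨fun i => Fintype.equivFinOfCardEq hcard fun j => col j i, fun i l hil hd he => ?_⟩
  have he' := (Fintype.equivFinOfCardEq hcard).injective he
  obtain ⟨⟨j, a⟩, ha⟩ := slab_disj f z (x i) (x l) (c i) (c l) (hc i) (hc l) hd
  have h1 : c i + c l ≤ |inner ℝ (u j a) (x i + c i • z) - inner ℝ (u j a) (x l + c l • z)| := ha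
  have h2 := hle j i l a
  rcases abs_cases (inner ℝ (u j a) (x i + c i • z) - inner ℝ (u j a) (x l + c l • z)) with
    ⟨e, _⟩ | ⟨e, _⟩
  · exact hcol j i l a (by linarith) (congrFun he' j)
  · exact hcol j l i a (by linarith) (congrFun he' j).symm

end C1G
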