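import Pool.Agent.C1G.Sx

/-!
# Slab bodies as factors
-/

namespace C1G

open Finset Module C1E C1E.Planar

/-- Centrally symmetric polyhedra of `ℝ^d` with at most `d + 2` pairs of facets. -/
theorem colB_slab1 {d m : ℕ} (hm : m ≤ d + 2) (u : Fin m → EuclideanSpace ℝ (Fin d))
    (z : EuclideanSpace ℝ (Fin d)) :
    ColB {y : EuclideanSpace ℝ (Fin d) | ∀ a, |inner ℝ (u a) (y - z)| ≤ 1} (2 ^ d) := by
  have h := colB_slab (s := 1) (fun _ => d) (fun _ => m) (by simp) (fun _ => hm)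
    (fun _ => u) (fun _ => (Submodule.finrank_le _).trans (by simp)) z
  have e : {y : EuclideanSpace ℝ (Fin d) | ∀ a, |inner ℝ (u a) (y - z)| ≤ 1} =
      {y | ∀ (_ : Fin 1) a, |inner ℝ (u a) (y - z)| ≤ 1} := by
    ext y
    exact ⟨fun h _ a => h a, fun h a => h 0 a⟩
  rw [e]
  exact h

end C1G
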