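import Pool.Agent.C1G.Fin
import Pool.Agent.C1E.All

/-!
# The exact bound
-/

set_option linter.unusedSectionVars false
set_option linter.unusedVariables false

namespace C1G

open Finset C1E

section

variable {ι : Type} [Fintype ι] [DecidableEq ι]

variable {x y : ι → ℝ} {A : ℝ} {pos : (ι → Bool) → Prop} {g nu : ι}
  {MC MD : (ι → Bool) → (ι → Bool) → Prop}

theorem fmat_mat (hp : IsSign y pos) (h : C1F.FMat x y A MC MD) :
    Mat x y A pos (C1F.Arc pos MC MD) (C1F.UL pos MC) (C1F.DL pos MD) :=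
  ⟨fun h1 => h.lk h1, fun h1 => h.nu h1, fun h1 => h.nd hp h1, fun h1 h2 => h.out h1 h2,
    fun h1 h2 => h.inn h1 h2, fun h1 => h.fu h1, fun h1 => h.fd h1⟩

theorem fmat_lps (h : C1F.FMat x y A MC MD) :
    Lps x y A pos (C1F.UL pos MC) (C1F.DL pos MD)
      (fun b l => MC b (flp b l) ∧ ¬ pos (flp b l))
      (fun b l => MD b (flp b l) ∧ pos (flp b l)) := by
  refine ⟨?_, ?_, ?_, ?_, ?_, ?_⟩
  · rintro b ⟨s, h1, h2⟩
    obtain ⟨_, _, _, a, h3⟩ := h.c h1
    exact ⟨a, by rw [h3]; exact ⟨h1, h2⟩⟩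
  · rintro b ⟨s, h1, h2⟩
    obtain ⟨_, _, _, a, h3⟩ := h.d h1
    exact ⟨a, by rw [h3]; exact ⟨h1, h2⟩⟩
  · rintro b l ⟨h1, h2⟩
    obtain ⟨h3, h4, h5, _⟩ := h.c h1
    exact ⟨⟨_, h1, h2⟩, h4, h5, h2⟩
  · rintro b l ⟨h1, h2⟩
    obtain ⟨h3, h4, h5, _⟩ := h.d h1
    exact ⟨⟨_, h1, h2⟩, h4, h5, h2⟩
  · rintro b b' l l' ⟨h1, _⟩ ⟨h3, _⟩ h5
    rw [h5] at h1
    exact h.c2 h1 h3
  · rintro b b' l l' ⟨h1, _⟩ ⟨h3, _⟩ h5
    rw [h5] at h1
    exact h.d2 h1 h3

end

variable {k : ℕ}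

theorem gn_nonneg {x y : Fin k → ℝ} {A : ℝ} (hA0 : 0 < A) (hx : ∀ a, 0 ≤ x a) (hA : ∀ a, x a ≤ A)
    {g : Fin k} (hg : ∀ a, x a ≤ x g) (hyg : y g ≤ 0) :
    GN x y A (2 ^ k) := by
  classical
  have hA' : ∀ a, |x a| ≤ A := fun a => by rw [abs_of_nonneg (hx a)]; exact hA a
  have hp := isSign_ps y g
  suffices hs : ∀ MC MD : (Fin k → Bool) → (Fin k → Bool) → Prop, C1F.FMat x y A MC MD →
      ∀ Ar U D : Finset (Fin k → Bool), (∀ b, b ∈ Ar ↔ ∃ c, C1F.Arc (ps y g) MC MD b c) →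
      (∀ b, b ∈ U ↔ C1F.UL (ps y g) MC b) → (∀ b, b ∈ D ↔ C1F.DL (ps y g) MD b) →
      Ar.card + U.card + D.card ≤ (univ.filter fun s => A < val x s).card by
    obtain ⟨C, D, h1, h2⟩ := C1F.full_cover x y hA0 hA' hp hs
    rw [Fintype.card_fin] at h1
    exact ⟨C, D, h1, h2⟩
  intro MC MD hF Ar U D hAr hU hD
  have hno : (∀ s, ¬ A < val x s) →
      Ar.card + U.card + D.card ≤ (univ.filter fun s => A < val x s).card := by
    intro hno
    have e1 : Ar = ∅ := eq_empty_of_forall_notMem fun b hb => by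
      obtain ⟨c, hc⟩ := (hAr b).1 hb
      exact hno b (hF.lk hc).1
    have e2 : U = ∅ := eq_empty_of_forall_notMem fun b hb =>
      hno b (hF.fu ((hU b).1 hb)).1
    have e3 : D = ∅ := eq_empty_of_forall_notMem fun b hb =>
      hno b (hF.fd ((hD b).1 hb)).1
    rw [e1, e2, e3]; simp
  rcases (hx g).eq_or_lt with h0 | h0
  · -- all weights vanish
    have hx0 : ∀ a, x a = 0 := fun a => le_antisymm ((hg a).trans h0.symm.le) (hx a)
    have hval : ∀ s, val x s = 0 := fun s => by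
      unfold C1E.val
      exact Finset.sum_eq_zero fun a _ => by rw [hx0]; ring
    exact hno fun s h => by rw [hval] at h; linarith
  · rcases (univ.erase g).eq_empty_or_nonempty with he | he
    · -- only one label
      have h1 : ∀ a, a = g := fun a => by
        by_contra h
        have : a ∈ univ.erase g := mem_erase.2 ⟨h, mem_univ a⟩
        rw [he] at this
        exact absurd this (notMem_empty _)
      refine hno fun s h => ?_
      have h2 : val x s = x g * sg (s g) := by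
        unfold C1E.val
        have : (univ : Finset (Fin k)) = {g} := by
          ext a; simp [h1 a]
        rw [this, sum_singleton]
      rw [h2] at h
      have h3 : x g * sg (s g) ≤ x g := by
        cases s g
        · rw [sg_false]; linarith
        · rw [sg_true]; linarith
      linarith [hA g]
    · obtain ⟨nu, hnu, hmax⟩ := (univ.erase g).exists_max_image (et x y g) he
      have hgn : g ≠ nu := (Finset.ne_of_mem_erase hnu).symm
      have S : Sys x y A (ps y g) g nu := ⟨hA0, hx, hg, hA g, h0, hyg, hp,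
        fun a ha => hmax a (Finset.mem_erase.2 ⟨ha, mem_univ a⟩)⟩
      have h1 := fin_card S hgn (fmat_mat hp hF) (fmat_lps (pos := ps y g) hF)
      have e1 : Ar = univ.filter fun b => ∃ c, C1F.Arc (ps y g) MC MD b c := by
        ext b; rw [hAr b]; simp
      have e2 : U = univ.filter (C1F.UL (ps y g) MC) := by ext b; rw [hU b]; simp
      have e3 : D = univ.filter (C1F.DL (ps y g) MD) := by ext b; rw [hD b]; simp
      rw [e1, e2, e3]
      convert h1

theorem gn_all {x y : Fin k → ℝ} {A : ℝ} (hk : 1 ≤ k) (hA0 : 0 < A) (hA : ∀ a, |x a| ≤ A) :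
    GN x y A (2 ^ k) := by
  refine GN.flip (fun a => decide (0 ≤ x a)) ?_
  set x' : Fin k → ℝ := fun a => sg (decide (0 ≤ x a)) * x a with hx'
  set y' : Fin k → ℝ := fun a => sg (decide (0 ≤ x a)) * y a with hy'
  have e : ∀ a, x' a = |x a| := by
    intro a
    rw [hx']
    by_cases h0 : 0 ≤ x a
    · simp [h0, sg, abs_of_nonneg h0]
    · simp [h0, sg, abs_of_neg (not_le.1 h0)]
  obtain ⟨g, -, hg⟩ := (univ : Finset (Fin k)).exists_max_image x' ⟨⟨0, by omega⟩, mem_univ _⟩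
  have h1 : ∀ a, 0 ≤ x' a := fun a => by rw [e]; exact abs_nonneg _
  have h2 : ∀ a, x' a ≤ A := fun a => by rw [e]; exact hA a
  rcases le_total (y' g) 0 with h | h
  · exact gn_nonneg hA0 h1 h2 (fun a => hg a (mem_univ a)) h
  · exact GN.neg (gn_nonneg hA0 h1 h2 (fun a => hg a (mem_univ a)) (by linarith))

/-- hitting sets of the conjectured size, for all numbers of labels -/
theorem r1_exact {n : ℕ} (hn : 2 ≤ n) : R1 n (2 ^ (n - 2)) := by
  obtain ⟨k, rfl⟩ : ∃ k, n = k + 1 := ⟨n - 1, by omega⟩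
  refine r1_of_g2 fun x y A hA0 hA => ?_
  obtain ⟨C, D, h1, h2⟩ := gn_all (x := x) (y := y) (by omega) hA0 hA
  refine ⟨C, D, ?_, h2⟩
  obtain ⟨m, rfl⟩ : ∃ m, k = m + 1 := ⟨k - 1, by omega⟩
  have e1 : m + 1 + 1 - 2 = m := by omega
  rw [e1]
  have e3 : 2 ^ (m + 1) = 2 * 2 ^ m := by rw [pow_succ]; ring
  omega

end C1G
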