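import Pool.Agent.C1E.Prod
import Pool.Agent.C1G.All

/-!
# Colourings of blocks with two relations
-/

namespace C1G

open Finset Module C1E

/-- a small set of sign vectors, listed -/
theorem list_set {κ : Type} [Inhabited κ] (C : Finset κ) {N : ℕ} (h : C.card ≤ N) :
    ∃ S : Fin N → κ, ∀ s ∈ C, ∃ j, S j = s := by
  classical
  refine ⟨fun j => if hj : j.1 < C.card then (C.equivFin.symm ⟨j.1, hj⟩).1 else default,
    fun s hs => ⟨⟨(C.equivFin ⟨s, hs⟩).1, (C.equivFin ⟨s, hs⟩).2.trans_le h⟩, ?_⟩⟩
  have h1 : ((C.equivFin ⟨s, hs⟩) : Fin C.card).1 < C.card := (C.equivFin ⟨s, hs⟩).2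
  simp only [h1, dif_pos]
  have : (⟨(C.equivFin ⟨s, hs⟩).1, h1⟩ : Fin C.card) = C.equivFin ⟨s, hs⟩ := rfl
  rw [this, Equiv.symm_apply_apply]

/-- a vector which is not orthogonal to finitely many nonzero vectors -/
theorem exists_generic {ι : Type} [Finite ι] {n : ℕ} (q : ι → Fin n → ℝ) :
    ∃ z : Fin n → ℝ, ∀ i, q i ≠ 0 → ∑ a, z a * q i a ≠ 0 := by
  classical
  obtain ⟨f, hf⟩ := Module.exists_dual_forall_apply_ne_zero (K := ℝ)
    (fun i : {i // q i ≠ 0} => q i.1) (fun i => i.2)
  refine ⟨fun a => f (Pi.single a 1), fun i hi => ?_⟩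
  have h1 := hf ⟨i, hi⟩
  have h2 : q i = ∑ a, q i a • (Pi.single a (1 : ℝ) : Fin n → ℝ) := by
    funext b
    simp [Finset.sum_apply, Pi.single_apply]
  have h3 : f (q i) = ∑ a, f (Pi.single a 1) * q i a := by
    conv_lhs => rw [h2]
    rw [map_sum]
    exact Finset.sum_congr rfl fun a _ => by rw [map_smul, smul_eq_mul, mul_comm]
  rw [← h3]
  exact h1

/-- perturbation of a linear form which keeps its signs on finitely many vectors -/
theorem exists_pert {ι : Type} [Finite ι] {n : ℕ} (q : ι → Fin n → ℝ) (y : Fin n → ℝ) :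
    ∃ w : Fin n → ℝ, ∀ i, (0 < ∑ a, y a * q i a → 0 < ∑ a, w a * q i a) ∧
      (∑ a, y a * q i a < 0 → ∑ a, w a * q i a < 0) ∧ (q i ≠ 0 → ∑ a, w a * q i a ≠ 0) := by
  obtain ⟨z, hz⟩ := exists_generic q
  have hsum : ∀ (t : ℝ) i, ∑ a, (y a + t * z a) * q i a =
      ∑ a, y a * q i a + t * ∑ a, z a * q i a := by
    intro t i
    rw [Finset.mul_sum, ← Finset.sum_add_distrib]
    exact Finset.sum_congr rfl fun a _ => by ring
  have hev : ∀ i, ∀ᶠ t : ℝ in nhdsWithin 0 (Set.Ioi 0),
      (0 < ∑ a, y a * q i a → 0 < ∑ a, (y a + t * z a) * q i a) ∧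
      (∑ a, y a * q i a < 0 → ∑ a, (y a + t * z a) * q i a < 0) := by
    intro i
    simp only [hsum]
    have hcont : Filter.Tendsto (fun t : ℝ => ∑ a, y a * q i a + t * ∑ a, z a * q i a)
        (nhdsWithin 0 (Set.Ioi 0)) (nhds (∑ a, y a * q i a)) := by
      have : Continuous fun t : ℝ => ∑ a, y a * q i a + t * ∑ a, z a * q i a := by fun_prop
      have h1 := this.tendsto 0
      simp only [zero_mul, add_zero] at h1
      exact h1.mono_left nhdsWithin_le_nhds
    rcases lt_trichotomy 0 (∑ a, y a * q i a) with h | h | h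
    · filter_upwards [hcont.eventually (lt_mem_nhds h)] with t ht
      exact ⟨fun _ => ht, fun h' => absurd h' h.not_gt⟩
    · exact Filter.Eventually.of_forall fun t =>
        ⟨fun h' => absurd h' (by rw [← h]; exact lt_irrefl _),
          fun h' => absurd h' (by rw [← h]; exact lt_irrefl _)⟩
    · filter_upwards [hcont.eventually (gt_mem_nhds h)] with t ht
      exact ⟨fun h' => absurd h' h.not_gt, fun _ => ht⟩
  have hall := Filter.eventually_all.2 hev
  obtain ⟨t, ht1, ht2⟩ := (hall.and self_mem_nhdsWithin).exists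
  have ht0 : (0 : ℝ) < t := ht2
  refine ⟨fun a => y a + t * z a, fun i => ⟨(ht1 i).1, (ht1 i).2, fun hi h0 => ?_⟩⟩
  have h1 := (ht1 i).1
  have h2 := (ht1 i).2
  rw [h0] at h1 h2
  rcases lt_trichotomy 0 (∑ a, y a * q i a) with h | h | h
  · exact lt_irrefl _ (h1 h)
  · rw [hsum, ← h, zero_add] at h0
    rcases mul_eq_zero.1 h0 with h3 | h3
    · exact ht0.ne' h3
    · exact hz i hi h3
  · exact lt_irrefl _ (h2 h)

/-- two points with a common hit vertex are not at opposite facets -/
theorem not_opp {n : ℕ} {u v : Fin n → ℝ} {s : Fin n → Bool} (hu : InFace u s) (hv : InFace v s)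
    {a : Fin n} (h1 : u a = 1) (h2 : v a = -1) : False := by
  have e1 := (hu a).1 h1
  have e2 := (hv a).2 h2
  rw [e1] at e2
  exact absurd e2 (by simp)

/-- Colouring of points of a linear section of codimension two. -/
theorem col_central {ι : Type} [Fintype ι] {k : ℕ} (u : ι → Fin (k + 2) → ℝ)
    (hu : ∀ i a, |u i a| ≤ 1) (x y : Fin (k + 2) → ℝ) (hxy : LinearIndependent ℝ ![x, y])
    (hx : ∀ i, ∑ a, x a * u i a = 0) (hy : ∀ i, ∑ a, y a * u i a = 0) :
    ∃ col : ι → Fin (2 ^ k), ∀ i l a, u i a = 1 → u l a = -1 → col i ≠ col l := by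
  classical
  have hpair := LinearIndependent.pair_iff.1 hxy
  -- the coordinate `h`
  obtain ⟨h, hh⟩ : ∃ h, 0 < x h ^ 2 + y h ^ 2 := by
    by_contra hcon
    push Not at hcon
    have h1 : x = 0 := by
      funext a
      have := hcon a
      have h2 : x a ^ 2 = 0 := le_antisymm (by nlinarith [sq_nonneg (y a)]) (sq_nonneg _)
      simpa using h2
    have := hpair 1 0 (by rw [h1]; simp)
    exact one_ne_zero this.1
  set D := x h ^ 2 + y h ^ 2 with hD
  have hD0 := hh.ne'
  set x' : Fin (k + 1) → ℝ := fun b => y h * x (h.succAbove b) - x h * y (h.succAbove b) with hx'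
  set y' : Fin (k + 1) → ℝ := fun b =>
    - (x h * x (h.succAbove b) + y h * y (h.succAbove b)) / D with hy'
  set q : ι → Fin (k + 1) → ℝ := fun i b => u i (h.succAbove b) with hq
  have hx1 : ∀ i, x h * u i h + ∑ b, x (h.succAbove b) * q i b = 0 := fun i => by
    rw [← hx i, Fin.sum_univ_succAbove _ h]
  have hy1 : ∀ i, y h * u i h + ∑ b, y (h.succAbove b) * q i b = 0 := fun i => by
    rw [← hy i, Fin.sum_univ_succAbove _ h]
  have hx2 : ∀ i, ∑ b, x' b * q i b = 0 := by
    intro i
    have e : ∑ b, x' b * q i b = y h * ∑ b, x (h.succAbove b) * q i b -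
        x h * ∑ b, y (h.succAbove b) * q i b := by
      rw [Finset.mul_sum, Finset.mul_sum, ← Finset.sum_sub_distrib]
      exact Finset.sum_congr rfl fun b _ => by rw [hx']; ring
    have h1 := hx1 i
    have h2 := hy1 i
    have e1 : ∑ b, x (h.succAbove b) * q i b = - (x h * u i h) := by linarith
    have e2 : ∑ b, y (h.succAbove b) * q i b = - (y h * u i h) := by linarith
    rw [e, e1, e2]; ring
  have hy2 : ∀ i, ∑ b, y' b * q i b = u i h := by
    intro i
    have e : ∑ b, y' b * q i b = - (x h * ∑ b, x (h.succAbove b) * q i b +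
        y h * ∑ b, y (h.succAbove b) * q i b) / D := by
      rw [Finset.mul_sum, Finset.mul_sum, ← Finset.sum_add_distrib, ← Finset.sum_neg_distrib,
        Finset.sum_div]
      exact Finset.sum_congr rfl fun b _ => by rw [hy']; ring
    have h1 := hx1 i
    have h2 := hy1 i
    have e1 : ∑ b, x (h.succAbove b) * q i b = - (x h * u i h) := by linarith
    have e2 : ∑ b, y (h.succAbove b) * q i b = - (y h * u i h) := by linarith
    rw [e, e1, e2, div_eq_iff hD0, hD]; ring
  have hx0 : ∃ b, x' b ≠ 0 := by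
    by_contra hcon
    push Not at hcon
    have := hpair (y h) (-x h) (by
      funext a
      by_cases ha : a = h
      · subst ha; simp only [Pi.add_apply, Pi.smul_apply, smul_eq_mul, Pi.zero_apply]; ring
      · obtain ⟨b, rfl⟩ := Fin.exists_succAbove_eq ha
        have := hcon b
        simp only [Pi.add_apply, Pi.smul_apply, smul_eq_mul, Pi.zero_apply]
        rw [hx'] at this
        linarith)
    rw [hD, this.1, neg_eq_zero.1 this.2] at hh
    norm_num at hh
  rcases Nat.eq_zero_or_pos k with rfl | hk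
  · -- one coordinate is left
    obtain ⟨b, hb⟩ := hx0
    have : Subsingleton (Fin (0 + 1)) := inferInstanceAs (Subsingleton (Fin 1))
    have hq0 : ∀ i b', q i b' = 0 := by
      intro i b'
      have h1 := hx2 i
      have hbb : b' = b := Subsingleton.elim _ _
      have huniv : (univ : Finset (Fin (0 + 1))) = {b} := by
        ext c
        rw [Finset.mem_singleton]
        exact ⟨fun _ => Subsingleton.elim c b, fun _ => Finset.mem_univ c⟩
      rw [huniv, Finset.sum_singleton] at h1
      rw [hbb]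
      exact (mul_eq_zero.1 h1).resolve_left hb
    have hu0 : ∀ i a, u i a = 0 := by
      intro i a
      by_cases ha : a = h
      · subst ha
        rw [← hy2 i]
        exact Finset.sum_eq_zero fun b _ => by rw [hq0]; ring
      · obtain ⟨b', rfl⟩ := Fin.exists_succAbove_eq ha
        exact hq0 i b'
    exact ⟨fun _ => 0, fun i l a h1 _ => by rw [hu0] at h1; norm_num at h1⟩
  · obtain ⟨w, hw⟩ := exists_pert q y'
    obtain ⟨C, hC1, hC2⟩ := r1_exact (n := k + 1) (by omega) x' w hx0
    have e1 : k + 1 - 2 = k - 1 := by omega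
    rw [e1] at hC1
    obtain ⟨S, hS⟩ := list_set C hC1
    have hqu : ∀ i a, |q i a| ≤ 1 := fun i a => hu i _
    have hcard : Fintype.card (Bool × Fin (2 ^ (k - 1))) = 2 ^ k := by
      rw [Fintype.card_prod, Fintype.card_bool, Fintype.card_fin]
      obtain ⟨m, rfl⟩ : ∃ m, k = m + 1 := ⟨k - 1, by omega⟩
      rw [Nat.add_sub_cancel, pow_succ]; ring
    have hex : ∀ i, ∃ p : Bool × Fin (2 ^ (k - 1)), q i ≠ 0 →
        (p.1 = true → 0 < ∑ a, w a * q i a ∧ InFace (q i) (S p.2)) ∧
        (p.1 = false → ∑ a, w a * q i a < 0 ∧ InFace (fun a => - q i a) (S p.2)) := by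
      intro i
      have hpos : 0 < 2 ^ (k - 1) := by positivity
      by_cases hi : q i = 0
      · exact ⟨(true, ⟨0, hpos⟩), fun h' => absurd hi h'⟩
      · rcases lt_trichotomy 0 (∑ a, w a * q i a) with h1 | h1 | h1
        · obtain ⟨s, hs, hs'⟩ := hC2 (q i) (hqu i) (hx2 i) h1
          obtain ⟨j, hj⟩ := hS s hs
          exact ⟨(true, j), fun _ => ⟨fun _ => ⟨h1, by rw [hj]; exact hs'⟩,
            fun h' => absurd h' (by simp)⟩⟩
        · exact absurd h1.symm ((hw i).2.2 hi)
        · obtain ⟨s, hs, hs'⟩ := hC2 (fun a => - q i a) (fun a => by rw [abs_neg]; exact hqu i a)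
            (by simp only [mul_neg, Finset.sum_neg_distrib]; rw [hx2 i, neg_zero])
            (by simp only [mul_neg, Finset.sum_neg_distrib]; linarith)
          obtain ⟨j, hj⟩ := hS s hs
          exact ⟨(false, j), fun _ => ⟨fun h' => absurd h' (by simp),
            fun _ => ⟨h1, by rw [hj]; exact hs'⟩⟩⟩
    choose p hp using hex
    refine ⟨fun i => Fintype.equivFinOfCardEq hcard (p i), fun i l a hi hl heq => ?_⟩
    have heq' : p i = p l := (Fintype.equivFinOfCardEq hcard).injective heq
    have hne : ∀ i a, u i a ≠ 0 → q i ≠ 0 := by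
      intro i a ha hq0
      refine ha ?_
      by_cases hah : a = h
      · subst hah
        rw [← hy2 i, hq0]
        simp
      · obtain ⟨b, rfl⟩ := Fin.exists_succAbove_eq hah
        exact congrFun hq0 b
    have hqi := hne i a (by rw [hi]; norm_num)
    have hql := hne l a (by rw [hl]; norm_num)
    have hpi := hp i hqi
    have hpl := hp l hql
    rw [← heq'] at hpl
    rcases hb : (p i).1 with _ | _
    · obtain ⟨h1, h2⟩ := hpi.2 hb
      obtain ⟨h3, h4⟩ := hpl.2 hb
      by_cases hah : a = h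
      · subst hah
        have h5 := (hw i).1 (by rw [hy2, hi]; norm_num)
        linarith
      · obtain ⟨b, rfl⟩ := Fin.exists_succAbove_eq hah
        refine not_opp (a := b) h4 h2 ?_ ?_
        · show - u l _ = 1
          rw [hl]; norm_num
        · show - u i _ = -1
          rw [hi]
    · obtain ⟨h1, h2⟩ := hpi.1 hb
      obtain ⟨h3, h4⟩ := hpl.1 hb
      by_cases hah : a = h
      · subst hah
        have h5 := (hw l).2.1 (by rw [hy2, hl]; norm_num)
        linarith
      · obtain ⟨b, rfl⟩ := Fin.exists_succAbove_eq hah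
        exact not_opp (a := b) h2 h4 hi hl

/-- Colouring of blocks with two relations. -/
theorem block2_col {ι : Type} [Fintype ι] {k : ℕ} (c : ι → ℝ)
    (hc : ∀ i, 0 < c i) (g : ι → Fin (k + 2) → ℝ) (x y : Fin (k + 2) → ℝ)
    (hxy : LinearIndependent ℝ ![x, y]) (hx : ∀ i, ∑ a, x a * g i a = 0)
    (hy : ∀ i, ∑ a, y a * g i a = 0) (hint : ∀ i l a, |g i a - g l a| ≤ c i + c l) :
    ∃ col : ι → Fin (2 ^ k), ∀ i l a, g i a - g l a = c i + c l → col i ≠ col l := by
  classical
  rcases isEmpty_or_nonempty ι with hι | hι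
  · exact ⟨fun i => (hι.false i).elim, fun i => (hι.false i).elim⟩
  have hex : ∀ a, ∃ t : ℝ, ∀ i, g i a - c i ≤ t ∧ t ≤ g i a + c i := fun a =>
    C1E.exists_common c (fun i => g i a) fun i l => hint i l a
  choose t ht using hex
  set u : ι → Fin (k + 2) → ℝ := fun i a => (g i a - t a) / c i with hu
  have hu1 : ∀ i a, |u i a| ≤ 1 := by
    intro i a
    have h1 := ht a i
    rw [hu, abs_div, abs_of_pos (hc i), div_le_one (hc i), abs_le]
    constructor <;> linarith [h1.1, h1.2]
  have hsep : ∀ i l a, g i a - g l a = c i + c l → u i a = 1 ∧ u l a = -1 := by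
    intro i l a h
    have h1 := (ht a i).1
    have h2 := (ht a l).2
    have h3 : g i a - t a = c i := by linarith
    have h4 : g l a - t a = - c l := by linarith
    simp only [hu, h3, h4]
    exact ⟨div_self (hc i).ne', by rw [neg_div, div_self (hc l).ne']⟩
  have hsum : ∀ (z : Fin (k + 2) → ℝ), (∀ i, ∑ a, z a * g i a = 0) → ∀ i,
      ∑ a, z a * u i a = - (∑ a, z a * t a) / c i := by
    intro z hz i
    have h1 : ∀ a, z a * u i a = (z a * g i a - z a * t a) / c i := fun a => by
      rw [hu]; ring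
    simp only [h1]
    rw [← Finset.sum_div, Finset.sum_sub_distrib, hz i, zero_sub]
  set X := ∑ a, x a * t a with hX
  set Y := ∑ a, y a * t a with hY
  have h1 := hsum x hx
  have h2 := hsum y hy
  by_cases h0 : X = 0 ∧ Y = 0
  · -- all pieces contain a common point
    obtain ⟨col, hcol⟩ := col_central u hu1 x y hxy (fun i => by rw [h1, ← hX, h0.1]; simp)
      (fun i => by rw [h2, ← hY, h0.2]; simp)
    exact ⟨col, fun i l a h => hcol i l a (hsep i l a h).1 (hsep i l a h).2⟩
  · have hpos : 0 < X ^ 2 + Y ^ 2 := by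
      rcases not_and_or.1 h0 with h | h
      · have := pow_pos (abs_pos.2 h) 2; rw [sq_abs] at this; positivity
      · have := pow_pos (abs_pos.2 h) 2; rw [sq_abs] at this; positivity
    have hne : ∃ a, Y * x a - X * y a ≠ 0 := by
      by_contra hcon
      push Not at hcon
      have h3 := LinearIndependent.pair_iff.1 hxy Y (-X) (by
        funext a
        have := hcon a
        simp only [Pi.add_apply, Pi.smul_apply, smul_eq_mul, Pi.zero_apply]
        linarith)
      exact h0 ⟨by linarith [h3.2], h3.1⟩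
    obtain ⟨C, hC1, hC2⟩ := r1_exact (n := k + 2) (by omega)
      (fun a => Y * x a - X * y a) (fun a => - X * x a - Y * y a) hne
    rw [Nat.add_sub_cancel] at hC1
    obtain ⟨S, hS⟩ := list_set C hC1
    have hex : ∀ i, ∃ j, InFace (u i) (S j) := by
      intro i
      obtain ⟨s, hs, hs'⟩ := hC2 (u i) (hu1 i) (by
          have : ∀ a, (Y * x a - X * y a) * u i a = Y * (x a * u i a) - X * (y a * u i a) :=
            fun a => by ring
          simp only [this]
          rw [Finset.sum_sub_distrib, ← Finset.mul_sum, ← Finset.mul_sum, h1, h2, ← hX, ← hY]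
          ring) (by
          have : ∀ a, (- X * x a - Y * y a) * u i a = - X * (x a * u i a) - Y * (y a * u i a) :=
            fun a => by ring
          simp only [this]
          rw [Finset.sum_sub_distrib, ← Finset.mul_sum, ← Finset.mul_sum, h1, h2, ← hX, ← hY]
          have e : -X * (-X / c i) - Y * (-Y / c i) = (X ^ 2 + Y ^ 2) / c i := by ring
          rw [e]
          exact div_pos hpos (hc i))
      obtain ⟨j, hj⟩ := hS s hs
      exact ⟨j, by rw [hj]; exact hs'⟩
    choose col hcol using hex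
    refine ⟨col, fun i l a h heq => ?_⟩
    obtain ⟨e1, e2⟩ := hsep i l a h
    have h3 := hcol l
    rw [← heq] at h3
    exact not_opp (hcol i) h3 e1 e2

/-- Colouring of one block with at most two vectors more than the dimension. -/
theorem block_col_all {ι : Type} [Fintype ι] {d m k : ℕ} (hm : m ≤ k + 2)
    (u : Fin m → EuclideanSpace ℝ (Fin d))
    (hu : finrank ℝ (Submodule.span ℝ (Set.range u)) ≤ k)
    (c : ι → ℝ) (hc : ∀ i, 0 < c i) (p : ι → EuclideanSpace ℝ (Fin d))
    (hint : ∀ i l a, |inner ℝ (u a) (p i) - inner ℝ (u a) (p l)| ≤ c i + c l) :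
    ∃ col : ι → Fin (2 ^ k), ∀ i l a,
      inner ℝ (u a) (p i) - inner ℝ (u a) (p l) = c i + c l → col i ≠ col l := by
  classical
  rcases Nat.lt_or_ge (k + 1) m with hkm | hkm
  · obtain rfl : m = k + 2 := by omega
    obtain ⟨x, y, hxy, hx, hy⟩ := exists_two_relations u (by omega)
    have hrel : ∀ w : Fin (k + 2) → ℝ, ∑ a, w a • u a = 0 → ∀ i,
        ∑ a, w a * inner ℝ (u a) (p i) = 0 := by
      intro w hw i
      have : ∑ a, w a * inner ℝ (u a) (p i) = inner ℝ (∑ a, w a • u a) (p i) := by
        rw [sum_inner]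
        refine Finset.sum_congr rfl fun a _ => ?_
        rw [real_inner_smul_left]
      rw [this, hw, inner_zero_left]
    exact block2_col c hc (fun i a => inner ℝ (u a) (p i)) x y hxy (hrel x hx) (hrel y hy) hint
  · obtain ⟨col, hcol⟩ := block_col hkm u hu c hc p hint
    have hcard : Fintype.card (Fin k → Bool) = 2 ^ k := by simp
    exact ⟨fun i => Fintype.equivFinOfCardEq hcard (col i), fun i l a h heq =>
      hcol i l a h ((Fintype.equivFinOfCardEq hcard).injective heq)⟩

end C1G
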