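import Pool.Agent.C1G.Far3

/-!
# Visits
-/

set_option linter.unusedSectionVars false
set_option linter.unusedVariables false

namespace C1G

open Finset C1E

variable {ι : Type} [Fintype ι] [DecidableEq ι]

/-- an active vertex below a node, in the direction out -/
inductive AO (x y : ι → ℝ) (A : ℝ) (fU fD : (ι → Bool) → Prop) (g nu kp : ι)
    (M : (ι → Bool) → (ι → Bool) → Prop) (LU LD : (ι → Bool) → ι → Prop)
    (c q : ι → Bool) : Prop
  | l (l : ι) (hl : LT x y A g nu kp LU LD c l) (hf : Ful x y A fU fD g nu M (pl g kp l c))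
      (hq : q = pl g kp l c)
  | k (hn : NL x y A g nu kp LU LD c) (hb : FB x y A fU fD g nu kp M c)
      (hB : 0 < Bv x y A g nu (pp g kp c)) (hq : q = pp g kp c)

/-- an active vertex below a node, in the direction in -/
inductive AI (x y : ι → ℝ) (A : ℝ) (fU fD : (ι → Bool) → Prop) (g nu kp : ι)
    (M : (ι → Bool) → (ι → Bool) → Prop) (LU LD : (ι → Bool) → ι → Prop)
    (c q : ι → Bool) : Prop
  | l (l : ι) (hl : LT x y A g nu kp LU LD c l) (hf : Ful x y A fU fD g nu M (pl g kp l c))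
      (hu : fU (pl g kp l c)) (hq : q = pl g kp l c)
  | k (hn : NL x y A g nu kp LU LD c) (hb : FB x y A fU fD g nu kp M c)
      (hB : Bv x y A g nu (pp g kp c) ≤ 0 ∨ fU (pp g kp c)) (hq : q = pp g kp c)

/-- active vertices -/
def AQ (x y : ι → ℝ) (A : ℝ) (g nu kp : ι) (LU LD : (ι → Bool) → ι → Prop)
    (c q : ι → Bool) : Prop :=
  (∃ l, LT x y A g nu kp LU LD c l ∧ q = pl g kp l c) ∨
    (NL x y A g nu kp LU LD c ∧ q = pp g kp c)

/-- visits through an arc in -/
inductive IV (x y : ι → ℝ) (A : ℝ) (fU fD : (ι → Bool) → Prop) (g nu kp : ι)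
    (M : (ι → Bool) → (ι → Bool) → Prop) (LU LD : (ι → Bool) → ι → Prop)
    (c v : ι → Bool) : Prop
  | e (hn : NL x y A g nu kp LU LD c) (he : EF x y A fU fD g nu kp M c)
      (hx : Xi g nu kp M c v)
  | p (q : ι → Bool) (ha : AO x y A fU fD g nu kp M LU LD c q) (hM : M q v)
      (hG : InG x y A g v) (hn : v nu = true)
  | w (q d c' : ι → Bool) (ha : AO x y A fU fD g nu kp M LU LD c q) (hM : M q d)
      (hG : InG x y A g d) (hc : Nod x y A fU fD g nu kp c') (hd : d = ep nu kp c')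
      (hM' : M d v) (hG' : InG x y A g v) (hn : v nu = true)

/-- visits through an arc out -/
inductive OV (x y : ι → ℝ) (A : ℝ) (fU fD : (ι → Bool) → Prop) (g nu kp : ι)
    (M : (ι → Bool) → (ι → Bool) → Prop) (LU LD : (ι → Bool) → ι → Prop)
    (c v : ι → Bool) : Prop
  | e (hn : NL x y A g nu kp LU LD c) (he : EF x y A fU fD g nu kp M c)
      (hx : Xo g nu kp M c v)
  | p (q : ι → Bool) (ha : AI x y A fU fD g nu kp M LU LD c q) (hM : M v q)
      (hG : InG x y A g v) (hn : v nu = true)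

section

variable {x y : ι → ℝ} {A : ℝ} {pos : (ι → Bool) → Prop} {g nu kp : ι}
  {M : (ι → Bool) → (ι → Bool) → Prop} {fU fD : (ι → Bool) → Prop}
  {LU LD : (ι → Bool) → ι → Prop}

theorem bf {b : Bool} (h : b = true) (h' : b = false) : False := by
  rw [h] at h'; exact Bool.noConfusion h'

theorem flp_inj {b b' : ι → Bool} {a : ι} (h : flp b a = flp b' a) : b = b' := by
  rw [← flp_flp b a, h, flp_flp]

theorem nup_inj (X : Cx x y A pos fU fD g nu kp M) {b b' : ι → Bool}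
    (h : nup g nu b = nup g nu b') : b = b' := by
  rw [← nup_nup X.hg b, h, nup_nup X.hg]

/-- the target determines the node -/
theorem ul_inj (X : Cx x y A pos fU fD g nu kp M) (L : Lps x y A pos fU fD LU LD)
    {c c' : ι → Bool} {l l' : ι} (h : Nod x y A fU fD g nu kp c)
    (h' : Nod x y A fU fD g nu kp c') (hl : LT x y A g nu kp LU LD c l)
    (hl' : LT x y A g nu kp LU LD c' l') (he : ul kp l c = ul kp l' c') : c = c' := by
  unfold ul at he
  rw [flp_comm' c kp l, flp_comm' c' kp l'] at he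
  have h1 := flp_inj he
  have f := hl.f X L h
  have f' := hl'.f X L h'
  have h2 : flp (nup g nu c) l = flp (nup g nu c') l' := by
    rw [← nup_flp f.lg f.ln, ← nup_flp f'.lg f'.ln, h1]
  apply nup_inj X
  rcases hl.l with h3 | h3 <;> rcases hl'.l with h4 | h4
  · exact L.iu h3 h4 h2
  · have h5 := (L.lu h3).2.2.2
    have h6 := (L.ld h4).2.2.2
    rw [h2] at h5; exact absurd h6 h5
  · have h5 := (L.ld h3).2.2.2
    have h6 := (L.lu h4).2.2.2
    rw [← h2] at h6; exact absurd h5 h6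
  · exact L.id h3 h4 h2

/-- the flip of a node at its loop label is not a node -/
theorem notnod (X : Cx x y A pos fU fD g nu kp M) (L : Lps x y A pos fU fD LU LD)
    {c c' : ι → Bool} {l : ι} (h : Nod x y A fU fD g nu kp c)
    (h' : Nod x y A fU fD g nu kp c') (hl : LT x y A g nu kp LU LD c l)
    (he : c' = flp c l) : False := by
  have f := hl.f X L h
  have h1 : nup g nu c' = flp (nup g nu c) l := by rw [he, nup_flp f.lg f.ln]
  have h2 : dp x A (nup g nu c') < 0 := by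
    rw [h1, dp_flp_true f.zl]
    have := f.zd
    linarith
  rcases h'.t with h3 | h3
  · have := dp_pos h3.G.1.1; linarith
  · have := h3.D; linarith

theorem AQ.inj (X : Cx x y A pos fU fD g nu kp M) (L : Lps x y A pos fU fD LU LD)
    {c c' q : ι → Bool} (h : Nod x y A fU fD g nu kp c)
    (h' : Nod x y A fU fD g nu kp c') (ha : AQ x y A g nu kp LU LD c q)
    (ha' : AQ x y A g nu kp LU LD c' q) : c = c' := by
  rcases ha with ⟨l, hl, hq⟩ | ⟨hn, hq⟩ <;> rcases ha' with ⟨l', hl', hq'⟩ | ⟨hn', hq'⟩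
  · exact ul_inj X L h h' hl hl' (flp_inj (hq.symm.trans hq'))
  · exfalso
    have h1 : flp (flp c kp) l = flp c' kp := flp_inj (hq.symm.trans hq')
    rw [flp_comm'] at h1
    exact notnod X L h h' hl (flp_inj h1).symm
  · exfalso
    have h1 : flp (flp c' kp) l' = flp c kp := flp_inj (hq'.symm.trans hq)
    rw [flp_comm'] at h1
    exact notnod X L h' h hl' (flp_inj h1).symm
  · exact flp_inj (flp_inj (hq.symm.trans hq'))

theorem AO.q {c q : ι → Bool} (ha : AO x y A fU fD g nu kp M LU LD c q) :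
    AQ x y A g nu kp LU LD c q := by
  rcases ha with ⟨l, hl, hf, hq⟩ | ⟨hn, hb, hB, hq⟩
  · exact Or.inl ⟨l, hl, hq⟩
  · exact Or.inr ⟨hn, hq⟩

theorem AI.q {c q : ι → Bool} (ha : AI x y A fU fD g nu kp M LU LD c q) :
    AQ x y A g nu kp LU LD c q := by
  rcases ha with ⟨l, hl, hf, hu, hq⟩ | ⟨hn, hb, hB, hq⟩
  · exact Or.inl ⟨l, hl, hq⟩
  · exact Or.inr ⟨hn, hq⟩

theorem AQ.qg (X : Cx x y A pos fU fD g nu kp M) (L : Lps x y A pos fU fD LU LD)
    {c q : ι → Bool} (h : Nod x y A fU fD g nu kp c)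
    (ha : AQ x y A g nu kp LU LD c q) : q g = false := by
  rcases ha with ⟨l, hl, hq⟩ | ⟨hn, hq⟩
  · rw [hq]; exact (hl.f X L h).Pg X h
  · rw [hq]; exact h.Pg X

theorem AQ.E (X : Cx x y A pos fU fD g nu kp M) (L : Lps x y A pos fU fD LU LD)
    {c q : ι → Bool} (h : Nod x y A fU fD g nu kp c)
    (ha : AQ x y A g nu kp LU LD c q) :
    2 * et x y g nu - 2 * (ta x y g * A) ≤ Ev x y A g q := by
  rcases ha with ⟨l, hl, hq⟩ | ⟨hn, hq⟩
  · rw [hq]; exact (hl.f X L h).hE X h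
  · rw [hq]; exact hn.PE X L h

/-- the vertex above a node of type A is in `G` only if `y kp` is positive -/
theorem Nod.ey (X : Cx x y A pos fU fD g nu kp M) {c : ι → Bool}
    (h : Nod x y A fU fD g nu kp c) (he : InG x y A g (ep nu kp c)) :
    (InG x y A g (nup g nu c) → 0 < y kp) ∧ (0 < y kp ∨ Hgl x y A g nu kp) := by
  have h1 : InG x y A g (nup g nu c) → 0 < y kp := by
    intro hz
    have e1 := h.eEv X.K
    have e2 := Ev_nup X.S X.hg h.G.1.2.1 h.n
    have e3 := hz.2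
    have e4 := he.2
    have e5 := X.S.tau
    have e6 : 0 ≤ ta x y g * (A - x kp) := mul_nonneg e5 (by
      have := X.S.xg kp; have := X.S.xA; linarith)
    have e7 : et x y g kp = y kp + ta x y g * x kp := rfl
    have e8 : ta x y g * (A - x kp) = ta x y g * A - ta x y g * x kp := by ring
    linarith
  refine ⟨h1, ?_⟩
  rcases h.t with ht | ht
  · exact Or.inl (h1 ht.G)
  · exact Or.inr ht.h

theorem Ext.vis (X : Cx x y A pos fU fD g nu kp M) {v : ι → Bool} (h : Ext x y A g nu kp v)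
    (hB : 0 < Bv x y A g nu (nup g nu v)) (hh : 0 < y kp ∨ Hgl x y A g nu kp) :
    Vis x y A g nu kp v :=
  ⟨h.G, h.n, h.k, h.h.le, fun _ => ⟨Or.inl ⟨h.zG X hB, hB⟩, hh⟩⟩

/-- in-visits -/
theorem IV.vis (X : Cx x y A pos fU fD g nu kp M) (L : Lps x y A pos fU fD LU LD)
    {c v : ι → Bool} (h : Nod x y A fU fD g nu kp c)
    (hv : IV x y A fU fD g nu kp M LU LD c v) :
    Vis x y A g nu kp v ∧ 0 < Bv x y A g nu v ∧ ∃ w, M w v ∧ w ≠ nup g nu v := by
  rcases hv with ⟨hn, he, hx⟩ | ⟨q, ha, hM, hG, hn⟩ | ⟨q, d, c', ha, hM, hG, hc, hd, hM', hG', hn⟩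
  · obtain ⟨h1, h2, h3⟩ := hx.ext X h he
    refine ⟨h1.vis X h3 (h.ey X he.1).2, h2, _, hx.1, fun h4 => ?_⟩
    have h5 := h.en X.K
    rw [h4, nup_nu X.hg] at h5
    exact bf h1.n h5
  · have hw : q ≠ nup g nu v := by
      intro h1
      have h2 := ha.q.qg X L h
      rw [h1, nup_g X.hg] at h2
      exact bf hG.1.2.1 h2
    rcases ha with ⟨l, hl, hf, hq⟩ | ⟨hk, hb, hB, hq⟩
    · subst hq
      exact ((hl.f X L h).noO X h hG hn hM).elim
    · have hM1 := hM
      rw [hq] at hM1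
      obtain ⟨h1, h2⟩ := hk.vin X L h hb.1 hG hn hM1 hB
      exact ⟨h1, h2, q, hM, hw⟩
  · subst hd
    have hw : ep nu kp c' ≠ nup g nu v := by
      intro h1
      have h5 := hc.en X.K
      rw [h1, nup_nu X.hg] at h5
      exact bf hn h5
    rcases ha with ⟨l, hl, hf, hq⟩ | ⟨hk, hb, hB, hq⟩
    · exfalso
      subst hq
      have h1 := (hl.f X L h).nbC X h hG (Or.inl hM) (hc.en X.K)
      exact bf (hc.ek X.K) h1
    · obtain ⟨b1, b2, b3⟩ := hk.bp X L h hB
      have hz : ¬ InG x y A g (nup g nu c') := fun h1 => by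
        have := (hc.ey X hG).1 h1
        linarith
      obtain ⟨h1, h2, h3⟩ := out_ext X hc hG hM' hG' hn (fun h4 => hz (h4 ▸ hG'))
      exact ⟨h1.vis X h3 (Or.inr b2), h2, _, hM', hw⟩

/-- out-visits -/
theorem OV.vis (X : Cx x y A pos fU fD g nu kp M) (L : Lps x y A pos fU fD LU LD)
    {c v : ι → Bool} (h : Nod x y A fU fD g nu kp c)
    (hv : OV x y A fU fD g nu kp M LU LD c v) :
    Vis x y A g nu kp v ∧ ∃ w, M v w ∧ w ≠ nup g nu v := by
  rcases hv with ⟨hn, he, hx⟩ | ⟨q, ha, hM, hG, hn⟩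
  · obtain ⟨h1, h3⟩ := hx.ext X h he
    refine ⟨h1.vis X h3 (h.ey X he.1).2, _, hx.1, fun h4 => ?_⟩
    have h5 := h.en X.K
    rw [h4, nup_nu X.hg] at h5
    exact bf h1.n h5
  · have hw : q ≠ nup g nu v := by
      intro h1
      have h2 := ha.q.qg X L h
      rw [h1, nup_g X.hg] at h2
      exact bf hG.1.2.1 h2
    rcases ha with ⟨l, hl, hf, hu, hq⟩ | ⟨hk, hb, hB, hq⟩
    · have hM1 := hM
      rw [hq] at hM1
      exact ⟨((hl.f X L h).outO X h hG hn hM1).1, q, hM, hw⟩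
    · have hM1 := hM
      rw [hq] at hM1
      exact ⟨hk.vout X L h hb.1 hG hn hM1, q, hM, hw⟩

/-- heads of arcs from below are not charged in -/
theorem niC (X : Cx x y A pos fU fD g nu kp M) {q v : ι → Bool} (hq : q g = false)
    (hM : M q v) (hv : v g = true) : ¬ iC x y A fD g nu M v := by
  rintro (h1 | ⟨b, h1, h2⟩)
  · exact X.hM.fd hM h1
  · obtain rfl := X.hM.inn h1 hM
    rcases h2 with h2 | h2 | h2
    · exact bf hv h2.2
    · exact bf h2.1.2.1 hq
    · exact bf h2.1.1.2.1 hq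

/-- tails of arcs to below are not charged out -/
theorem noC (X : Cx x y A pos fU fD g nu kp M) {q v : ι → Bool} (hq : q g = false)
    (hM : M v q) : ¬ oC x y A fU g nu M v := by
  rintro (h1 | ⟨b, h1, h2⟩)
  · exact X.hM.fu hM h1
  · obtain rfl := X.hM.out h1 hM
    exact h2 (Or.inl ⟨X.hM.c0 hM, hq⟩)

theorem IV.inj (X : Cx x y A pos fU fD g nu kp M) (L : Lps x y A pos fU fD LU LD)
    {c c' v : ι → Bool} (h : Nod x y A fU fD g nu kp c)
    (h' : Nod x y A fU fD g nu kp c')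
    (hv : IV x y A fU fD g nu kp M LU LD c v)
    (hv' : IV x y A fU fD g nu kp M LU LD c' v) : c = c' := by
  have key : ∀ {c c' q d c'' : ι → Bool}, Nod x y A fU fD g nu kp c →
      Nod x y A fU fD g nu kp c' →
      EF x y A fU fD g nu kp M c → Xi g nu kp M c v →
      AO x y A fU fD g nu kp M LU LD c' q → M q d → InG x y A g d → M d v → False := by
    intro c c' q d c'' h h' he hx ha hM hG hM'
    obtain rfl := X.hM.inn hx.1 hM'
    exact niC X (ha.q.qg X L h') hM hG.1.2.1 he.2.2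
  rcases hv with ⟨hn, he, hx⟩ | ⟨q, ha, hM, hG, hn⟩ |
    ⟨q, d, c₁, ha, hM, hG, hc, hd, hM', hG', hn⟩ <;>
  rcases hv' with ⟨hn', he', hx'⟩ | ⟨q', ha', hM1, hG1, hn1⟩ |
    ⟨q', d', c₁', ha', hM1, hG1, hc1, hd1, hM1', hG1', hn1⟩
  · exact ep_inj (X.hM.inn hx.1 hx'.1)
  · exfalso
    have h1 := X.hM.inn hx.1 hM1
    have h2 := h.eg X
    have h3 := ha'.q.qg X L h'
    rw [← h1] at h3
    exact bf h2 h3
  · exact (key (c'' := c) h h' he hx ha' hM1 hG1 hM1').elim
  · exfalso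
    have h1 := X.hM.inn hx'.1 hM
    have h2 := h'.eg X
    have h3 := ha.q.qg X L h
    rw [← h1] at h3
    exact bf h2 h3
  · obtain rfl := X.hM.inn hM hM1
    exact AQ.inj X L h h' ha.q ha'.q
  · exfalso
    obtain rfl := X.hM.inn hM hM1'
    exact bf hG1.1.2.1 (ha.q.qg X L h)
  · exact (key (c'' := c) h' h he' hx' ha hM hG hM').elim
  · exfalso
    obtain rfl := X.hM.inn hM1 hM'
    exact bf hG.1.2.1 (ha'.q.qg X L h')
  · obtain rfl := X.hM.inn hM' hM1'
    obtain rfl := X.hM.inn hM hM1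
    exact AQ.inj X L h h' ha.q ha'.q

theorem OV.inj (X : Cx x y A pos fU fD g nu kp M) (L : Lps x y A pos fU fD LU LD)
    {c c' v : ι → Bool} (h : Nod x y A fU fD g nu kp c)
    (h' : Nod x y A fU fD g nu kp c')
    (hv : OV x y A fU fD g nu kp M LU LD c v)
    (hv' : OV x y A fU fD g nu kp M LU LD c' v) : c = c' := by
  rcases hv with ⟨hn, he, hx⟩ | ⟨q, ha, hM, hG, hn⟩ <;>
  rcases hv' with ⟨hn', he', hx'⟩ | ⟨q', ha', hM1, hG1, hn1⟩
  · exact ep_inj (X.hM.out hx.1 hx'.1)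
  · exfalso
    have h1 := X.hM.out hx.1 hM1
    have h2 := h.eg X
    have h3 := ha'.q.qg X L h'
    rw [← h1] at h3
    exact bf h2 h3
  · exfalso
    have h1 := X.hM.out hx'.1 hM
    have h2 := h'.eg X
    have h3 := ha.q.qg X L h
    rw [← h1] at h3
    exact bf h2 h3
  · obtain rfl := X.hM.out hM hM1
    exact AQ.inj X L h h' ha.q ha'.q

end

end C1G
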