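import Pool.Agent.C1G.Kap2

/-!
# Far nodes: the geometry
-/

set_option linter.unusedSectionVars false
set_option linter.unusedVariables false

namespace C1G

open Finset C1E

variable {ι : Type} [Fintype ι] [DecidableEq ι]

/-- used loops with their labels -/
structure Lps (x y : ι → ℝ) (A : ℝ) (pos : (ι → Bool) → Prop) (fU fD : (ι → Bool) → Prop)
    (LU LD : (ι → Bool) → ι → Prop) : Prop where
  u : ∀ {b}, fU b → ∃ l, LU b l
  d : ∀ {b}, fD b → ∃ l, LD b l
  lu : ∀ {b l}, LU b l → fU b ∧ val x (flp b l) < A ∧ 0 < ht x y A b (flp b l) ∧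
    ¬ pos (flp b l)
  ld : ∀ {b l}, LD b l → fD b ∧ val x (flp b l) < A ∧ ht x y A b (flp b l) < 0 ∧
    pos (flp b l)
  iu : ∀ {b b' l l'}, LU b l → LU b' l' → flp b l = flp b' l' → b = b'
  id : ∀ {b b' l l'}, LD b l → LD b' l' → flp b l = flp b' l' → b = b'

/-- `l` is the label of a used loop -/
def Ll (LU LD : (ι → Bool) → ι → Prop) (z : ι → Bool) (l : ι) : Prop := LU z l ∨ LD z l

/-- the vertex below the flip of a node -/
def pp (g kp : ι) (c : ι → Bool) : ι → Bool := flp (flp c kp) g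

/-- the same after the flip of a loop label -/
def pl (g kp l : ι) (c : ι → Bool) : ι → Bool := flp (flp (flp c kp) l) g

/-- far node with a full vertex below -/
def FB (x y : ι → ℝ) (A : ℝ) (fU fD : (ι → Bool) → Prop) (g nu kp : ι)
    (M : (ι → Bool) → (ι → Bool) → Prop) (c : ι → Bool) : Prop :=
  InF x A g (flp c kp) ∧ Ful x y A fU fD g nu M (pp g kp c)

/-- node with another loop label -/
structure LT (x y : ι → ℝ) (A : ℝ) (g nu kp : ι) (LU LD : (ι → Bool) → ι → Prop)
    (c : ι → Bool) (l : ι) : Prop where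
  G : InG x y A g (nup g nu c)
  k : l ≠ kp
  l : Ll LU LD (nup g nu c) l

/-- no other loop label -/
def NL (x y : ι → ℝ) (A : ℝ) (g nu kp : ι) (LU LD : (ι → Bool) → ι → Prop)
    (c : ι → Bool) : Prop := ∀ l, ¬ LT x y A g nu kp LU LD c l

/-- a visited vertex -/
structure Vis (x y : ι → ℝ) (A : ℝ) (g nu kp : ι) (v : ι → Bool) : Prop where
  G : InG x y A g v
  n : v nu = true
  k : v kp = false
  h : Ev x y A g v ≤ 2 * et x y g nu
  c : 0 < Bv x y A g nu v → ((InG x y A g (nup g nu v) ∧ 0 < Bv x y A g nu (nup g nu v)) ∨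
    TB x y A g nu kp v) ∧ (0 < y kp ∨ Hgl x y A g nu kp)

section

variable {x y : ι → ℝ} {A : ℝ} {pos : (ι → Bool) → Prop} {g nu kp : ι}
  {M : (ι → Bool) → (ι → Bool) → Prop} {fU fD : (ι → Bool) → Prop}
  {LU LD : (ι → Bool) → ι → Prop}

/-- source loops -/
theorem Lps.src (X : Cx x y A pos fU fD g nu kp M) (L : Lps x y A pos fU fD LU LD)
    {z : ι → Bool} {l : ι} (h : LD z l) (hG : InG x y A g z) :
    z l = true ∧ dp x A z < 2 * x l ∧ x l * Ev x y A g z < et x y g l * dp x A z ∧
      2 * y l ≤ val y z ∧ 0 < et x y g l ∧ Ev x y A g z < 2 * et x y g l ∧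
      Bv x y A g nu z < 2 * Bl x y g nu l := by
  obtain ⟨h1, h2, h3, h4⟩ := L.ld h
  obtain ⟨h5, h6, h7⟩ := out_true X.S hG.1.1 h2
  rw [ht_true (g := g) h5] at h3
  have h8 := X.S.sgn.nonneg h4
  rw [val_flp_true y h5] at h8
  have h3' : x l * Ev x y A g z < et x y g l * dp x A z := by linarith
  have hd := dp_pos hG.1.1
  have h9 : 0 < et x y g l := by
    have : 0 < et x y g l * dp x A z := lt_trans (mul_pos h7 hG.2) h3'
    exact pos_of_mul_pos_left this hd.le
  refine ⟨h5, h6, h3', by linarith, h9, ?_, ?_⟩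
  · have h10 : et x y g l * dp x A z < et x y g l * (2 * x l) := mul_lt_mul_of_pos_left h6 h9
    have h11 : x l * Ev x y A g z < x l * (2 * et x y g l) := by linarith
    exact lt_of_mul_lt_mul_left h11 h7.le
  · rw [Bv_y, Bl_y]
    have e1 := mul_lt_mul_of_pos_right h6 X.K.yn
    have e2 := mul_le_mul_of_nonneg_right (by linarith : 2 * y l ≤ val y z) (X.S.x0 nu)
    linarith

/-- sink loops -/
theorem Lps.snk (X : Cx x y A pos fU fD g nu kp M) (L : Lps x y A pos fU fD LU LD)
    {z : ι → Bool} {l : ι} (h : LU z l) (hG : InG x y A g z) (hB : 0 < Bv x y A g nu z) :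
    z l = true ∧ dp x A z < 2 * x l ∧ et x y g l * dp x A z < x l * Ev x y A g z ∧
      0 < y l ∧ 0 < et x y g l ∧ Ev x y A g z ≤ 2 * et x y g l ∧
      Bv x y A g nu z < 2 * Bl x y g nu l := by
  obtain ⟨h1, h2, h3, h4⟩ := L.lu h
  obtain ⟨h5, h6, h7⟩ := out_true X.S hG.1.1 h2
  rw [ht_true (g := g) h5] at h3
  have h8 := X.S.sgn.nonpos h4
  rw [val_flp_true y h5] at h8
  have h3' : et x y g l * dp x A z < x l * Ev x y A g z := by linarith
  have hd := dp_pos hG.1.1
  have hyb := FU_pos X.S (X.hM.U h1)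
  have hyl : 0 < y l := by linarith
  have ht := X.S.tau
  have hxn := X.S.x0 nu
  have h9 : 0 < et x y g l := by
    unfold et
    have := mul_nonneg ht h7.le
    linarith
  have hBl : 0 < Bl x y g nu l := by
    have e1 : x nu * (et x y g l * dp x A z) ≤ x nu * (x l * Ev x y A g z) :=
      mul_le_mul_of_nonneg_left h3'.le hxn
    have e2 : 0 < x l * Bv x y A g nu z := mul_pos h7 hB
    have e3 : 0 < Bl x y g nu l * dp x A z := by
      have : x l * Bv x y A g nu z = Bl x y g nu l * dp x A z +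
          (x nu * (et x y g l * dp x A z) - x nu * (x l * Ev x y A g z)) := by
        unfold Bv Bl; ring
      linarith
    exact pos_of_mul_pos_left e3 hd.le
  refine ⟨h5, h6, h3', hyl, h9, ?_, ?_⟩
  · have e1 := mul_le_mul_of_nonneg_left h6.le ht
    have e2 : Ev x y A g z = val y z + ta x y g * dp x A z := rfl
    have e3 : et x y g l = y l + ta x y g * x l := rfl
    linarith
  · have e1 := mul_le_mul_of_nonneg_right h3'.le hxn
    have e2 : 0 < (2 * x l - dp x A z) * Bl x y g nu l := mul_pos (by linarith) hBl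
    have e3 : 0 < x l * (2 * Bl x y g nu l - Bv x y A g nu z) := by
      have e4 : x l * (2 * Bl x y g nu l - Bv x y A g nu z) =
          (2 * x l - dp x A z) * Bl x y g nu l +
            (x l * Ev x y A g z * x nu - et x y g l * dp x A z * x nu) := by
        unfold Bv Bl; ring
      rw [e4]; linarith
    have := pos_of_mul_pos_right e3 h7.le
    linarith

/-- both kinds of loops -/
theorem Ll.facts (X : Cx x y A pos fU fD g nu kp M) (L : Lps x y A pos fU fD LU LD)
    {z : ι → Bool} {l : ι} (h : Ll LU LD z l) (hG : InG x y A g z)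
    (hB : 0 < Bv x y A g nu z) :
    z l = true ∧ l ≠ g ∧ l ≠ nu ∧ 0 < et x y g l ∧ Ev x y A g z ≤ 2 * et x y g l ∧
      Bv x y A g nu z < 2 * Bl x y g nu l ∧ 0 < x l := by
  have hd := dp_pos hG.1.1
  rcases h with h | h
  · obtain ⟨h1, h2, h3, h4, h5, h6, h7⟩ := L.snk X h hG hB
    refine ⟨h1, ?_, ?_, h5, h6, h7, by linarith⟩
    · rintro rfl; rw [X.S.et_g] at h5; exact lt_irrefl _ h5
    · rintro rfl; rw [Bl_nu] at h7; linarith
  · obtain ⟨h1, h2, h3, h4, h5, h6, h7⟩ := L.src X h hG
    refine ⟨h1, ?_, ?_, h5, h6.le, h7, by linarith⟩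
    · rintro rfl; rw [X.S.et_g] at h5; exact lt_irrefl _ h5
    · rintro rfl; rw [Bl_nu] at h7; linarith

/-- tails below `G` -/
theorem noTG (X : Cx x y A pos fU fD g nu kp M) {f q : ι → Bool} {j k : ι}
    (h : Lnk x y A g f q j k) (hE : Ev x y A g f ≤ 0) :
    Ev x y A g q < 2 * et x y g k - 2 * (ta x y g * A) := by
  have h1 := h.hj
  have h2 := h.dj
  have h3 := dp_pos h.b0
  have h4 := h.se
  have hxj : 0 < x j := by linarith
  have h5 : x j * Ev x y A g f ≤ 0 := mul_nonpos_of_nonneg_of_nonpos hxj.le hE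
  have h6 : et x y g j < 0 := by
    by_contra hc
    have := mul_nonneg (not_lt.1 hc) h3.le
    linarith
  have h7 : et x y g j * (2 * x j) < et x y g j * dp x A f := mul_lt_mul_of_neg_left h2 h6
  have h8 : x j * (2 * et x y g j) < x j * Ev x y A g f := by linarith
  have h9 := lt_of_mul_lt_mul_left h8 hxj.le
  linarith

/-- the other end of an arc at a vertex below -/
theorem nb_g {b c : ι → Bool} {j k : ι} (h : Lnk x y A g b c j k)
    (hq : b g = false ∨ c g = false) : j ≠ g ∧ k ≠ g ∧ c g = !(b g) := by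
  have hj : j ≠ g := by
    rintro rfl
    rcases hq with hq | hq
    · rw [h.bj] at hq; exact Bool.noConfusion hq
    · rw [h.cj] at hq; exact Bool.noConfusion hq
  have hk : k ≠ g := by
    rintro rfl
    rcases hq with hq | hq
    · rw [h.bk] at hq; exact Bool.noConfusion hq
    · rw [h.ck] at hq; exact Bool.noConfusion hq
  exact ⟨hj, hk, h.ne g hj.symm hk.symm⟩

/-- heads of arcs out of a vertex below -/
theorem hd_T (X : Cx x y A pos fU fD g nu kp M) {q v : ι → Bool} (hq : q g = false)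
    (h : M q v) : InT x A g v := by
  obtain ⟨j, k, h1⟩ := Lk_elim X.S (X.hM.lk h)
  have h2 := (nb_g h1 (Or.inl hq)).2.2
  rw [hq] at h2
  rcases kinds h1.c0 (g := g) with h3 | h3 | h3
  · exact h3
  · rw [h3.2] at h2; exact Bool.noConfusion h2
  · exact absurd (X.hM.lk h) (h3.noLk' X.S)

/-- tails of arcs into a high vertex below -/
theorem tl_G (X : Cx x y A pos fU fD g nu kp M) {q v : ι → Bool} (hq : q g = false)
    (hE : 2 * et x y g nu - 2 * (ta x y g * A) ≤ Ev x y A g q)
    (h : M v q) : InG x y A g v := by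
  obtain ⟨j, k, h1⟩ := Lk_elim X.S (X.hM.lk h)
  obtain ⟨hj, hk, h2⟩ := nb_g h1 (Or.inr hq)
  rw [hq] at h2
  have h2' : v g = true := by
    cases hv : v g
    · rw [hv] at h2; exact Bool.noConfusion h2
    · rfl
  rcases kinds h1.b0 (g := g) with h3 | h3 | h3
  · refine ⟨h3, ?_⟩
    by_contra hc
    have h4 := noTG X h1 (not_lt.1 hc)
    have h5 := X.S.nu k hk
    linarith
  · rw [h3.2] at h2'; exact Bool.noConfusion h2'
  · exact absurd (X.hM.lk h) (h3.noLk X.S)

/-- the partner of a vertex of `G` is in `G` -/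
theorem zG' (X : Cx x y A pos fU fD g nu kp M) {v : ι → Bool} (hG : InG x y A g v)
    (hn : v nu = true) (hE : 0 < Ev x y A g (nup g nu v))
    (hB : 0 < Bv x y A g nu (nup g nu v)) : InG x y A g (nup g nu v) := by
  have e1 := X.K.eta X.S
  have e2 := X.S.x0 nu
  have h1 : 0 < dp x A (nup g nu v) := by
    unfold Bv at hB
    have := mul_nonneg hE.le e2
    have h3 : 0 < dp x A (nup g nu v) * et x y g nu := by linarith
    exact pos_of_mul_pos_left h3 e1.le
  have h2 := dp_nup X.S X.hg hG.1.2.1 hn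
  have h3 := dp_pos hG.1.1
  have h4 := X.S.xg nu
  have h5 := X.S.xA
  refine ⟨⟨?_, ?_, by linarith⟩, hE⟩
  · unfold dp at h1; linarith
  · rw [nup_g X.hg, hG.1.2.1]

/-! ## Coordinates of the vertices at a node -/

theorem Nod.zn (X : Cx x y A pos fU fD g nu kp M) {c : ι → Bool}
    (h : Nod x y A fU fD g nu kp c) : nup g nu c nu = true := by rw [nup_nu X.hg, h.n]

theorem Nod.Pg (X : Cx x y A pos fU fD g nu kp M) {c : ι → Bool}
    (h : Nod x y A fU fD g nu kp c) : pp g kp c g = false := by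
  unfold pp; rw [flp_same, h.ug X.S X.K]; rfl

theorem Nod.Pn (X : Cx x y A pos fU fD g nu kp M) {c : ι → Bool}
    (h : Nod x y A fU fD g nu kp c) : pp g kp c nu = true := by
  unfold pp; rw [flp_ne _ X.hg.symm, h.un X.K]

theorem Nod.Pk (X : Cx x y A pos fU fD g nu kp M) {c : ι → Bool}
    (h : Nod x y A fU fD g nu kp c) : pp g kp c kp = true := by
  unfold pp; rw [flp_ne _ (X.K.ne_g X.S), h.uk]

theorem Nod.Pd (X : Cx x y A pos fU fD g nu kp M) {c : ι → Bool}
    (h : Nod x y A fU fD g nu kp c) :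
    dp x A (pp g kp c) = dp x A c + 2 * x kp - 2 * x g := by
  unfold pp; rw [dp_flp_true (h.ug X.S X.K), dp_flp_false h.k]

theorem Nod.PE (X : Cx x y A pos fU fD g nu kp M) {c : ι → Bool}
    (h : Nod x y A fU fD g nu kp c) :
    Ev x y A g (pp g kp c) = Ev x y A g c + 2 * et x y g kp := by
  unfold pp; rw [Ev_flp_true (h.ug X.S X.K), Ev_flp_false h.k, X.S.et_g]; ring

theorem Nod.PB (X : Cx x y A pos fU fD g nu kp M) {c : ι → Bool}
    (h : Nod x y A fU fD g nu kp c) :
    Bv x y A g nu (pp g kp c) = Bv x y A g nu c + 2 * Bl x y g nu kp -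
      2 * (x g * et x y g nu) := by
  unfold pp; rw [Bv_flp_true (h.ug X.S X.K), Bv_flp_false h.k, Bl_g X.S]

/-- `P` is high when the partner has no other loop label -/
theorem NL.zE (X : Cx x y A pos fU fD g nu kp M) (L : Lps x y A pos fU fD LU LD)
    {c : ι → Bool} (h : Nod x y A fU fD g nu kp c)
    (hk : NL x y A g nu kp LU LD c) :
    Ev x y A g (nup g nu c) ≤ 2 * et x y g kp := by
  rcases h.t with ht | ht
  · have hl : Ll LU LD (nup g nu c) kp := by
      have : ∃ l, Ll LU LD (nup g nu c) l := by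
        rcases ht.l with h1 | h1
        · obtain ⟨l, h2⟩ := L.d h1; exact ⟨l, Or.inr h2⟩
        · obtain ⟨l, h2⟩ := L.u h1; exact ⟨l, Or.inl h2⟩
      obtain ⟨l, h2⟩ := this
      by_cases h3 : l = kp
      · rw [← h3]; exact h2
      · exact absurd ⟨ht.G, h3, h2⟩ (hk l)
    exact (hl.facts X L ht.G ht.B).2.2.2.2.1
  · have := ht.E
    have := X.K.wd.1
    linarith

theorem NL.PE (X : Cx x y A pos fU fD g nu kp M) (L : Lps x y A pos fU fD LU LD)
    {c : ι → Bool} (h : Nod x y A fU fD g nu kp c)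
    (hk : NL x y A g nu kp LU LD c) :
    2 * et x y g nu - 2 * (ta x y g * A) ≤ Ev x y A g (pp g kp c) := by
  have h1 := hk.zE X L h
  have h2 := Ev_nup X.S X.hg h.G.1.2.1 h.n
  rw [h.PE X]
  linarith

/-- the case of a positive side of `P` -/
theorem NL.bp (X : Cx x y A pos fU fD g nu kp M) (L : Lps x y A pos fU fD LU LD)
    {c : ι → Bool} (h : Nod x y A fU fD g nu kp c)
    (hk : NL x y A g nu kp LU LD c) (hB : 0 < Bv x y A g nu (pp g kp c)) :
    y kp < 0 ∧ Hgl x y A g nu kp ∧ (¬ InG x y A g (nup g nu c) ∨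
      (0 < Bv x y A g nu (nup g nu c) ∧ LD (nup g nu c) kp)) := by
  rcases h.t with ht | ht
  · have hPB := h.PB X
    have hb := B_nup X.S X.hg h.G.1.2.1 h.n
    have hBz := ht.B
    have hyn := X.K.yn
    have hxn := X.S.x0 nu
    have hxk := X.S.xg kp
    have hxA := X.S.xA
    rcases ht.l with h1 | h1
    · obtain ⟨l, h2⟩ := L.d h1
      have h3 : l = kp := by
        by_contra h3
        exact hk l ⟨ht.G, h3, Or.inr h2⟩
      subst h3
      obtain ⟨a1, a2, a3, a4, a5, a6, a7⟩ := L.src X h2 ht.G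
      have hy := FD_neg X.S (X.hM.D h1)
      have hyk : y l < 0 := by linarith
      refine ⟨hyk, ?_, Or.inr ⟨hBz, h2⟩⟩
      rcases ht.h h1 with h3 | h3 | h3
      · have hyc := FU_pos X.S (X.hM.U h3)
        have e1 := Bv_y (x := x) (y := y) (A := A) (g := g) (nu := nu) c
        have e2 := mul_nonneg hyc.le hxn
        have e3 := dp_nup X.S X.hg h.G.1.2.1 h.n
        have e4 := dp_pos ht.G.1.1
        have e5 := X.S.xg nu
        have e6 : 0 < (2 * A - dp x A c) * y nu := mul_pos (by linarith) hyn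
        unfold Hgl
        have e7 : et x y g nu = y nu + ta x y g * x nu := rfl
        have e8 : A * et x y g nu = A * y nu + ta x y g * A * x nu := by rw [e7]; ring
        linarith
      · linarith
      · exact h3
    · exfalso
      obtain ⟨l, h2⟩ := L.u h1
      have h3 : l = kp := by
        by_contra h3
        exact hk l ⟨ht.G, h3, Or.inl h2⟩
      subst h3
      obtain ⟨a1, a2, a3, a4, a5, a6, a7⟩ := L.snk X h2 ht.G ht.B
      have e1 : 0 ≤ (A - x l) * y nu := mul_nonneg (by linarith) hyn.le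
      have e2 := mul_nonneg a4.le hxn
      have e3 : Bl x y g nu l = x l * y nu - y l * x nu := Bl_y l
      have e7 : et x y g nu = y nu + ta x y g * x nu := rfl
      have e8 : A * et x y g nu = A * y nu + ta x y g * A * x nu := by rw [e7]; ring
      linarith
  · exact ⟨ht.y, ht.h, Or.inl fun h1 => by have := h1.2; have := ht.E; linarith⟩

end

end C1G
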