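import Pool.Agent.C1G.Far

/-!
# Far nodes: the neighbours of the vertices below
-/

set_option linter.unusedSectionVars false
set_option linter.unusedVariables false

namespace C1G

open Finset C1E

variable {ι : Type} [Fintype ι] [DecidableEq ι]

section

variable {x y : ι → ℝ} {A : ℝ} {pos : (ι → Bool) → Prop} {g nu kp : ι}
  {M : (ι → Bool) → (ι → Bool) → Prop} {fU fD : (ι → Bool) → Prop}
  {LU LD : (ι → Bool) → ι → Prop}

/-- one of the labels of an arc between two vertices with the same value -/
theorem lab_of {b c : ι → Bool} {j k a : ι} (h : Lnk x y A g b c j k)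
    (h1 : b a = true) (h2 : c a = true) : a = j ∨ a = k := by
  by_contra hc
  rw [not_or] at hc
  have h3 := h.ne a hc.1 hc.2
  rw [h1, h2] at h3
  exact Bool.noConfusion h3

theorem nolab {b c : ι → Bool} {j k a : ι} (h : Lnk x y A g b c j k)
    (h1 : b a = !(c a)) : a ≠ j ∧ a ≠ k := by
  constructor
  · rintro rfl; rw [h.bj, h.cj] at h1; exact Bool.noConfusion h1
  · rintro rfl; rw [h.bk, h.ck] at h1; exact Bool.noConfusion h1

/-- the labels of an arc are those of any writing of its ends -/
theorem pp_nup (X : Cx x y A pos fU fD g nu kp M) (c : ι → Bool) :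
    ng (flp (flp (pp g kp c) kp) nu) = nup g nu c := by
  unfold pp nup
  rw [flp_comm' (flp c kp) g kp, flp_flp]

theorem pp_nup' (X : Cx x y A pos fU fD g nu kp M) (c : ι → Bool) :
    ng (flp (flp (pp g kp c) nu) kp) = nup g nu c := by
  rw [flp_comm', pp_nup X]

/-- the partner of a neighbour of `P` -/
theorem NL.vis (X : Cx x y A pos fU fD g nu kp M) (L : Lps x y A pos fU fD LU LD)
    {c v : ι → Bool} {s : ι} (h : Nod x y A fU fD g nu kp c)
    (hk : NL x y A g nu kp LU LD c) (hF : InF x A g (flp c kp))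
    (hG : InG x y A g v) (hn : v nu = true) (hv : v kp = false) (hs : s ≠ g)
    (hd : dp x A (pp g kp c) + dp x A v = 2 * (x nu + x s) - 2 * A)
    (he : Ev x y A g (pp g kp c) + Ev x y A g v =
      2 * (et x y g nu + et x y g s) - 2 * (ta x y g * A))
    (hB : 0 < Bv x y A g nu v → 0 < Bv x y A g nu (pp g kp c)) :
    Vis x y A g nu kp v := by
  have hPE := hk.PE X L h
  have hPd := h.Pd X
  have hP := h.PE X
  have hsn := X.S.nu s hs
  refine ⟨hG, hn, hv, by linarith, fun hBv => ?_⟩
  obtain ⟨h1, h2, h3⟩ := hk.bp X L h (hB hBv)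
  refine ⟨?_, Or.inr h2⟩
  have hes : 0 < et x y g s := by
    have := hG.2
    linarith
  have hle := Bl_le X.K hes
  have hdz := dp_nup X.S X.hg hG.1.2.1 hn
  have hEz := Ev_nup X.S X.hg hG.1.2.1 hn
  have hdc := dp_nup X.S X.hg h.G.1.2.1 h.n
  have hEc := Ev_nup X.S X.hg h.G.1.2.1 h.n
  have hBz : 0 < Bv x y A g nu (nup g nu v) := by
    have e1 : dp x A (nup g nu v) = dp x A c + 2 * x kp - 2 * x s := by linarith
    have e2 : Ev x y A g (nup g nu v) = Ev x y A g c + 2 * et x y g kp - 2 * et x y g s := by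
      linarith
    have e3 : Bv x y A g nu (nup g nu v) = Bv x y A g nu c + 2 * Bl x y g nu kp -
        2 * Bl x y g nu s := by
      unfold Bv Bl; rw [e1, e2]; ring
    have := h.B
    linarith
  by_cases hE : 0 < Ev x y A g (nup g nu v)
  · exact Or.inl ⟨zG' X hG hn hE hBz, hBz⟩
  · refine Or.inr ⟨not_lt.1 hE, ?_, h2, h1⟩
    have e1 := hF.2.2
    rw [dp_flp_false h.k] at e1
    have e2 := X.S.xg s
    linarith

/-- heads in `O` of arcs out of `P` -/
theorem NL.vin (X : Cx x y A pos fU fD g nu kp M) (L : Lps x y A pos fU fD LU LD)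
    {c v : ι → Bool} (h : Nod x y A fU fD g nu kp c)
    (hk : NL x y A g nu kp LU LD c) (hF : InF x A g (flp c kp))
    (hG : InG x y A g v) (hn : v nu = true) (hM : M (pp g kp c) v)
    (hB : 0 < Bv x y A g nu (pp g kp c)) :
    Vis x y A g nu kp v ∧ 0 < Bv x y A g nu v := by
  obtain ⟨j, k, h1⟩ := Lk_elim X.S (X.hM.lk hM)
  obtain ⟨b1, b2, b3⟩ := hk.bp X L h hB
  have hkn : k = nu := by
    rcases lab_of h1 (h.Pn X) hn with h2 | h2
    · exfalso
      have := h1.hj
      rw [← h2] at this
      unfold Bv at hB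
      linarith
    · exact h2.symm
  subst hkn
  have hBv : 0 < Bv x y A g k v := by
    have := h1.hk
    unfold Bv
    linarith
  obtain ⟨a1, a2, a3⟩ := nb_g h1 (Or.inl (h.Pg X))
  have hjk : j ≠ kp := by
    intro h2
    have h3 := h1.eq
    rw [h2, pp_nup X] at h3
    subst h3
    rcases b3 with b3 | ⟨_, b3⟩
    · exact b3 hG
    · exact X.hM.fd hM (L.ld b3).1
  have hvk : v kp = false := by
    rw [h1.ne kp hjk.symm X.K.ne_nu, h.Pk X]; rfl
  exact ⟨hk.vis X L h hF hG hn hvk a1 (by rw [h1.sd]; ring) (by rw [h1.se]; ring)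
    fun _ => hB, hBv⟩

/-- tails in `O` of arcs into `P` -/
theorem NL.vout (X : Cx x y A pos fU fD g nu kp M) (L : Lps x y A pos fU fD LU LD)
    {c v : ι → Bool} (h : Nod x y A fU fD g nu kp c)
    (hk : NL x y A g nu kp LU LD c) (hF : InF x A g (flp c kp))
    (hG : InG x y A g v) (hn : v nu = true) (hM : M v (pp g kp c)) :
    Vis x y A g nu kp v := by
  obtain ⟨j, k, h1⟩ := Lk_elim X.S (X.hM.lk hM)
  obtain ⟨a1, a2, a3⟩ := nb_g h1 (Or.inr (h.Pg X))
  -- the side of `v`
  have hB : 0 < Bv x y A g nu v → 0 < Bv x y A g nu (pp g kp c) := by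
    intro hBv
    rcases lab_of h1 hn (h.Pn X) with h2 | h2
    · exfalso
      have := h1.hj
      rw [← h2] at this
      unfold Bv at hBv
      linarith
    · have := h1.hk
      rw [← h2] at this
      unfold Bv
      linarith
  -- `v` is not the partner
  have hz : v ≠ nup g nu c := by
    intro hz
    rcases h.t with ht | ht
    · have hB1 := hB (by rw [hz]; exact ht.B)
      obtain ⟨b1, b2, b3⟩ := hk.bp X L h hB1
      rcases b3 with b3 | ⟨b4, b3⟩
      · rw [hz] at hG; exact b3 hG
      · rw [← hz] at b3 b4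
        obtain ⟨c1, c2, c3, c4, c5, c6, c7⟩ := L.src X b3 hG
        have hj : j = nu ∨ j = kp := by
          rcases lab_of h1 hn (h.Pn X) with h2 | h2
          · exact Or.inl h2.symm
          · rcases lab_of h1 c1 (h.Pk X) with h3 | h3
            · exact Or.inr h3.symm
            · exact absurd (h3.trans h2.symm) X.K.ne_nu
        have := h1.hj
        rcases hj with hj | hj
        · rw [hj] at this
          unfold Bv at b4
          linarith
        · rw [hj] at this
          linarith
    · have := hG.2; rw [hz] at this; linarith [ht.E]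
  rcases lab_of h1 hn (h.Pn X) with h2 | h2
  · subst h2
    have hkk : k ≠ kp := by
      intro h2
      apply hz
      have h3 := ng_inv h1.eq
      rw [h2, pp_nup' X] at h3
      exact h3
    have hvk : v kp = false := by
      have := h1.ne kp X.K.ne_nu hkk.symm
      rw [h.Pk X] at this
      cases hv : v kp
      · rfl
      · rw [hv] at this; exact Bool.noConfusion this
    exact hk.vis X L h hF hG hn hvk a2 (by rw [add_comm, h1.sd]) (by rw [add_comm, h1.se]) hB
  · subst h2
    have hkk : j ≠ kp := by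
      intro h2
      apply hz
      have h3 := ng_inv h1.eq
      rw [h2, pp_nup X] at h3
      exact h3
    have hvk : v kp = false := by
      have := h1.ne kp hkk.symm X.K.ne_nu
      rw [h.Pk X] at this
      cases hv : v kp
      · rfl
      · rw [hv] at this; exact Bool.noConfusion this
    exact hk.vis X L h hF hG hn hvk a1 (by rw [add_comm, h1.sd]; ring)
      (by rw [add_comm, h1.se]; ring) hB

/-- the side of a tail with label `kp` -/
theorem tl_kp (X : Cx x y A pos fU fD g nu kp M) {b c : ι → Bool} {k : ι}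
    (h : Lnk x y A g b c kp k) : Bv x y A g nu b < 2 * Bl x y g nu kp := by
  have h1 := h.hj
  have h2 := h.dj
  have h3 := dp_pos h.b0
  have hxk : 0 < x kp := by linarith
  have hB := X.K.bp
  have e1 := mul_le_mul_of_nonneg_right h1.le (X.S.x0 nu)
  have e2 : 0 < (2 * x kp - dp x A b) * Bl x y g nu kp := mul_pos (by linarith) hB
  have e3 : 0 < x kp * (2 * Bl x y g nu kp - Bv x y A g nu b) := by
    have e4 : x kp * (2 * Bl x y g nu kp - Bv x y A g nu b) =
        (2 * x kp - dp x A b) * Bl x y g nu kp +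
          (x kp * Ev x y A g b * x nu - et x y g kp * dp x A b * x nu) := by
      unfold Bv Bl; ring
    rw [e4]; linarith
  have := pos_of_mul_pos_right e3 hxk.le
  linarith

/-- tails outside `O` of arcs into `P` -/
theorem NL.cout (X : Cx x y A pos fU fD g nu kp M) (L : Lps x y A pos fU fD LU LD)
    {c v : ι → Bool} (h : Nod x y A fU fD g nu kp c)
    (hk : NL x y A g nu kp LU LD c) (hv : v kp = true) (hM : M v (pp g kp c))
    (hc : Bv x y A g nu (pp g kp c) ≤ 0 ∨ fU (pp g kp c)) :
    Bv x y A g nu v < 2 * Bl x y g nu kp := by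
  obtain ⟨j, k, h1⟩ := Lk_elim X.S (X.hM.lk hM)
  rcases lab_of h1 hv (h.Pk X) with h2 | h2
  · subst h2; exact tl_kp X h1
  · exfalso
    subst h2
    have h3 := h1.hk
    have h4 := h1.dk
    have h5 := dp_pos h1.c0
    have hxk : 0 < x kp := by linarith
    have hB := X.K.bp
    have e1 := mul_le_mul_of_nonneg_right h3.le (X.S.x0 nu)
    have e2 : 0 < dp x A (pp g kp c) * Bl x y g nu kp := mul_pos h5 hB
    have e3 : 0 < x kp * Bv x y A g nu (pp g kp c) := by
      have e4 : x kp * Bv x y A g nu (pp g kp c) =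
          dp x A (pp g kp c) * Bl x y g nu kp +
            (et x y g kp * dp x A (pp g kp c) * x nu -
              x kp * Ev x y A g (pp g kp c) * x nu) := by
        unfold Bv Bl; ring
      rw [e4]; linarith
    have e5 := pos_of_mul_pos_right e3 hxk.le
    rcases hc with hc | hc
    · linarith
    · obtain ⟨b1, b2, b3⟩ := hk.bp X L h e5
      have h6 := FU_pos X.S (X.hM.U hc)
      have e6 : Ev x y A g (pp g kp c) = val y (pp g kp c) + ta x y g * dp x A (pp g kp c) := rfl
      have e7 : et x y g kp = y kp + ta x y g * x kp := rfl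
      have e8 : 0 < x kp * val y (pp g kp c) := mul_pos hxk h6
      have e9 : 0 < (-(y kp)) * dp x A (pp g kp c) := mul_pos (by linarith) h5
      have e10 : x kp * Ev x y A g (pp g kp c) = x kp * val y (pp g kp c) +
          x kp * (ta x y g * dp x A (pp g kp c)) := by rw [e6]; ring
      have e11 : et x y g kp * dp x A (pp g kp c) = y kp * dp x A (pp g kp c) +
          x kp * (ta x y g * dp x A (pp g kp c)) := by rw [e7]; ring
      rw [e10, e11] at h3
      linarith

end

end C1G
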