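import Pool.Agent.C1G.Far2

/-!
# The move along a loop label
-/

set_option linter.unusedSectionVars false
set_option linter.unusedVariables false

namespace C1G

open Finset C1E

variable {ι : Type} [Fintype ι] [DecidableEq ι]

/-- the target of the move -/
def ul (kp l : ι) (c : ι → Bool) : ι → Bool := flp (flp c kp) l

section

variable {x y : ι → ℝ} {A : ℝ} {pos : (ι → Bool) → Prop} {g nu kp : ι}
  {M : (ι → Bool) → (ι → Bool) → Prop} {fU fD : (ι → Bool) → Prop}
  {LU LD : (ι → Bool) → ι → Prop}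

theorem pl_ul (c : ι → Bool) (l : ι) : pl g kp l c = flp (ul kp l c) g := rfl

structure LTf (x y : ι → ℝ) (A : ℝ) (g nu kp : ι) (c : ι → Bool) (l : ι) : Prop where
  cl : c l = false
  lg : l ≠ g
  ln : l ≠ nu
  lk : l ≠ kp
  eta : 0 < et x y g l
  E : Ev x y A g (nup g nu c) ≤ 2 * et x y g l
  B : Bv x y A g nu (nup g nu c) < 2 * Bl x y g nu l
  xl : 0 < x l
  z : 0 < Bv x y A g nu (nup g nu c)
  zl : nup g nu c l = true
  zd : dp x A (nup g nu c) < 2 * x l

theorem LT.f (X : Cx x y A pos fU fD g nu kp M) (L : Lps x y A pos fU fD LU LD)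
    {c : ι → Bool} {l : ι} (h : Nod x y A fU fD g nu kp c) (hl : LT x y A g nu kp LU LD c l) :
    LTf x y A g nu kp c l := by
  have hB : 0 < Bv x y A g nu (nup g nu c) := by
    rcases h.t with ht | ht
    · exact ht.B
    · have := hl.G.2; linarith [ht.E]
  obtain ⟨h1, h2, h3, h4, h5, h6, h7⟩ := hl.l.facts X L hl.G hB
  refine ⟨?_, h2, h3, hl.k, h4, h5, h6, h7, hB, h1, ?_⟩
  swap
  · rcases hl.l with h8 | h8
    · exact (L.snk X h8 hl.G hB).2.1
    · exact (L.src X h8 hl.G).2.1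
  rw [nup_ne h2 h3] at h1
  cases h8 : c l
  · rfl
  · rw [h8] at h1; exact Bool.noConfusion h1

variable {c : ι → Bool} {l : ι}

theorem LTf.ug (X : Cx x y A pos fU fD g nu kp M) (h : Nod x y A fU fD g nu kp c)
    (hl : LTf x y A g nu kp c l) : ul kp l c g = true := by
  unfold ul; rw [flp_ne _ hl.lg.symm, h.ug X.S X.K]

theorem LTf.un (X : Cx x y A pos fU fD g nu kp M) (h : Nod x y A fU fD g nu kp c)
    (hl : LTf x y A g nu kp c l) : ul kp l c nu = true := by
  unfold ul; rw [flp_ne _ hl.ln.symm, h.un X.K]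

theorem LTf.uk (X : Cx x y A pos fU fD g nu kp M) (h : Nod x y A fU fD g nu kp c)
    (hl : LTf x y A g nu kp c l) : ul kp l c kp = true := by
  unfold ul; rw [flp_ne _ hl.lk.symm, h.uk]

theorem LTf.cl' (hl : LTf x y A g nu kp c l) : flp c kp l = false := by
  rw [flp_ne _ hl.lk, hl.cl]

theorem LTf.ud (X : Cx x y A pos fU fD g nu kp M) (h : Nod x y A fU fD g nu kp c)
    (hl : LTf x y A g nu kp c l) : dp x A (ul kp l c) = dp x A c + 2 * x kp + 2 * x l := by
  unfold ul; rw [dp_flp_false hl.cl', dp_flp_false h.k]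

theorem LTf.uE (X : Cx x y A pos fU fD g nu kp M) (h : Nod x y A fU fD g nu kp c)
    (hl : LTf x y A g nu kp c l) :
    Ev x y A g (ul kp l c) = Ev x y A g c + 2 * et x y g kp + 2 * et x y g l := by
  unfold ul; rw [Ev_flp_false hl.cl', Ev_flp_false h.k]

theorem LTf.uB (X : Cx x y A pos fU fD g nu kp M) (h : Nod x y A fU fD g nu kp c)
    (hl : LTf x y A g nu kp c l) :
    Bv x y A g nu (ul kp l c) = Bv x y A g nu c + 2 * Bl x y g nu kp + 2 * Bl x y g nu l := by
  unfold ul; rw [Bv_flp_false hl.cl', Bv_flp_false h.k]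

theorem LTf.uO (X : Cx x y A pos fU fD g nu kp M) (h : Nod x y A fU fD g nu kp c)
    (hl : LTf x y A g nu kp c l) : A < val x (ul kp l c) := by
  have h1 := hl.ud X h
  have h2 := dp_pos h.G.1.1
  have h3 := X.S.x0 kp
  have h4 := X.S.x0 l
  have : 0 < dp x A (ul kp l c) := by linarith
  unfold dp at this; linarith

theorem LTf.wB (X : Cx x y A pos fU fD g nu kp M) (h : Nod x y A fU fD g nu kp c)
    (hl : LTf x y A g nu kp c l) : Bv x y A g nu (nup g nu (ul kp l c)) < 0 := by
  have h1 := B_nup (A := A) X.S X.hg (hl.ug X h) (hl.un X h)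
  have h2 := B_nup X.S X.hg h.G.1.2.1 h.n
  have h3 := hl.uB X h
  have h4 := hl.B
  have h5 := X.K.bp
  linarith

theorem LTf.idl (X : Cx x y A pos fU fD g nu kp M) (h : Nod x y A fU fD g nu kp c)
    (hl : LTf x y A g nu kp c l) : Idl x y A fU fD g nu M (ul kp l c) := by
  have hB := hl.uB X h
  have hBc := h.B
  have hE := hl.uE X h
  have hEc := h.G.2
  have he := hl.eta
  have hk := X.K.wd.1
  have hz := hl.z
  have hBl := hl.B
  rcases kinds (hl.uO X h) (g := g) with h1 | h1 | h1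
  · have hG : InG x y A g (ul kp l c) := ⟨h1, by linarith⟩
    refine idl_of X.S X.hg X.hM hG (hl.un X h) (fun h2 => ?_) (fun h2 => ?_) (fun h2 h3 => ?_)
    · have := loop_lt X.S X.K hG (Or.inl (X.hM.D h2)); linarith
    · have := loop_lt X.S X.K hG (Or.inr (X.hM.U h2)); linarith
    · have := lk_B X.S X.hg hG (hl.un X h) h2 (X.hM.lk h3)
      have := hl.wB X h
      linarith
  · have := hl.ug X h; rw [h1.2] at this; exact Bool.noConfusion this
  · exact h1.idlu X.S X.hM

/-- arcs out of the vertex above the target -/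
theorem LTf.e_oC (X : Cx x y A pos fU fD g nu kp M) (h : Nod x y A fU fD g nu kp c)
    (hl : LTf x y A g nu kp c l) (hG : InG x y A g (flp (ul kp l c) nu)) :
    ¬ oC x y A fU g nu M (flp (ul kp l c) nu) := by
  have hB : Bv x y A g nu (flp (ul kp l c) nu) =
      Bv x y A g nu c + 2 * Bl x y g nu kp + 2 * Bl x y g nu l := by
    rw [Bv_flp_true (hl.un X h), Bl_nu, hl.uB X h]; ring
  have hE : Ev x y A g (flp (ul kp l c) nu) =
      Ev x y A g c + 2 * et x y g kp + 2 * et x y g l - 2 * et x y g nu := by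
    rw [Ev_flp_true (hl.un X h), hl.uE X h]
  have hBc := h.B
  have hz := hl.z
  have hBl := hl.B
  rintro (h1 | ⟨f, h1, h2⟩)
  · have := loop_lt X.S X.K hG (Or.inr (X.hM.U h1)); linarith
  · rcases kinds (X.hM.c0 h1) (g := g) with h3 | h3 | h3
    · by_cases h4 : InG x y A g f
      · obtain ⟨j, s, h5⟩ := Lk_elim X.S (X.hM.lk h1)
        obtain ⟨h6, h7, h8⟩ := TG X.S h5 hG.1 h4
        subst h6
        have hEc := Ev_nup X.S X.hg h.G.1.2.1 h.n
        have hBz := B_nup X.S X.hg h.G.1.2.1 h.n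
        have hs := Lnk.sB nu h5
        have hbg : Bl x y j nu j = x j * et x y j nu := Bl_g X.S
        have hEf := h4.2
        have hE2 := hl.E
        have hk := X.K.wd.1
        have hes : 0 < et x y j s := by linarith
        have hle := Bl_le X.K hes
        have hBf : Bv x y A j nu f < 2 * Bl x y j nu s - 2 * Bl x y j nu kp := by linarith
        have hk0 := X.K.bp
        have h9 := (dn X h5 h4 (by linarith)).2
        linarith
      · exact h2 (Or.inr (Or.inl ⟨hG.1, h3, h4⟩))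
    · exact h2 (Or.inl h3)
    · exact absurd (X.hM.lk h1) (h3.noLk' X.S)

theorem LTf.unhit (X : Cx x y A pos fU fD g nu kp M) (h : Nod x y A fU fD g nu kp c)
    (hl : LTf x y A g nu kp c l) {b : ι → Bool} (hf : Ful x y A fU fD g nu M b)
    (he : chg x A g nu b = ul kp l c) : b = pl g kp l c := by
  unfold chg at he
  rcases ful_cases X.S X.hg X.hM hf with h1 | h1
  · rw [if_pos h1.2] at he
    rw [pl_ul, ← he, flp_flp]
  · rw [if_neg (by rw [h1.1.2.1]; simp)] at he
    cases h2 : b nu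
    · exfalso
      rw [h2, if_pos rfl] at he
      have h3 : b = flp (ul kp l c) nu := by rw [← he, flp_flp]
      rw [h3] at h1 hf
      exact hl.e_oC X h h1 hf.1
    · exfalso
      rw [h2, if_neg (by simp)] at he
      have h3 : b = nup g nu (ul kp l c) := by rw [← he, nup_nup X.hg]
      have h4 := hl.wB X h
      rw [← h3] at h4
      have h5 := (tow_iC X.S h1 h2).1 hf.2
      have := src_pos X.S X.K (X.hM.D h5)
      linarith

/-! ## The vertex below the target -/

theorem LTf.Pg (X : Cx x y A pos fU fD g nu kp M) (h : Nod x y A fU fD g nu kp c)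
    (hl : LTf x y A g nu kp c l) : pl g kp l c g = false := by
  rw [pl_ul, flp_same, hl.ug X h]; rfl

theorem LTf.Pn (X : Cx x y A pos fU fD g nu kp M) (h : Nod x y A fU fD g nu kp c)
    (hl : LTf x y A g nu kp c l) : pl g kp l c nu = true := by
  rw [pl_ul, flp_ne _ X.hg.symm, hl.un X h]

theorem LTf.Pk (X : Cx x y A pos fU fD g nu kp M) (h : Nod x y A fU fD g nu kp c)
    (hl : LTf x y A g nu kp c l) : pl g kp l c kp = true := by
  rw [pl_ul, flp_ne _ (X.K.ne_g X.S), hl.uk X h]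

theorem LTf.PE (X : Cx x y A pos fU fD g nu kp M) (h : Nod x y A fU fD g nu kp c)
    (hl : LTf x y A g nu kp c l) :
    Ev x y A g (pl g kp l c) = Ev x y A g c + 2 * et x y g kp + 2 * et x y g l := by
  rw [pl_ul, Ev_flp_true (hl.ug X h), hl.uE X h, X.S.et_g]; ring

theorem LTf.PB (X : Cx x y A pos fU fD g nu kp M) (h : Nod x y A fU fD g nu kp c)
    (hl : LTf x y A g nu kp c l) :
    Bv x y A g nu (pl g kp l c) = Bv x y A g nu c + 2 * Bl x y g nu kp + 2 * Bl x y g nu l -
      2 * (x g * et x y g nu) := by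
  rw [pl_ul, Bv_flp_true (hl.ug X h), hl.uB X h, Bl_g X.S]

theorem LTf.hE (X : Cx x y A pos fU fD g nu kp M) (h : Nod x y A fU fD g nu kp c)
    (hl : LTf x y A g nu kp c l) :
    2 * et x y g nu - 2 * (ta x y g * A) ≤ Ev x y A g (pl g kp l c) := by
  rw [hl.PE X h]
  have h1 := Ev_nup X.S X.hg h.G.1.2.1 h.n
  have h2 := hl.E
  have h3 := X.K.wd.1
  linarith

/-- neighbours in `O` of the vertex below -/
theorem LTf.nbO (X : Cx x y A pos fU fD g nu kp M) (h : Nod x y A fU fD g nu kp c)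
    (hl : LTf x y A g nu kp c l) {v : ι → Bool} {s : ι} (hs : s ≠ g)
    (hG : InG x y A g v)
    (hE : Ev x y A g (pl g kp l c) + Ev x y A g v =
      2 * (et x y g nu + et x y g s) - 2 * (ta x y g * A))
    (hB : Bv x y A g nu (pl g kp l c) + Bv x y A g nu v = 2 * Bl x y g nu s -
      2 * (A * et x y g nu - ta x y g * A * x nu)) :
    Bv x y A g nu v < 0 ∧ Bv x y A g nu v < 2 * Bl x y g nu s ∧ s ≠ kp ∧
      Ev x y A g v ≤ 2 * et x y g nu := by
  have h1 := Ev_nup X.S X.hg h.G.1.2.1 h.n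
  have h2 := B_nup X.S X.hg h.G.1.2.1 h.n
  have h3 := hl.PE X h
  have h4 := hl.PB X h
  have h5 := hl.E
  have h6 := hl.B
  have h7 := X.K.wd.1
  have h8 := X.K.bp
  have h9 := hG.2
  have hes : 0 < et x y g s := by linarith
  have hle := Bl_le X.K hes
  have hsn := X.S.nu s hs
  refine ⟨by linarith, by linarith, ?_, by linarith⟩
  rintro rfl
  linarith

theorem LTf.noO (X : Cx x y A pos fU fD g nu kp M) (h : Nod x y A fU fD g nu kp c)
    (hl : LTf x y A g nu kp c l) {v : ι → Bool} (hG : InG x y A g v) (hn : v nu = true)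
    (hM : M (pl g kp l c) v) : False := by
  obtain ⟨j, k, h1⟩ := Lk_elim X.S (X.hM.lk hM)
  obtain ⟨a1, a2, a3⟩ := nb_g h1 (Or.inl (hl.Pg X h))
  have hs := Lnk.sB nu h1
  have he := h1.se
  rcases lab_of h1 (hl.Pn X h) hn with h2 | h2
  · subst h2
    rw [Bl_nu] at hs
    obtain ⟨b1, b2, b3, b4⟩ := hl.nbO X h a2 hG he (by linarith)
    have := (dn X h1 hG b2).2
    linarith
  · subst h2
    rw [Bl_nu] at hs
    obtain ⟨b1, b2, b3, b4⟩ := hl.nbO X h a1 hG (by linarith) (by linarith)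
    have := h1.hk
    unfold Bv at b1
    linarith

theorem LTf.outO (X : Cx x y A pos fU fD g nu kp M) (h : Nod x y A fU fD g nu kp c)
    (hl : LTf x y A g nu kp c l) {v : ι → Bool} (hG : InG x y A g v) (hn : v nu = true)
    (hM : M v (pl g kp l c)) : Vis x y A g nu kp v ∧ Bv x y A g nu v < 0 := by
  obtain ⟨j, k, h1⟩ := Lk_elim X.S (X.hM.lk hM)
  obtain ⟨a1, a2, a3⟩ := nb_g h1 (Or.inr (hl.Pg X h))
  have hs := Lnk.sB nu h1
  have he := h1.se
  have key : ∀ s : ι, s ≠ g → (s = j ∧ nu = k ∨ s = k ∧ nu = j) →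
      Vis x y A g nu kp v ∧ Bv x y A g nu v < 0 := by
    intro s hsg hc
    have h2 : Bv x y A g nu v < 0 ∧ Bv x y A g nu v < 2 * Bl x y g nu s ∧ s ≠ kp ∧
        Ev x y A g v ≤ 2 * et x y g nu := by
      rcases hc with ⟨h3, h4⟩ | ⟨h3, h4⟩
      · subst h3 h4
        rw [Bl_nu] at hs
        exact hl.nbO X h hsg hG (by linarith) (by linarith)
      · subst h3 h4
        rw [Bl_nu] at hs
        exact hl.nbO X h hsg hG (by linarith) (by linarith)
    obtain ⟨b1, b2, b3, b4⟩ := h2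
    refine ⟨⟨hG, hn, ?_, b4, fun h5 => ?_⟩, b1⟩
    · have h5 : kp ≠ j ∧ kp ≠ k := by
        rcases hc with ⟨h3, h4⟩ | ⟨h3, h4⟩
        · exact ⟨by rw [← h3]; exact b3.symm, by rw [← h4]; exact X.K.ne_nu⟩
        · exact ⟨by rw [← h4]; exact X.K.ne_nu, by rw [← h3]; exact b3.symm⟩
      have h6 := h1.ne kp h5.1 h5.2
      rw [hl.Pk X h] at h6
      cases hv : v kp
      · rfl
      · rw [hv] at h6; exact Bool.noConfusion h6
    · linarith
  rcases lab_of h1 hn (hl.Pn X h) with h2 | h2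
  · exact key k a2 (Or.inr ⟨rfl, h2⟩)
  · exact key j a1 (Or.inl ⟨rfl, h2⟩)

/-- neighbours outside `O` of the vertex below are `kp`-closed -/
theorem LTf.nbC (X : Cx x y A pos fU fD g nu kp M) (h : Nod x y A fU fD g nu kp c)
    (hl : LTf x y A g nu kp c l) {v : ι → Bool} (hG : InG x y A g v)
    (hM : M (pl g kp l c) v ∨ M v (pl g kp l c)) (hn : v nu = false) : v kp = false := by
  by_contra hk
  rw [Bool.not_eq_false] at hk
  have h1 := Ev_nup X.S X.hg h.G.1.2.1 h.n
  have h3 := hl.PE X h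
  have h5 := hl.E
  have h9 := hG.2
  have key : ∀ s : ι, s ≠ g → Ev x y A g (pl g kp l c) + Ev x y A g v =
      2 * (et x y g kp + et x y g s) - 2 * (ta x y g * A) → False := by
    intro s hs he
    have hsn := X.S.nu s hs
    linarith
  rcases hM with hM | hM
  · obtain ⟨j, k, h2⟩ := Lk_elim X.S (X.hM.lk hM)
    obtain ⟨a1, a2, a3⟩ := nb_g h2 (Or.inl (hl.Pg X h))
    rcases lab_of h2 (hl.Pk X h) hk with h4 | h4
    · subst h4; exact key k a2 h2.se
    · subst h4; exact key j a1 (by rw [h2.se]; ring)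
  · obtain ⟨j, k, h2⟩ := Lk_elim X.S (X.hM.lk hM)
    obtain ⟨a1, a2, a3⟩ := nb_g h2 (Or.inr (hl.Pg X h))
    rcases lab_of h2 hk (hl.Pk X h) with h4 | h4
    · subst h4; exact key k a2 (by rw [add_comm, h2.se])
    · subst h4; exact key j a1 (by rw [add_comm, h2.se]; ring)

end

end C1G
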