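import Pool.Agent.C1G.Inj
import Pool.Agent.C1F.Full

/-!
# Counting along the chains
-/

set_option linter.unusedSectionVars false
set_option linter.unusedVariables false

namespace C1G

open Finset C1E

/-- starting points of chains are at most as many as the payees -/
theorem chain_card {V : Type} [Fintype V] [DecidableEq V] (Nd St G : V → Prop) [DecidablePred St]
    (nx py : V → V → Prop)
    (h1 : ∀ v, St v → Nd v) (h2 : ∀ v w, Nd v → nx v w → Nd w)
    (h3 : ∀ v v' w, Nd v → Nd v' → nx v w → nx v' w → v = v')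
    (h4 : ∀ v w, Nd v → nx v w → ¬ St w)
    (h5 : ∀ v, Nd v → (∃ w, nx v w) ∨ ∃ p, py v p)
    (h6 : ∀ v v' p, Nd v → Nd v' → py v p → py v' p → v = v')
    (h7 : ∀ v p, Nd v → py v p → G p) :
    ∃ P : Finset V, (∀ p ∈ P, G p) ∧ (univ.filter St).card ≤ P.card := by
  classical
  set N : Finset V := univ.filter Nd with hN
  set D : Finset V := univ.filter fun v => Nd v ∧ ∃ w, nx v w with hD
  set S : Finset V := univ.filter St with hS
  have mN : ∀ v, v ∈ N ↔ Nd v := fun v => by simp [hN]
  have mD : ∀ v, v ∈ D ↔ Nd v ∧ ∃ w, nx v w := fun v => by simp [hD]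
  have mS : ∀ v, v ∈ S ↔ St v := fun v => by simp [hS]
  have hf : ∀ v ∈ D, ∃ w, nx v w := fun v hv => ((mD v).1 hv).2
  choose! f hf using hf
  have e1 : D.card ≤ (N \ S).card := by
    refine card_le_card_of_injOn f (fun v hv => ?_) (fun v hv v' hv' he => ?_)
    · have hv := mem_coe.1 hv
      have h8 := (mD v).1 hv
      exact mem_coe.2 (mem_sdiff.2 ⟨(mN _).2 (h2 v _ h8.1 (hf v hv)), fun h9 =>
        h4 v _ h8.1 (hf v hv) ((mS _).1 h9)⟩)
    · have hv := mem_coe.1 hv
      have hv' := mem_coe.1 hv'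
      refine h3 v v' (f v) ((mD v).1 hv).1 ((mD v').1 hv').1 (hf v hv) ?_
      have he : f v = f v' := he
      rw [he]; exact hf v' hv'
  have hSN : S ⊆ N := fun v hv => (mN v).2 (h1 v ((mS v).1 hv))
  have hDN : D ⊆ N := fun v hv => (mN v).2 ((mD v).1 hv).1
  have e2 := card_sdiff_of_subset hSN
  have e3 := card_sdiff_of_subset hDN
  have e4 := card_le_card hSN
  have e5 := card_le_card hDN
  have hp : ∀ v ∈ N \ D, ∃ p, py v p := fun v hv => by
    have h8 := mem_sdiff.1 hv
    have h9 := (mN v).1 h8.1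
    rcases h5 v h9 with h10 | h10
    · exact absurd ((mD v).2 ⟨h9, h10⟩) h8.2
    · exact h10
  choose! pay hp using hp
  refine ⟨(N \ D).image pay, fun p hp' => ?_, ?_⟩
  · obtain ⟨v, hv, rfl⟩ := mem_image.1 hp'
    exact h7 v _ ((mN v).1 (mem_sdiff.1 hv).1) (hp v hv)
  · rw [card_image_of_injOn]
    · omega
    · intro v hv v' hv' he
      have hv := mem_coe.1 hv
      have hv' := mem_coe.1 hv'
      refine h6 v v' (pay v) ((mN v).1 (mem_sdiff.1 hv).1) ((mN v').1 (mem_sdiff.1 hv').1)
        (hp v hv) ?_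
      have he : pay v = pay v' := he
      rw [he]; exact hp v' hv'

variable {ι : Type} [Fintype ι] [DecidableEq ι]

section

variable {x y : ι → ℝ} {A : ℝ} {pos : (ι → Bool) → Prop} {g nu kp : ι}
  {M : (ι → Bool) → (ι → Bool) → Prop} {fU fD : (ι → Bool) → Prop}
  {LU LD : (ι → Bool) → ι → Prop}

/-- a matching is small if there are enough payees -/
theorem mat_card2 [DecidablePred fun b => ∃ c, M b c] [DecidablePred fU]
    [DecidablePred fD] [DecidablePred (Sp x y A fU fD g nu M)]
    (S : Sys x y A pos g nu) (hg : g ≠ nu)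
    (hM : Mat x y A pos M fU fD) (P : Finset (ι → Bool))
    (hP : ∀ p ∈ P, Gd x y A fU fD g nu M p)
    (hc : (univ.filter (Sp x y A fU fD g nu M)).card ≤ P.card) :
    (univ.filter fun b => ∃ c, M b c).card + (univ.filter fU).card +
      (univ.filter fD).card ≤ (univ.filter fun s => A < val x s).card := by
  classical
  rcases P.eq_empty_or_nonempty with h0 | ⟨p₀, hp₀⟩
  · have h1 : ∀ b, ¬ Sp x y A fU fD g nu M b := by
      intro b hb
      have h2 : b ∈ univ.filter (Sp x y A fU fD g nu M) := mem_filter.2 ⟨mem_univ _, hb⟩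
      rw [h0, card_empty, Nat.le_zero, card_eq_zero] at hc
      rw [hc] at h2
      exact absurd h2 (notMem_empty _)
    exact mat_card S hg hM id (fun b hb => absurd hb (h1 b)) (fun b b' hb => absurd hb (h1 b))
  · obtain ⟨f, hf1, hf2⟩ : ∃ f : (ι → Bool) → (ι → Bool),
        (∀ b ∈ univ.filter (Sp x y A fU fD g nu M), f b ∈ P) ∧
        Set.InjOn f (univ.filter (Sp x y A fU fD g nu M) : Finset (ι → Bool)) := by
      obtain ⟨Q, hQ, hQc⟩ := exists_subset_card_eq hc
      obtain ⟨e⟩ : Nonempty ((univ.filter (Sp x y A fU fD g nu M) : Finset (ι → Bool)) ≃ Q) :=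
        ⟨equivOfCardEq hQc.symm⟩
      refine ⟨fun b => if hb : b ∈ univ.filter (Sp x y A fU fD g nu M) then (e ⟨b, hb⟩).1 else p₀,
        fun b hb => ?_, fun b hb b' hb' he => ?_⟩
      · simp only [dif_pos hb]
        exact hQ (e ⟨b, hb⟩).2
      · have hb := mem_coe.1 hb
        have hb' := mem_coe.1 hb'
        simp only [dif_pos hb, dif_pos hb'] at he
        have := e.injective (Subtype.ext he)
        exact congrArg Subtype.val this
    refine mat_card S hg hM f (fun b hb => ?_) (fun b b' hb hb' he => ?_)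
    · exact hP _ (hf1 b (mem_filter.2 ⟨mem_univ _, hb⟩))
    · exact hf2 (mem_coe.2 (mem_filter.2 ⟨mem_univ _, hb⟩))
        (mem_coe.2 (mem_filter.2 ⟨mem_univ _, hb'⟩)) he

/-- special pairs and starting points -/
theorem sp_le_st [DecidablePred (Sp x y A fU fD g nu M)] [DecidablePred (St x y A fU fD g nu kp M)]
    (X : Cx x y A pos fU fD g nu kp M) :
    (univ.filter (Sp x y A fU fD g nu M)).card ≤
      (univ.filter (St x y A fU fD g nu kp M)).card := by
  classical
  refine card_le_card_of_injOn (fun b => if b kp = false then b else nup g nu b)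
    (fun b hb => ?_) (fun b hb b' hb' he => ?_)
  · have hb := (mem_filter.1 (mem_coe.1 hb)).2
    refine mem_coe.2 (mem_filter.2 ⟨mem_univ _, ?_⟩)
    show St x y A fU fD g nu kp M (if b kp = false then b else nup g nu b)
    cases h : b kp
    · rw [if_pos rfl]; exact ⟨h, Or.inl hb⟩
    · rw [if_neg (by simp)]
      refine ⟨by rw [nup_ne (X.K.ne_g X.S) X.K.ne_nu, h]; rfl, Or.inr ?_⟩
      rw [nup_nup X.hg]; exact hb
  · have hb := (mem_filter.1 (mem_coe.1 hb)).2
    have hb' := (mem_filter.1 (mem_coe.1 hb')).2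
    have key : ∀ {b b' : ι → Bool}, Sp x y A fU fD g nu M b → Sp x y A fU fD g nu M b' →
        b = nup g nu b' → False := fun {b b'} h h' he => by
      subst he
      exact not_FD_FU X.S (X.hM.D h.2.2.1) (X.hM.U h'.2.2.2.2.2)
    cases h : b kp <;> cases h' : b' kp
    · simpa [h, h'] using he
    · simp only [h, h', if_true, Bool.true_eq_false, if_false] at he
      exact (key hb hb' he).elim
    · simp only [h, h', if_true, Bool.true_eq_false, if_false] at he
      exact (key hb' hb he.symm).elim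
    · simp only [h, h', Bool.true_eq_false, if_false] at he
      rw [← nup_nup X.hg b, he, nup_nup X.hg]

/-- the bound for a matching if there is a window -/
theorem kap_card [DecidablePred fun b => ∃ c, M b c] [DecidablePred fU]
    [DecidablePred fD] (X : Cx x y A pos fU fD g nu kp M) (L : Lps x y A pos fU fD LU LD) :
    (univ.filter fun b => ∃ c, M b c).card + (univ.filter fU).card +
      (univ.filter fD).card ≤ (univ.filter fun s => A < val x s).card := by
  classical
  obtain ⟨P, hP, hc⟩ := chain_card (Nod x y A fU fD g nu kp) (St x y A fU fD g nu kp M)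
    (Gd x y A fU fD g nu M) (Nx x y A fU fD g nu kp M LU LD)
    (Py x y A fU fD g nu kp M LU LD)
    (fun v hv => hv.nod X) (fun v w hv hw => hw.nod X L hv)
    (fun v v' w hv hv' h h' => h.inj X L hv hv' h') (fun v w hv hw => hw.notSt X L hv)
    (fun v hv => nx_or_py X L hv)
    (fun v v' p hv hv' h h' => h.inj X L hv hv' h')
    (fun v p hv h => h.gd X L hv)
  exact mat_card2 X.S X.hg X.hM P hP ((sp_le_st X).trans hc)

/-- the bound for a matching -/
theorem fin_card [DecidablePred fun b => ∃ c, M b c] [DecidablePred fU]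
    [DecidablePred fD] (S : Sys x y A pos g nu) (hg : g ≠ nu)
    (hM : Mat x y A pos M fU fD) (L : Lps x y A pos fU fD LU LD) :
    (univ.filter fun b => ∃ c, M b c).card + (univ.filter fU).card +
      (univ.filter fD).card ≤ (univ.filter fun s => A < val x s).card := by
  classical
  by_cases hs : ∃ b, Sp x y A fU fD g nu M b
  · obtain ⟨b, h1, h2, h3, h4, h5, h6⟩ := hs
    have hsp : Spc x y A pos g nu b := ⟨h1, h2, hM.D h3, h4, hM.lk h5, hM.U h6⟩
    obtain ⟨⟨n₀, hn₀, -, -⟩, -⟩ := hsp.loops S hg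
    -- `nu` has a positive second coordinate
    have hyn : 0 < y nu := by
      obtain ⟨j, k, h7⟩ := Lk_elim S (hM.lk h5)
      obtain ⟨h8, -, -⟩ := TG S h7 h1.1 h4
      have hk : k = nu := by
        by_contra hk
        have e1 := nup_ne (g := g) (nu := nu) (a := k) (by rw [← h8]; exact h7.jk.symm) hk b
        rw [h7.ck, h7.bk] at e1
        exact Bool.noConfusion e1
      have h9 := h7.hk
      rw [hk] at h9
      have hdc := dp_pos h4.1.1
      have hyc := FU_pos S (hM.U h6)
      have e1 : x nu * val y (nup g nu b) < y nu * dp x A (nup g nu b) := by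
        rw [Ev_y x y A g (nup g nu b), et_y x y g nu]; linarith
      have e2 : 0 < y nu * dp x A (nup g nu b) :=
        lt_of_le_of_lt (mul_nonneg (S.x0 nu) hyc.le) e1
      exact pos_of_mul_pos_left e2 hdc.le
    set W : Finset ι := univ.filter (Wd x y g nu) with hW
    have mW : ∀ a, a ∈ W ↔ Wd x y g nu a := fun a => by simp [hW]
    obtain ⟨kp, hkp, hmax⟩ := W.exists_max_image (Bl x y g nu) ⟨n₀, (mW n₀).2 hn₀⟩
    have K : Kap x y g nu kp := ⟨(mW kp).1 hkp, fun a ha => hmax a ((mW a).2 ha), hyn⟩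
    exact kap_card ⟨S, hg, K, hM⟩ L
  · exact mat_card S hg hM id (fun b hb => absurd ⟨b, hb⟩ hs)
      (fun b b' hb => absurd ⟨b, hb⟩ hs)

end

end C1G
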