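import Pool.Agent.C1G.Py

/-!
# Different nodes have different payees
-/

set_option linter.unusedSectionVars false
set_option linter.unusedVariables false

namespace C1G

open Finset C1E

variable {ι : Type} [Fintype ι] [DecidableEq ι]

section

variable (x y : ι → ℝ) (A : ℝ) (fU fD : (ι → Bool) → Prop) (g nu kp : ι)
  (M : (ι → Bool) → (ι → Bool) → Prop) (LU LD : (ι → Bool) → ι → Prop)

/-- high payees -/
def PC (c p : ι → Bool) : Prop := ∃ v, p = flp v nu ∧ InG x y A g v ∧ v nu = false ∧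
  ((∃ q, AO x y A fU fD g nu kp M LU LD c q ∧ M q v ∧ ¬ Idl x y A fU fD g nu M v ∧
    ∀ c', Nod x y A fU fD g nu kp c' → v ≠ ep nu kp c') ∨
   (∃ q, AI x y A fU fD g nu kp M LU LD c q ∧ M v q))

/-- visited payees -/
def PD (c p : ι → Bool) : Prop :=
  (IV x y A fU fD g nu kp M LU LD c p ∧ Oi x y A fU fD g nu M p) ∨
    (OV x y A fU fD g nu kp M LU LD c p ∧ Oo x y A fU fD g nu M p)

/-- partners of visited vertices -/
def PE (c p : ι → Bool) : Prop := ∃ v, p = nup g nu v ∧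
  ((IV x y A fU fD g nu kp M LU LD c v ∧ ¬ Oi x y A fU fD g nu M v) ∨
    (OV x y A fU fD g nu kp M LU LD c v ∧ ¬ Oo x y A fU fD g nu M v))

/-- flips of nodes -/
def PF (c p : ι → Bool) : Prop := p = flp c kp ∨
  ∃ l, LT x y A g nu kp LU LD c l ∧ p = ul kp l c

/-- arcs from active vertices -/
def PA (c p : ι → Bool) : Prop := ∃ q, AO x y A fU fD g nu kp M LU LD c q ∧ M q p

end

section

variable {x y : ι → ℝ} {A : ℝ} {pos : (ι → Bool) → Prop} {g nu kp : ι}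
  {M : (ι → Bool) → (ι → Bool) → Prop} {fU fD : (ι → Bool) → Prop}
  {LU LD : (ι → Bool) → ι → Prop}

theorem Py.sg (X : Cx x y A pos fU fD g nu kp M) (L : Lps x y A pos fU fD LU LD)
    {c p : ι → Bool} (h : Nod x y A fU fD g nu kp c)
    (hx : Py x y A fU fD g nu kp M LU LD c p) :
    (Ev x y A g p ≤ 0 ∧ PA x y A fU fD g nu kp M LU LD c p) ∨
    (0 < Ev x y A g p ∧ p nu = false ∧ PA x y A fU fD g nu kp M LU LD c p) ∨
    (2 * et x y g nu < Ev x y A g p ∧ p nu = true ∧ PC x y A fU fD g nu kp M LU LD c p) ∨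
    (0 < Ev x y A g p ∧ Ev x y A g p ≤ 2 * et x y g nu ∧ p nu = true ∧ p kp = false ∧
      PD x y A fU fD g nu kp M LU LD c p) ∨
    (0 < Ev x y A g p ∧ Ev x y A g p ≤ 2 * et x y g nu ∧ p nu = true ∧ p kp = true ∧
      0 < Bv x y A g nu (nup g nu p) ∧ PE x y A fU fD g nu kp M LU LD c p) ∨
    (0 < Ev x y A g p ∧ p nu = true ∧ p kp = true ∧ Bv x y A g nu (nup g nu p) < 0 ∧
      PF x y A g nu kp LU LD c p) := by
  rcases hx with ⟨hn, he, hb, hp⟩ | ⟨l, hl, hf, hp⟩ | ⟨q, ha, hM, hT, hG⟩ |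
    ⟨q, ha, hM, hG, hn, hi⟩ | ⟨q, v, ha, hM, hG, hn, hi, hc, hp⟩ | ⟨q, v, ha, hM, hG, hn, hp⟩ |
    ⟨hv, hi⟩ | ⟨hv, hi⟩ | ⟨v, hv, hi, hz, hp⟩ | ⟨v, hv, hi, hz, hp⟩
  · subst hp
    exact Or.inr (Or.inr (Or.inr (Or.inr (Or.inr ⟨h.uE X.S X.K, h.un X.K, h.uk,
      h.wB X.S X.K, Or.inl rfl⟩))))
  · subst hp
    have f := hl.f X L h
    have h1 := f.uE X h
    have h2 := h.G.2
    have h3 := X.K.wd.1
    have h4 := f.eta
    exact Or.inr (Or.inr (Or.inr (Or.inr (Or.inr ⟨by linarith, f.un X h, f.uk X h,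
      f.wB X h, Or.inr ⟨l, hl, rfl⟩⟩))))
  · refine Or.inl ⟨?_, q, ha, hM⟩
    by_contra hc
    exact hG ⟨hT, not_le.1 hc⟩
  · exact Or.inr (Or.inl ⟨hG.2, hn, q, ha, hM⟩)
  · subst hp
    have h1 := away X.S X.hg hG hn
    exact Or.inr (Or.inr (Or.inl ⟨h1.2.2.2, h1.2.2.1, v, rfl, hG, hn,
      Or.inl ⟨q, ha, hM, hi, hc⟩⟩))
  · subst hp
    have h1 := away X.S X.hg hG hn
    exact Or.inr (Or.inr (Or.inl ⟨h1.2.2.2, h1.2.2.1, v, rfl, hG, hn,
      Or.inr ⟨q, ha, hM⟩⟩))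
  · obtain ⟨h1, h2, w, h3, h4⟩ := hv.vis X L h
    exact Or.inr (Or.inr (Or.inr (Or.inl ⟨h1.G.2, h1.h, h1.n, h1.k, Or.inl ⟨hv, hi⟩⟩)))
  · obtain ⟨h1, w, h3, h4⟩ := hv.vis X L h
    exact Or.inr (Or.inr (Or.inr (Or.inl ⟨h1.G.2, h1.h, h1.n, h1.k, Or.inr ⟨hv, hi⟩⟩)))
  · obtain ⟨h1, h2, w, h3, h4⟩ := hv.vis X L h
    subst hp
    refine Or.inr (Or.inr (Or.inr (Or.inr (Or.inl ⟨hz.1.2, (nup_lt X.S X.hg h1.G h1.n).le,
      by rw [nup_nu X.hg]; exact h1.n, by rw [nup_ne (X.K.ne_g X.S) X.K.ne_nu, h1.k]; rfl,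
      by rw [nup_nup X.hg]; exact h2, v, rfl, Or.inl ⟨hv, hi⟩⟩))))
  · obtain ⟨h1, w, h3, h4⟩ := hv.vis X L h
    obtain ⟨h5, h6⟩ := nn X h1.G h1.n h3 h4 hi
    subst hp
    refine Or.inr (Or.inr (Or.inr (Or.inr (Or.inl ⟨hz.1.2, (nup_lt X.S X.hg h1.G h1.n).le,
      by rw [nup_nu X.hg]; exact h1.n, by rw [nup_ne (X.K.ne_g X.S) X.K.ne_nu, h1.k]; rfl,
      by rw [nup_nup X.hg]; exact h6, v, rfl, Or.inr ⟨hv, hi⟩⟩))))

theorem PA.inj (X : Cx x y A pos fU fD g nu kp M) (L : Lps x y A pos fU fD LU LD)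
    {c c' p : ι → Bool} (h : Nod x y A fU fD g nu kp c) (h' : Nod x y A fU fD g nu kp c')
    (hp : PA x y A fU fD g nu kp M LU LD c p) (hp' : PA x y A fU fD g nu kp M LU LD c' p) :
    c = c' := by
  obtain ⟨q, ha, hM⟩ := hp
  obtain ⟨q', ha', hM'⟩ := hp'
  obtain rfl := X.hM.inn hM hM'
  exact AQ.inj X L h h' ha.q ha'.q

theorem PC.inj (X : Cx x y A pos fU fD g nu kp M) (L : Lps x y A pos fU fD LU LD)
    {c c' p : ι → Bool} (h : Nod x y A fU fD g nu kp c) (h' : Nod x y A fU fD g nu kp c')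
    (hp : PC x y A fU fD g nu kp M LU LD c p) (hp' : PC x y A fU fD g nu kp M LU LD c' p) :
    c = c' := by
  have key : ∀ {c c' q q' v : ι → Bool}, Nod x y A fU fD g nu kp c →
      Nod x y A fU fD g nu kp c' → InG x y A g v →
      AO x y A fU fD g nu kp M LU LD c q → M q v → ¬ Idl x y A fU fD g nu M v →
      AI x y A fU fD g nu kp M LU LD c' q' → M v q' → False :=
    fun {c c' q q' v} h h' hG ha hM hi ha' hM' =>
      hi ⟨hG.1.1, noC X (ha'.q.qg X L h') hM', niC X (ha.q.qg X L h) hM hG.1.2.1⟩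
  obtain ⟨v, rfl, hG, hn, hc⟩ := hp
  obtain ⟨v', he, hG', hn', hc'⟩ := hp'
  obtain rfl := flp_inj he
  rcases hc with ⟨q, ha, hM, hi, -⟩ | ⟨q, ha, hM⟩ <;>
    rcases hc' with ⟨q', ha', hM', hi', -⟩ | ⟨q', ha', hM'⟩
  · obtain rfl := X.hM.inn hM hM'
    exact AQ.inj X L h h' ha.q ha'.q
  · exact (key h h' hG ha hM hi ha' hM').elim
  · exact (key h' h hG ha' hM' hi' ha hM).elim
  · obtain rfl := X.hM.out hM hM'
    exact AQ.inj X L h h' ha.q ha'.q

theorem PD.inj (X : Cx x y A pos fU fD g nu kp M) (L : Lps x y A pos fU fD LU LD)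
    {c c' p : ι → Bool} (h : Nod x y A fU fD g nu kp c) (h' : Nod x y A fU fD g nu kp c')
    (hp : PD x y A fU fD g nu kp M LU LD c p) (hp' : PD x y A fU fD g nu kp M LU LD c' p) :
    c = c' := by
  rcases hp with ⟨hv, hi⟩ | ⟨hv, hi⟩ <;> rcases hp' with ⟨hv', hi'⟩ | ⟨hv', hi'⟩
  · exact hv.inj X L h h' hv'
  · obtain ⟨_, w, h3, _⟩ := hv'.vis X L h'
    exact absurd ⟨w, h3⟩ hi.2
  · obtain ⟨_, w, h3, _⟩ := hv.vis X L h
    exact absurd ⟨w, h3⟩ hi'.2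
  · exact hv.inj X L h h' hv'

theorem PE.inj (X : Cx x y A pos fU fD g nu kp M) (L : Lps x y A pos fU fD LU LD)
    {c c' p : ι → Bool} (h : Nod x y A fU fD g nu kp c) (h' : Nod x y A fU fD g nu kp c')
    (hp : PE x y A fU fD g nu kp M LU LD c p) (hp' : PE x y A fU fD g nu kp M LU LD c' p) :
    c = c' := by
  obtain ⟨v, rfl, hc⟩ := hp
  obtain ⟨v', he, hc'⟩ := hp'
  obtain rfl := nup_inj X he
  rcases hc with ⟨hv, hi⟩ | ⟨hv, hi⟩ <;> rcases hc' with ⟨hv', hi'⟩ | ⟨hv', hi'⟩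
  · exact hv.inj X L h h' hv'
  · exfalso
    obtain ⟨h1, h2, w, h3, h4⟩ := hv.vis X L h
    obtain ⟨h5, w', h6, h7⟩ := hv'.vis X L h'
    exact hi' (both X h1.G h1.n h3 h4 h6 h7)
  · exfalso
    obtain ⟨h1, h2, w, h3, h4⟩ := hv'.vis X L h'
    obtain ⟨h5, w', h6, h7⟩ := hv.vis X L h
    exact hi (both X h1.G h1.n h3 h4 h6 h7)
  · exact hv.inj X L h h' hv'

theorem PF.inj (X : Cx x y A pos fU fD g nu kp M) (L : Lps x y A pos fU fD LU LD)
    {c c' p : ι → Bool} (h : Nod x y A fU fD g nu kp c) (h' : Nod x y A fU fD g nu kp c')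
    (hp : PF x y A g nu kp LU LD c p) (hp' : PF x y A g nu kp LU LD c' p) :
    c = c' := by
  rcases hp with hp | ⟨l, hl, hp⟩ <;> rcases hp' with hp' | ⟨l', hl', hp'⟩
  · exact flp_inj (hp.symm.trans hp')
  · exfalso
    have h1 : flp (flp c' kp) l' = flp c kp := hp'.symm.trans hp
    rw [flp_comm'] at h1
    exact notnod X L h' h hl' (flp_inj h1).symm
  · exfalso
    have h1 : flp (flp c kp) l = flp c' kp := hp.symm.trans hp'
    rw [flp_comm'] at h1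
    exact notnod X L h h' hl (flp_inj h1).symm
  · exact ul_inj X L h h' hl hl' (hp.symm.trans hp')

/-- high payees are no flips of nodes -/
theorem PC.PF (X : Cx x y A pos fU fD g nu kp M) (L : Lps x y A pos fU fD LU LD)
    {c c' p : ι → Bool} (h : Nod x y A fU fD g nu kp c) (h' : Nod x y A fU fD g nu kp c')
    (hp : PC x y A fU fD g nu kp M LU LD c p) (hp' : PF x y A g nu kp LU LD c' p) :
    False := by
  obtain ⟨v, rfl, hG, hn, hc⟩ := hp
  -- tails of arcs into active vertices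
  have key : ∀ {q : ι → Bool}, AI x y A fU fD g nu kp M LU LD c q → M v q →
      v kp = true → Bv x y A g nu v < 2 * Bl x y g nu kp := by
    intro q ha hM hk
    rcases ha with ⟨l, hl, hf, hu, hq⟩ | ⟨hn', hb, hB, hq⟩
    · rw [hq] at hM
      have := (hl.f X L h).nbC X h hG (Or.inr hM) hn
      exact (bf hk this).elim
    · rw [hq] at hM
      exact hn'.cout X L h hk hM hB
  rcases hp' with hp' | ⟨l', hl', hp'⟩
  · have hv : v = ep nu kp c' := by unfold ep; rw [← hp', flp_flp]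
    rcases hc with ⟨q, ha, hM, hi, hc⟩ | ⟨q, ha, hM⟩
    · exact hc c' h' hv
    · have h1 := key ha hM (by rw [hv]; exact h'.ek X.K)
      have h2 := h'.eB X
      rw [← hv] at h2
      linarith
  · have hv : v = flp (ul kp l' c') nu := by rw [← hp', flp_flp]
    have f := hl'.f X L h'
    rcases hc with ⟨q, ha, hM, hi, hc⟩ | ⟨q, ha, hM⟩
    · refine hi ⟨hG.1.1, ?_, niC X (ha.q.qg X L h) hM hG.1.2.1⟩
      rw [hv] at hG ⊢
      exact f.e_oC X h' hG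
    · have h1 := key ha hM (by rw [hv, flp_ne _ X.K.ne_nu]; exact f.uk X h')
      have h2 : Bv x y A g nu v =
          Bv x y A g nu c' + 2 * Bl x y g nu kp + 2 * Bl x y g nu l' := by
        rw [hv, Bv_flp_true (f.un X h'), Bl_nu, f.uB X h']; ring
      have h3 := h'.B
      have h4 := f.z
      have h5 := f.B
      linarith

theorem Py.inj (X : Cx x y A pos fU fD g nu kp M) (L : Lps x y A pos fU fD LU LD)
    {c c' p : ι → Bool} (h : Nod x y A fU fD g nu kp c) (h' : Nod x y A fU fD g nu kp c')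
    (hx : Py x y A fU fD g nu kp M LU LD c p)
    (hx' : Py x y A fU fD g nu kp M LU LD c' p) : c = c' := by
  have he := X.K.eta X.S
  rcases hx.sg X L h with ⟨a1, a2⟩ | ⟨a1, a2, a3⟩ | ⟨a1, a2, a3⟩ | ⟨a1, a2, a3, a4, a5⟩ |
      ⟨a1, a2, a3, a4, a5, a6⟩ | ⟨a1, a2, a3, a4, a5⟩ <;>
    rcases hx'.sg X L h' with ⟨b1, b2⟩ | ⟨b1, b2, b3⟩ | ⟨b1, b2, b3⟩ | ⟨b1, b2, b3, b4, b5⟩ |
      ⟨b1, b2, b3, b4, b5, b6⟩ | ⟨b1, b2, b3, b4, b5⟩
  · exact a2.inj X L h h' b2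
  · linarith
  · linarith
  · linarith
  · linarith
  · linarith
  · linarith
  · exact a3.inj X L h h' b3
  · exact (bf b2 a2).elim
  · exact (bf b3 a2).elim
  · exact (bf b3 a2).elim
  · exact (bf b2 a2).elim
  · linarith
  · exact (bf a2 b2).elim
  · exact a3.inj X L h h' b3
  · linarith
  · linarith
  · exact (PC.PF X L h h' a3 b5).elim
  · linarith
  · exact (bf a3 b2).elim
  · linarith
  · exact a5.inj X L h h' b5
  · exact (bf b4 a4).elim
  · exact (bf b3 a4).elim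
  · linarith
  · exact (bf a3 b2).elim
  · linarith
  · exact (bf a4 b4).elim
  · exact a6.inj X L h h' b6
  · linarith
  · linarith
  · exact (bf a2 b2).elim
  · exact (PC.PF X L h' h b3 a5).elim
  · exact (bf a3 b4).elim
  · linarith
  · exact a5.inj X L h h' b5

end

end C1G
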