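import Pool.Agent.C1G.Mat

/-!
# Chains of special pairs
-/

set_option linter.unusedSectionVars false
set_option linter.unusedVariables false

namespace C1G

open Finset C1E

variable {ι : Type} [Fintype ι] [DecidableEq ι]

/-- the side of a vertex with respect to the direction of `nu` -/
noncomputable def Bv (x y : ι → ℝ) (A : ℝ) (g nu : ι) (b : ι → Bool) : ℝ :=
  dp x A b * et x y g nu - Ev x y A g b * x nu

/-- the side of a label with respect to the direction of `nu` -/
noncomputable def Bl (x y : ι → ℝ) (g nu a : ι) : ℝ := x a * et x y g nu - et x y g a * x nu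

/-- `kp` is the label of the window which maximizes `Bl` -/
structure Kap (x y : ι → ℝ) (g nu kp : ι) : Prop where
  wd : Wd x y g nu kp
  mx : ∀ a, Wd x y g nu a → Bl x y g nu a ≤ Bl x y g nu kp
  yn : 0 < y nu

omit [Fintype ι] in
theorem nup_flp {g nu a : ι} (h : a ≠ g) (h' : a ≠ nu) (b : ι → Bool) :
    nup g nu (flp b a) = flp (nup g nu b) a := by
  funext c
  by_cases hc : c = a
  · subst hc
    simp [nup, ng, flp_ne _ h, flp_ne _ h', flp_same]
  · rw [flp_ne _ hc]
    by_cases hcg : c = g <;> by_cases hcn : c = nu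
    all_goals simp [nup, ng, flp, hc, hcg, hcn]
    all_goals aesop

omit [Fintype ι] in
theorem flp_comm' (b : ι → Bool) (a c : ι) : flp (flp b a) c = flp (flp b c) a := by
  funext d
  by_cases h1 : d = a <;> by_cases h2 : d = c
  all_goals simp [flp, h1, h2]
  all_goals aesop

section

variable {x y : ι → ℝ} {A : ℝ} {pos : (ι → Bool) → Prop} {g nu kp : ι}
  {M : (ι → Bool) → (ι → Bool) → Prop} {fU fD : (ι → Bool) → Prop}

theorem Bv_flp_true {b : ι → Bool} {a : ι} (h : b a = true) :
    Bv x y A g nu (flp b a) = Bv x y A g nu b - 2 * Bl x y g nu a := by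
  unfold Bv Bl; rw [dp_flp_true h, Ev_flp_true h]; ring

theorem Bv_flp_false {b : ι → Bool} {a : ι} (h : b a = false) :
    Bv x y A g nu (flp b a) = Bv x y A g nu b + 2 * Bl x y g nu a := by
  unfold Bv Bl; rw [dp_flp_false h, Ev_flp_false h]; ring

theorem Bl_nu : Bl x y g nu nu = 0 := by unfold Bl; ring

theorem Bv_y (b : ι → Bool) :
    Bv x y A g nu b = dp x A b * y nu - val y b * x nu := by
  unfold Bv et Ev; ring

theorem Bl_y (a : ι) : Bl x y g nu a = x a * y nu - y a * x nu := by
  unfold Bl et; ring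

theorem Kap.ne_g (S : Sys x y A pos g nu) (K : Kap x y g nu kp) : kp ≠ g := by
  rintro rfl
  have := K.wd.1
  rw [S.et_g] at this
  exact lt_irrefl _ this

theorem Kap.ne_nu (K : Kap x y g nu kp) : kp ≠ nu := by
  rintro rfl
  have : 0 < Bl x y g kp kp := K.wd.2
  rw [Bl_nu] at this
  exact lt_irrefl _ this

theorem Kap.bp (K : Kap x y g nu kp) : 0 < Bl x y g nu kp := K.wd.2

theorem Kap.eta (S : Sys x y A pos g nu) (K : Kap x y g nu kp) : 0 < et x y g nu := by
  have := S.nu kp (K.ne_g S)
  have := K.wd.1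
  linarith

/-- loops are near the direction of `nu` -/
theorem loop_lt (S : Sys x y A pos g nu) (K : Kap x y g nu kp) {b : ι → Bool}
    (hb : InG x y A g b) (h : FD x y A pos b ∨ FU x y A pos b) :
    Bv x y A g nu b < 2 * Bl x y g nu kp := by
  have hd := dp_pos hb.1.1
  have hE := hb.2
  have hx := S.x0 nu
  have hK := K.bp
  rcases h with h | h
  · obtain ⟨_, a, h2, h3, h4, h5⟩ := FD_elim S h
    have hxa : 0 < x a := by linarith
    have h6 : 0 < et x y g a := by
      have : 0 < et x y g a * dp x A b := lt_trans (mul_pos hxa hE) h4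
      exact pos_of_mul_pos_left this hd.le
    have h7 : Bv x y A g nu b < 2 * Bl x y g nu a := by
      rw [Bv_y, Bl_y]
      have e1 := mul_lt_mul_of_pos_right h3 K.yn
      have e2 := mul_le_mul_of_nonneg_right h5 hx
      linarith
    by_cases hW : 0 < Bl x y g nu a
    · have := K.mx a ⟨h6, hW⟩
      linarith
    · linarith
  · obtain ⟨_, m, h2, h3, h4, h5⟩ := FU_elim S h
    have hxm : 0 < x m := by linarith
    have hyb := FU_pos S h
    have hym : 0 < y m := by linarith
    have h6 : 0 < et x y g m := by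
      unfold et
      have := mul_nonneg S.tau hxm.le
      linarith
    have e1 := mul_le_mul_of_nonneg_right h4.le hx
    by_cases hW : 0 < Bl x y g nu m
    · have h7 := K.mx m ⟨h6, hW⟩
      have e2 : 0 < (2 * x m - dp x A b) * Bl x y g nu m := mul_pos (by linarith) hW
      have e3 : 0 < x m * (2 * Bl x y g nu m - Bv x y A g nu b) := by
        have e4 : x m * (2 * Bl x y g nu m - Bv x y A g nu b) =
            (2 * x m - dp x A b) * Bl x y g nu m +
              (x m * Ev x y A g b * x nu - et x y g m * dp x A b * x nu) := by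
          unfold Bv Bl; ring
        rw [e4]; linarith
      have := pos_of_mul_pos_right e3 hxm.le
      linarith
    · have e3 : x m * Bv x y A g nu b ≤ 0 := by
        have e4 : x m * Bv x y A g nu b = dp x A b * Bl x y g nu m +
            (et x y g m * dp x A b * x nu - x m * Ev x y A g b * x nu) := by
          unfold Bv Bl; ring
        rw [e4]
        have := mul_nonpos_of_nonneg_of_nonpos hd.le (not_lt.1 hW)
        linarith
      have : Bv x y A g nu b ≤ 0 := by
        by_contra hc
        have := mul_pos hxm (not_le.1 hc)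
        linarith
      linarith

theorem src_pos (S : Sys x y A pos g nu) (K : Kap x y g nu kp) {b : ι → Bool}
    (h : FD x y A pos b) : 0 < Bv x y A g nu b := by
  rw [Bv_y]
  have h1 := FD_neg S h
  have h2 := mul_pos (dp_pos h.1) K.yn
  have h3 := mul_nonneg (S.x0 nu) (by linarith : (0 : ℝ) ≤ - val y b)
  linarith

/-- the weight of `kp` is large -/
def Hgl (x y : ι → ℝ) (A : ℝ) (g nu kp : ι) : Prop :=
  0 < Bl x y g nu kp + ((A - x g) * et x y g nu - ta x y g * A * x nu)

/-- type A: the partner has a used loop -/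
structure TA (x y : ι → ℝ) (A : ℝ) (fU fD : (ι → Bool) → Prop) (g nu kp : ι)
    (c : ι → Bool) : Prop where
  G : InG x y A g (nup g nu c)
  B : 0 < Bv x y A g nu (nup g nu c)
  l : fD (nup g nu c) ∨ fU (nup g nu c)
  h : fD (nup g nu c) → fU c ∨ 0 < y kp ∨ Hgl x y A g nu kp

/-- type B: the partner is not in `G` -/
structure TB (x y : ι → ℝ) (A : ℝ) (g nu kp : ι) (c : ι → Bool) : Prop where
  E : Ev x y A g (nup g nu c) ≤ 0
  D : 0 ≤ dp x A (nup g nu c)
  h : Hgl x y A g nu kp
  y : y kp < 0

/-- a node of the chain -/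
structure Nod (x y : ι → ℝ) (A : ℝ) (fU fD : (ι → Bool) → Prop) (g nu kp : ι)
    (c : ι → Bool) : Prop where
  G : InG x y A g c
  n : c nu = true
  k : c kp = false
  B : 0 < Bv x y A g nu c
  z : Bv x y A g nu (nup g nu c) < 2 * Bl x y g nu kp
  t : TA x y A fU fD g nu kp c ∨ TB x y A g nu kp c

/-- the exit vertex -/
def ep (nu kp : ι) (c : ι → Bool) : ι → Bool := flp (flp c kp) nu

theorem Nod.uk {c : ι → Bool} (h : Nod x y A fU fD g nu kp c) : flp c kp kp = true := by
  rw [flp_same, h.k]; rfl

theorem Nod.un (K : Kap x y g nu kp) {c : ι → Bool} (h : Nod x y A fU fD g nu kp c) :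
    flp c kp nu = true := by
  rw [flp_ne _ K.ne_nu.symm, h.n]

theorem Nod.ug (S : Sys x y A pos g nu) (K : Kap x y g nu kp) {c : ι → Bool}
    (h : Nod x y A fU fD g nu kp c) : flp c kp g = true := by
  rw [flp_ne _ (K.ne_g S).symm, h.G.1.2.1]

theorem Nod.uO (S : Sys x y A pos g nu) (K : Kap x y g nu kp) {c : ι → Bool}
    (h : Nod x y A fU fD g nu kp c) : A < val x (flp c kp) := by
  rw [val_flp_false x h.k]
  have := h.G.1.1
  have := S.x0 kp
  linarith

theorem Nod.uE (S : Sys x y A pos g nu) (K : Kap x y g nu kp) {c : ι → Bool}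
    (h : Nod x y A fU fD g nu kp c) : 0 < Ev x y A g (flp c kp) := by
  rw [Ev_flp_false h.k]
  have := h.G.2
  have := K.wd.1
  linarith

theorem Nod.uB (S : Sys x y A pos g nu) (K : Kap x y g nu kp) {c : ι → Bool}
    (h : Nod x y A fU fD g nu kp c) : 2 * Bl x y g nu kp < Bv x y A g nu (flp c kp) := by
  rw [Bv_flp_false h.k]
  have := h.B
  linarith

theorem Nod.zk (S : Sys x y A pos g nu) (K : Kap x y g nu kp) {c : ι → Bool}
    (h : Nod x y A fU fD g nu kp c) : nup g nu c kp = true := by
  rw [nup_ne (K.ne_g S) K.ne_nu, h.k]; rfl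

theorem Nod.wB (S : Sys x y A pos g nu) (K : Kap x y g nu kp) {c : ι → Bool}
    (h : Nod x y A fU fD g nu kp c) : Bv x y A g nu (nup g nu (flp c kp)) < 0 := by
  rw [nup_flp (K.ne_g S) K.ne_nu, Bv_flp_true (h.zk S K)]
  have := h.z
  linarith

/-- arcs with label `nu` end below its direction -/
theorem lk_B (S : Sys x y A pos g nu) (hg : g ≠ nu) {b : ι → Bool} (hb : InG x y A g b)
    (hn : b nu = true)
    (hc : InG x y A g (nup g nu b)) (h : Lk x y A pos b (nup g nu b)) :
    0 < Bv x y A g nu (nup g nu b) := by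
  obtain ⟨j, k, h1⟩ := Lk_elim S h
  obtain ⟨h2, h3, h4⟩ := TG S h1 hb.1 hc
  have hk : k = nu := by
    by_contra hk
    have e1 := nup_ne (g := g) (nu := nu) (a := k) (by rw [← h2]; exact h1.jk.symm) hk b
    rw [h1.ck, h1.bk] at e1
    exact Bool.noConfusion e1
  have h5 := h1.hk
  rw [hk] at h5
  unfold Bv
  linarith

theorem Nod.idl (S : Sys x y A pos g nu) (hg : g ≠ nu) (K : Kap x y g nu kp)
    (hM : Mat x y A pos M fU fD) {c : ι → Bool} (h : Nod x y A fU fD g nu kp c) :
    Idl x y A fU fD g nu M (flp c kp) := by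
  rcases kinds (h.uO S K) (g := g) with h1 | h1 | h1
  · have hG : InG x y A g (flp c kp) := ⟨h1, h.uE S K⟩
    have hB := h.uB S K
    refine idl_of S hg hM hG (h.un K) (fun h2 => ?_) (fun h2 => ?_) (fun h2 h3 => ?_)
    · have := loop_lt S K hG (Or.inl (hM.D h2)); linarith
    · have := loop_lt S K hG (Or.inr (hM.U h2)); linarith
    · have := lk_B S hg hG (h.un K) h2 (hM.lk h3)
      have := h.wB S K
      linarith
  · have := h.ug S K; rw [h1.2] at this; exact Bool.noConfusion this
  · exact h1.idlu S hM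

/-- who else is charged to the flip of a node -/
theorem Nod.unhit (S : Sys x y A pos g nu) (hg : g ≠ nu) (K : Kap x y g nu kp)
    (hM : Mat x y A pos M fU fD) {c : ι → Bool} (h : Nod x y A fU fD g nu kp c)
    {b : ι → Bool} (hf : Ful x y A fU fD g nu M b) (hs : ¬ Sp x y A fU fD g nu M b)
    (he : chg x A g nu b = flp c kp) :
    (b = ep nu kp c ∧ InG x y A g b) ∨ (InF x A g (flp c kp) ∧ b = flp (flp c kp) g) := by
  unfold chg at he
  rcases ful_cases S hg hM hf with h1 | h1
  · rw [if_pos h1.2] at he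
    right
    refine ⟨?_, ?_⟩
    · rw [← he]; exact InP.flp S h1
    · rw [← he, flp_flp]
  · rw [if_neg (by rw [h1.1.2.1]; simp)] at he
    cases h2 : b nu
    · rw [h2, if_pos rfl] at he
      left
      exact ⟨by unfold ep; rw [← he, flp_flp], h1⟩
    · rw [h2, if_neg (by simp)] at he
      exfalso
      have h3 : b = nup g nu (flp c kp) := by rw [← he, nup_nup hg]
      have h4 := h.wB S K
      rw [← h3] at h4
      have h5 := (tow_iC S h1 h2).1 hf.2
      have := src_pos S K (hM.D h5)
      linarith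

end

end C1G
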