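import Pool.Agent.C1G.Kap

/-!
# The exits of a chain
-/

set_option linter.unusedSectionVars false
set_option linter.unusedVariables false

namespace C1G

open Finset C1E

variable {ι : Type} [Fintype ι] [DecidableEq ι]

/-- the standing assumptions -/
structure Cx (x y : ι → ℝ) (A : ℝ) (pos : (ι → Bool) → Prop) (fU fD : (ι → Bool) → Prop)
    (g nu kp : ι) (M : (ι → Bool) → (ι → Bool) → Prop) : Prop where
  S : Sys x y A pos g nu
  hg : g ≠ nu
  K : Kap x y g nu kp
  hM : Mat x y A pos M fU fD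

/-- the exit vertex is full -/
def EF (x y : ι → ℝ) (A : ℝ) (fU fD : (ι → Bool) → Prop) (g nu kp : ι)
    (M : (ι → Bool) → (ι → Bool) → Prop) (c : ι → Bool) : Prop :=
  InG x y A g (ep nu kp c) ∧ Ful x y A fU fD g nu M (ep nu kp c)

/-- exit along an arc out of `ep` -/
def Xi (g nu kp : ι) (M : (ι → Bool) → (ι → Bool) → Prop) (c v : ι → Bool) : Prop :=
  M (ep nu kp c) v ∧ v ≠ nup g nu c

/-- exit along the arc into `ep` -/
def Xo (g nu kp : ι) (M : (ι → Bool) → (ι → Bool) → Prop) (c v : ι → Bool) : Prop :=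
  M v (ep nu kp c) ∧ M (ep nu kp c) (nup g nu c)

/-- what an exit looks like -/
structure Ext (x y : ι → ℝ) (A : ℝ) (g nu kp : ι)
    (v : ι → Bool) : Prop where
  G : InG x y A g v
  n : v nu = true
  k : v kp = false
  h : Ev x y A g v < 2 * et x y g nu
  z : 0 < Ev x y A g (nup g nu v)

section

variable {x y : ι → ℝ} {A : ℝ} {pos : (ι → Bool) → Prop} {g nu kp : ι}
  {M : (ι → Bool) → (ι → Bool) → Prop} {fU fD : (ι → Bool) → Prop}

theorem Nod.en (K : Kap x y g nu kp) {c : ι → Bool} (h : Nod x y A fU fD g nu kp c) :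
    ep nu kp c nu = false := by
  unfold ep; rw [flp_same, h.un K]; rfl

theorem Nod.ek (K : Kap x y g nu kp) {c : ι → Bool} (h : Nod x y A fU fD g nu kp c) :
    ep nu kp c kp = true := by
  unfold ep; rw [flp_ne _ K.ne_nu, h.uk]

theorem Nod.eg (X : Cx x y A pos fU fD g nu kp M) {c : ι → Bool} (h : Nod x y A fU fD g nu kp c) :
    ep nu kp c g = true := by
  unfold ep; rw [flp_ne _ X.hg, h.ug X.S X.K]

theorem Nod.edp (K : Kap x y g nu kp) {c : ι → Bool} (h : Nod x y A fU fD g nu kp c) :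
    dp x A (ep nu kp c) = dp x A c + 2 * x kp - 2 * x nu := by
  unfold ep; rw [dp_flp_true (h.un K), dp_flp_false h.k]

theorem Nod.eEv (K : Kap x y g nu kp) {c : ι → Bool} (h : Nod x y A fU fD g nu kp c) :
    Ev x y A g (ep nu kp c) = Ev x y A g c + 2 * et x y g kp - 2 * et x y g nu := by
  unfold ep; rw [Ev_flp_true (h.un K), Ev_flp_false h.k]

theorem Nod.eB (X : Cx x y A pos fU fD g nu kp M) {c : ι → Bool} (h : Nod x y A fU fD g nu kp c) :
    2 * Bl x y g nu kp < Bv x y A g nu (ep nu kp c) := by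
  unfold ep; rw [Bv_flp_true (h.un X.K), Bl_nu]
  have := h.uB X.S X.K
  linarith

theorem ep_inj {c c' : ι → Bool} (h : ep nu kp c = ep nu kp c') : c = c' := by
  unfold ep at h
  rw [← flp_flp c kp, ← flp_flp (flp c kp) nu, h, flp_flp, flp_flp]

/-- the arcs at a full exit vertex -/
theorem Nod.arcs (X : Cx x y A pos fU fD g nu kp M) {c : ι → Bool} (h : Nod x y A fU fD g nu kp c)
    (he : EF x y A fU fD g nu kp M c) :
    (∃ f, M f (ep nu kp c) ∧ InG x y A g f ∧ f nu = true) ∧
    (∃ f, M (ep nu kp c) f ∧ InG x y A g f ∧ f nu = true) := by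
  obtain ⟨heG, ho, hi⟩ := he
  have hB := h.eB X
  have hn := h.en X.K
  have hl : ¬ (FD x y A pos (ep nu kp c) ∨ FU x y A pos (ep nu kp c)) := fun h1 => by
    have := loop_lt X.S X.K heG h1
    linarith
  rw [not_or] at hl
  constructor
  · rcases hi with h1 | ⟨f, h1, h2 | h2 | h2⟩
    · exact absurd (X.hM.D h1) hl.1
    · exact absurd h2 heG.1.notP
    · exact absurd heG h2.2.2
    · refine ⟨f, h1, h2.1, ?_⟩
      obtain ⟨_, h3⟩ := lk_nup X.S X.hg h2.1.1 heG (X.hM.lk h1)
      rcases h3 with ⟨h3, -, -⟩ | h3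
      · exact h3
      · rw [h3, hn]; rfl
  · rcases ho with h1 | ⟨f, h1, h2⟩
    · exact absurd (X.hM.U h1) hl.2
    · rcases kinds (X.hM.c0 h1) (g := g) with h3 | h3 | h3
      · by_cases h4 : InG x y A g f
        · refine ⟨f, h1, h4, ?_⟩
          cases h5 : f nu
          · exact absurd (Or.inr (Or.inr ⟨heG, h4, h5⟩)) h2
          · rfl
        · exact absurd (Or.inr (Or.inl ⟨heG.1, h3, h4⟩)) h2
      · exact absurd (Or.inl h3) h2
      · exact absurd (X.hM.lk h1) (h3.noLk' X.S)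

/-- the `kp`-neighbour of `ep` -/
theorem kp_nbr (X : Cx x y A pos fU fD g nu kp M) (c : ι → Bool) :
    ng (flp (flp (ep nu kp c) g) kp) = nup g nu c := by
  have h1 := X.K.ne_g X.S
  have h2 := X.K.ne_nu
  have h3 := X.hg
  unfold ep nup
  rw [flp_comm' (flp (flp c kp) nu) g kp, flp_comm' (flp c kp) nu kp, flp_flp, flp_comm' c nu g]

theorem ng_inv {b c : ι → Bool} {j k : ι} (h : c = ng (flp (flp b j) k)) :
    b = ng (flp (flp c j) k) := by
  rw [h, ← ng_flp, ← ng_flp, ng_ng, flp_comm' b j k, flp_flp, flp_flp]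

/-- exits: common part -/
theorem ext_of (X : Cx x y A pos fU fD g nu kp M) {c v : ι → Bool} (h : Nod x y A fU fD g nu kp c)
    (heG : InG x y A g (ep nu kp c)) (hv : InG x y A g v) (hn : v nu = true)
    (hz : v ≠ nup g nu c) {s : ι} (hs : s ≠ g)
    (hvs : v = ng (flp (flp (ep nu kp c) g) s))
    (hE : Ev x y A g v + Ev x y A g (ep nu kp c) = 2 * et x y g s - 2 * (ta x y g * A)) :
    Ext x y A g nu kp v := by
  have hsk : s ≠ kp := by
    rintro rfl
    exact hz (hvs.trans (kp_nbr X c))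
  have h1 := X.S.nu s hs
  have h2 := mul_nonneg X.S.tau X.S.A0.le
  have h3 := heG.2
  have h4 := Ev_nup X.S X.hg hv.1.2.1 hn
  refine ⟨hv, hn, ?_, by linarith, by linarith⟩
  rw [hvs]
  unfold ng
  rw [flp_ne _ hsk.symm, flp_ne _ (X.K.ne_g X.S), h.ek X.K]
  rfl

/-- the partner of an exit outside `G` -/
theorem Ext.zB (X : Cx x y A pos fU fD g nu kp M) {v : ι → Bool} (h : Ext x y A g nu kp v)
    (hz : ¬ InG x y A g (nup g nu v)) : Bv x y A g nu (nup g nu v) ≤ 0 := by
  have h1 : dp x A (nup g nu v) ≤ 0 := by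
    by_contra hc
    push Not at hc
    have h0 : A < val x (nup g nu v) := by unfold dp at hc; linarith
    rcases kinds h0 (g := g) with h2 | h2 | h2
    · exact hz ⟨h2, h.z⟩
    · have := h2.2
      rw [nup_g X.hg, h.G.1.2.1] at this
      exact Bool.noConfusion this
    · have e1 := dp_nup X.S X.hg h.G.1.2.1 h.n
      have e2 := dp_pos h.G.1.1
      have e3 := h2.2.2
      have e4 := X.S.xg nu
      have e5 := X.S.xA
      linarith
  have e1 := X.K.eta X.S
  have e2 := X.S.x0 nu
  have e3 := h.z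
  unfold Bv
  have e4 := mul_nonpos_of_nonpos_of_nonneg h1 e1.le
  have e5 := mul_nonneg e3.le e2
  linarith

theorem Bl_g (S : Sys x y A pos g nu) : Bl x y g nu g = x g * et x y g nu := by
  unfold Bl; rw [S.et_g]; ring

theorem Lnk.sB (nu : ι) {b c : ι → Bool} {j k : ι} (h : Lnk x y A g b c j k) :
    Bv x y A g nu b + Bv x y A g nu c = 2 * (Bl x y g nu j + Bl x y g nu k) -
      2 * (A * et x y g nu - ta x y g * A * x nu) := by
  have h1 := h.sd
  have h2 := h.se
  unfold Bv Bl
  linear_combination (et x y g nu) * h1 - (x nu) * h2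

theorem B_nup (S : Sys x y A pos g nu) (hg : g ≠ nu) {b : ι → Bool} (h1 : b g = true)
    (h2 : b nu = true) : Bv x y A g nu b + Bv x y A g nu (nup g nu b) =
      - 2 * ((A - x g) * et x y g nu - ta x y g * A * x nu) := by
  have h3 := dp_nup S hg h1 h2
  have h4 := Ev_nup S hg h1 h2
  unfold Bv
  linear_combination (et x y g nu) * h3 - (x nu) * h4

theorem Bl_le (K : Kap x y g nu kp) {s : ι} (h : 0 < et x y g s) :
    Bl x y g nu s ≤ Bl x y g nu kp := by
  by_cases hW : 0 < Bl x y g nu s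
  · exact K.mx s ⟨h, hW⟩
  · have := K.bp; linarith

/-- heads with small side -/
theorem dn (X : Cx x y A pos fU fD g nu kp M) {b f : ι → Bool} {j s : ι}
    (h1 : Lnk x y A g b f j s) (hG : InG x y A g f)
    (hB : Bv x y A g nu f < 2 * Bl x y g nu s) :
    0 < Bl x y g nu s ∧ 0 < Bv x y A g nu f := by
  have e1 := h1.hk
  have e2 := h1.dk
  have e3 := dp_pos hG.1.1
  have e4 := hG.2
  have hxs : 0 < x s := by linarith
  have hes : 0 < et x y g s := by
    have : 0 < et x y g s * dp x A f := lt_trans (mul_pos hxs e4) e1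
    exact pos_of_mul_pos_left this e3.le
  have hxn := X.S.x0 nu
  have e5 : (dp x A f - 2 * x s) * et x y g nu - (Ev x y A g f - 2 * et x y g s) * x nu < 0 := by
    unfold Bv Bl at hB
    linarith
  set p := 2 * x s - dp x A f with hp
  set q := 2 * et x y g s - Ev x y A g f with hq
  have hp0 : 0 < p := by linarith
  have f1 : et x y g s * p < x s * q := by rw [hp, hq]; nlinarith
  have f2 : q * x nu < p * et x y g nu := by rw [hp, hq]; nlinarith
  have f3 : et x y g s * p * x nu ≤ x s * q * x nu := mul_le_mul_of_nonneg_right f1.le hxn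
  have f4 : x s * (q * x nu) < x s * (p * et x y g nu) := mul_lt_mul_of_pos_left f2 hxs
  have f5 : 0 < p * Bl x y g nu s := by
    have : p * Bl x y g nu s = x s * (p * et x y g nu) - et x y g s * p * x nu := by
      unfold Bl; ring
    rw [this]; linarith
  have f6 : 0 < Bl x y g nu s := pos_of_mul_pos_right f5 hp0.le
  refine ⟨f6, ?_⟩
  have f7 : 0 < x s * Bv x y A g nu f := by
    have a1 : x s * Bv x y A g nu f = dp x A f * Bl x y g nu s +
        (et x y g s * dp x A f - x s * Ev x y A g f) * x nu := by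
      unfold Bv Bl; ring
    rw [a1]
    have a2 := mul_pos e3 f6
    have a3 := mul_nonneg (by linarith : (0 : ℝ) ≤ et x y g s * dp x A f - x s * Ev x y A g f) hxn
    linarith
  exact pos_of_mul_pos_right f7 hxs.le

/-- the side and the depth of the partner of an exit -/
theorem Ext.zG (X : Cx x y A pos fU fD g nu kp M) {v : ι → Bool} (h : Ext x y A g nu kp v)
    (hB : 0 < Bv x y A g nu (nup g nu v)) : InG x y A g (nup g nu v) := by
  by_contra hc
  have := h.zB X hc
  linarith

/-- exits through an arc from `ep` -/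
theorem out_ext (X : Cx x y A pos fU fD g nu kp M) {c f : ι → Bool}
    (h : Nod x y A fU fD g nu kp c) (heG : InG x y A g (ep nu kp c))
    (hf : M (ep nu kp c) f) (hG : InG x y A g f) (hn : f nu = true) (hz : f ≠ nup g nu c) :
    Ext x y A g nu kp f ∧ 0 < Bv x y A g nu f ∧ 0 < Bv x y A g nu (nup g nu f) := by
  obtain ⟨j, s, h1⟩ := Lk_elim X.S (X.hM.lk hf)
  obtain ⟨h2, h3, h4⟩ := TG X.S h1 heG.1 hG
  subst h2
  have hsg : s ≠ j := h1.jk.symm
  have hb := B_nup X.S X.hg h.G.1.2.1 h.n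
  have hbf := B_nup X.S X.hg hG.1.2.1 hn
  have hbg := Bl_g X.S
  have hes : 0 < et x y j s := by
    have e3 := dp_pos hG.1.1
    have hxs : 0 < x s := by linarith [h1.dk]
    have : 0 < et x y j s * dp x A f := lt_trans (mul_pos hxs hG.2) h1.hk
    exact pos_of_mul_pos_left this e3.le
  have hle := Bl_le X.K hes
  have heB := h.eB X
  have hs := Lnk.sB nu h1
  have hB : Bv x y A j nu (ep nu kp c) = Bv x y A j nu c + 2 * Bl x y j nu kp := by
    unfold ep; rw [Bv_flp_true (h.un X.K), Bl_nu, Bv_flp_false h.k]; ring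
  have hBz := h.z
  refine ⟨ext_of X h heG hG hn hz hsg h1.eq (by linarith), (dn X h1 hG ?_).2, ?_⟩
  · linarith
  · linarith

theorem Xi.ext (X : Cx x y A pos fU fD g nu kp M) {c v : ι → Bool}
    (h : Nod x y A fU fD g nu kp c) (he : EF x y A fU fD g nu kp M c)
    (hx : Xi g nu kp M c v) :
    Ext x y A g nu kp v ∧ 0 < Bv x y A g nu v ∧ 0 < Bv x y A g nu (nup g nu v) := by
  obtain ⟨-, f, hf, hG, hn⟩ := h.arcs X he
  obtain rfl : f = v := X.hM.out hf hx.1
  exact out_ext X h he.1 hf hG hn hx.2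

theorem Xo.ext (X : Cx x y A pos fU fD g nu kp M) {c v : ι → Bool} (h : Nod x y A fU fD g nu kp c)
    (he : EF x y A fU fD g nu kp M c) (hx : Xo g nu kp M c v) :
    Ext x y A g nu kp v ∧ 0 < Bv x y A g nu (nup g nu v) := by
  obtain ⟨⟨f, hf, hG, hn⟩, f', hf', hG', hn'⟩ := h.arcs X he
  obtain rfl : f = v := X.hM.inn hf hx.1
  obtain rfl : f' = nup g nu c := X.hM.out hf' hx.2
  have hz : f ≠ nup g nu c := by
    intro h1
    rcases h.t with h2 | h2
    · rcases h2.l with h3 | h3
      · exact X.hM.fd hx.2 h3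
      · rw [← h1] at h3; exact X.hM.fu hf h3
    · have := hG'.2; linarith [h2.E]
  obtain ⟨j, s, h1⟩ := Lk_elim X.S (X.hM.lk hf)
  obtain ⟨h2, h3, h4⟩ := TG X.S h1 hG.1 he.1
  subst h2
  refine ⟨ext_of X h he.1 hG hn hz h1.jk.symm (ng_inv h1.eq) h4, ?_⟩
  have hbf := B_nup X.S X.hg hG.1.2.1 hn
  have hbg := Bl_g X.S
  have hes : 0 < et x y j s := by
    have e3 := dp_pos he.1.1.1
    have hxs : 0 < x s := by linarith [h1.dk]
    have : 0 < et x y j s * dp x A (ep nu kp c) := lt_trans (mul_pos hxs he.1.2) h1.hk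
    exact pos_of_mul_pos_left this e3.le
  have hle := Bl_le X.K hes
  have heB := h.eB X
  have hs := Lnk.sB nu h1
  have hB : Bv x y A j nu (ep nu kp c) = Bv x y A j nu c + 2 * Bl x y j nu kp := by
    unfold ep; rw [Bv_flp_true (h.un X.K), Bl_nu, Bv_flp_false h.k]; ring
  have hBc := h.B
  linarith

theorem exit_cases (X : Cx x y A pos fU fD g nu kp M) {c : ι → Bool} (h : Nod x y A fU fD g nu kp c)
    (he : EF x y A fU fD g nu kp M c) :
    (∃ v, Xi g nu kp M c v) ∨ ∃ v, Xo g nu kp M c v := by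
  obtain ⟨⟨f, hf, -, -⟩, f', hf', -, -⟩ := h.arcs X he
  by_cases h1 : f' = nup g nu c
  · subst h1
    exact Or.inr ⟨f, hf, hf'⟩
  · exact Or.inl ⟨f', hf', h1⟩

/-- what is charged to a `nu`-toward vertex of small height -/
theorem tw_unhit (X : Cx x y A pos fU fD g nu kp M) {p : ι → Bool} (hG : InG x y A g p)
    (hn : p nu = true) (hE : Ev x y A g p ≤ 2 * et x y g nu) {b : ι → Bool}
    (hf : Ful x y A fU fD g nu M b) (he : chg x A g nu b = p) :
    b = nup g nu p ∧ InG x y A g (nup g nu p) ∧ fD (nup g nu p) ∧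
      M (nup g nu p) p := by
  unfold chg at he
  rcases ful_cases X.S X.hg X.hM hf with h1 | h1
  · rw [if_pos h1.2] at he
    have h2 := InP.flp X.S h1
    rw [he] at h2
    exact (hG.1.notF h2).elim
  · rw [if_neg (by rw [h1.1.2.1]; simp)] at he
    cases h2 : b nu
    · rw [h2, if_pos rfl] at he
      have h3 := (away X.S X.hg h1 h2).2.2.2
      rw [he] at h3
      linarith
    · rw [h2, if_neg (by simp)] at he
      have h3 : b = nup g nu p := by rw [← he, nup_nup X.hg]
      have h5 := (tow_iC X.S h1 h2).1 hf.2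
      have h6 := (tow_oC X.S X.hg X.hM h1 h2).1 hf.1
      rw [he] at h6
      subst h3
      rcases h6 with h6 | h6
      · exact (not_FD_FU X.S (X.hM.D h5) (X.hM.U h6)).elim
      · exact ⟨rfl, h1, h5, h6.2⟩


end

end C1G
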