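import Pool.Agent.C1E.Cov
import Pool.Agent.C1E.Win

/-!
# Matchings of the digraph of the outer vertices and their charges
-/

set_option linter.unusedSectionVars false
set_option linter.unusedVariables false

namespace C1G

open Finset C1E

variable {ι : Type} [Fintype ι] [DecidableEq ι]

/-- a matching: each vertex has at most one arc out and at most one arc in; `fU` and `fD` are the
vertices with a used loop, of the role up or of the role down -/
structure Mat (x y : ι → ℝ) (A : ℝ) (pos : (ι → Bool) → Prop)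
    (M : (ι → Bool) → (ι → Bool) → Prop) (fU fD : (ι → Bool) → Prop) : Prop where
  lk : ∀ {b c}, M b c → Lk x y A pos b c
  fu : ∀ {b c}, M b c → ¬ fU b
  fd : ∀ {b c}, M b c → ¬ fD c
  out : ∀ {b c c'}, M b c → M b c' → c = c'
  inn : ∀ {b b' c}, M b c → M b' c → b = b'
  U : ∀ {b}, fU b → FU x y A pos b
  D : ∀ {b}, fD b → FD x y A pos b

section

variable {x y : ι → ℝ} {A : ℝ} {pos : (ι → Bool) → Prop} {g nu : ι}
  {M : (ι → Bool) → (ι → Bool) → Prop} {fU fD : (ι → Bool) → Prop}

/-- the arc is charged to its head -/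
def Hd1 (x y : ι → ℝ) (A : ℝ) (g nu : ι) (b c : ι → Bool) : Prop :=
  InP x A g c ∨ (InT x A g b ∧ InT x A g c ∧ ¬ InG x y A g c) ∨
    (InG x y A g b ∧ InG x y A g c ∧ c nu = false)

/-- the out-role is charged -/
def oC (x y : ι → ℝ) (A : ℝ) (fU : (ι → Bool) → Prop) (g nu : ι)
    (M : (ι → Bool) → (ι → Bool) → Prop) (b : ι → Bool) : Prop :=
  fU b ∨ ∃ c, M b c ∧ ¬ Hd1 x y A g nu b c

/-- the in-role is charged -/
def iC (x y : ι → ℝ) (A : ℝ) (fD : (ι → Bool) → Prop) (g nu : ι)
    (M : (ι → Bool) → (ι → Bool) → Prop) (b : ι → Bool) : Prop :=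
  fD b ∨ ∃ c, M c b ∧ Hd1 x y A g nu c b

/-- an outer vertex without charges -/
def Idl (x y : ι → ℝ) (A : ℝ) (fU fD : (ι → Bool) → Prop) (g nu : ι)
    (M : (ι → Bool) → (ι → Bool) → Prop) (b : ι → Bool) : Prop :=
  A < val x b ∧ ¬ oC x y A fU g nu M b ∧ ¬ iC x y A fD g nu M b

/-- two charges -/
def Ful (x y : ι → ℝ) (A : ℝ) (fU fD : (ι → Bool) → Prop) (g nu : ι)
    (M : (ι → Bool) → (ι → Bool) → Prop) (b : ι → Bool) : Prop :=
  oC x y A fU g nu M b ∧ iC x y A fD g nu M b

/-- the source of a special pair -/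
def Sp (x y : ι → ℝ) (A : ℝ) (fU fD : (ι → Bool) → Prop) (g nu : ι)
    (M : (ι → Bool) → (ι → Bool) → Prop) (b : ι → Bool) : Prop :=
  InG x y A g b ∧ b nu = true ∧ fD b ∧ InG x y A g (nup g nu b) ∧
    M b (nup g nu b) ∧ fU (nup g nu b)

theorem Mat.c0 (hM : Mat x y A pos M fU fD) {b c : ι → Bool} (h : M b c) : A < val x c := (hM.lk h).2.1

theorem Mat.b0 (hM : Mat x y A pos M fU fD) {b c : ι → Bool} (h : M b c) : A < val x b := (hM.lk h).1

theorem _root_.C1E.InF.oCu (S : Sys x y A pos g nu) (hM : Mat x y A pos M fU fD) {b : ι → Bool}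
    (h : InF x A g b) : ¬ oC x y A fU g nu M b := by
  rintro (h1 | ⟨c, h1, _⟩)
  · exact h.noFU S (hM.U h1)
  · exact h.noLk S (hM.lk h1)

theorem _root_.C1E.InF.iCu (S : Sys x y A pos g nu) (hM : Mat x y A pos M fU fD) {b : ι → Bool}
    (h : InF x A g b) : ¬ iC x y A fD g nu M b := by
  rintro (h1 | ⟨c, h1, _⟩)
  · exact h.noFD S (hM.D h1)
  · exact h.noLk' S (hM.lk h1)

theorem _root_.C1E.InF.idlu (S : Sys x y A pos g nu) (hM : Mat x y A pos M fU fD) {b : ι → Bool}
    (h : InF x A g b) : Idl x y A fU fD g nu M b := ⟨h.1, h.oCu S hM, h.iCu S hM⟩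

/-- out-roles are not charged below `G` -/
theorem notG_oC (S : Sys x y A pos g nu) (hg : g ≠ nu) (hM : Mat x y A pos M fU fD) {b : ι → Bool}
    (h : InT x A g b) (h' : ¬ InG x y A g b) : ¬ oC x y A fU g nu M b := by
  rintro (h1 | ⟨c, h1, h2⟩)
  · exact notG_noFU S h h' (hM.U h1)
  · refine h2 ?_
    rcases kinds (hM.c0 h1) (g := g) with h3 | h3 | h3
    · by_cases h4 : InG x y A g c
      · exact absurd (lk_nup S hg h h4 (hM.lk h1)).1 h'
      · exact Or.inr (Or.inl ⟨h, h3, h4⟩)
    · exact Or.inl h3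
    · exact absurd (hM.lk h1) (h3.noLk' S)

/-- a `nu`-toward vertex of `G` -/
theorem tow_iC (S : Sys x y A pos g nu) {b : ι → Bool} (h : InG x y A g b) (h2 : b nu = true) :
    iC x y A fD g nu M b ↔ fD b := by
  constructor
  · rintro (h1 | ⟨c, h1, h3 | h3 | h3⟩)
    · exact h1
    · exact absurd h3 h.1.notP
    · exact absurd h h3.2.2
    · rw [h2] at h3; exact Bool.noConfusion h3.2.2
  · exact fun h1 => Or.inl h1

theorem tow_oC (S : Sys x y A pos g nu) (hg : g ≠ nu) (hM : Mat x y A pos M fU fD) {b : ι → Bool}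
    (h : InG x y A g b) (h2 : b nu = true) :
    oC x y A fU g nu M b ↔ fU b ∨ (InG x y A g (nup g nu b) ∧ M b (nup g nu b)) := by
  constructor
  · rintro (h1 | ⟨c, h1, h3⟩)
    · exact Or.inl h1
    · right
      rcases kinds (hM.c0 h1) (g := g) with h4 | h4 | h4
      · by_cases h5 : InG x y A g c
        · obtain ⟨_, h6⟩ := lk_nup S hg h.1 h5 (hM.lk h1)
          rcases h6 with ⟨_, h6, h7⟩ | h6
          · rw [← h7]; exact ⟨h5, h1⟩
          · refine absurd (Or.inr (Or.inr ⟨h, h5, ?_⟩)) h3
            rw [h2] at h6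
            cases hc : c nu
            · rfl
            · rw [hc] at h6; exact Bool.noConfusion h6
        · exact absurd (Or.inr (Or.inl ⟨h.1, h4, h5⟩)) h3
      · exact absurd (Or.inl h4) h3
      · exact absurd (hM.lk h1) (h4.noLk' S)
  · rintro (h1 | ⟨h1, h3⟩)
    · exact Or.inl h1
    · refine Or.inr ⟨_, h3, ?_⟩
      rintro (h4 | h4 | h4)
      · exact h1.1.notP h4
      · exact h4.2.2 h1
      · rw [nup_nu hg, h2] at h4; exact Bool.noConfusion h4.2.2

/-- a vertex of `G` without loops, arcs inside `G` is idle -/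
theorem idl_of (S : Sys x y A pos g nu) (hg : g ≠ nu) (hM : Mat x y A pos M fU fD) {b : ι → Bool}
    (h : InG x y A g b) (h2 : b nu = true) (h3 : ¬ fD b) (h4 : ¬ fU b)
    (h5 : InG x y A g (nup g nu b) → ¬ M b (nup g nu b)) : Idl x y A fU fD g nu M b := by
  refine ⟨h.1.1, ?_, ?_⟩
  · rw [tow_oC S hg hM h h2]
    rintro (h6 | ⟨h6, h7⟩)
    · exact h4 h6
    · exact h5 h6 h7
  · rw [tow_iC S h h2]; exact h3

theorem aw_idl (S : Sys x y A pos g nu) (hg : g ≠ nu) (hM : Mat x y A pos M fU fD)
    (h0 : 0 < et x y g nu) {b : ι → Bool} (h : InG x y A g b)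
    (h2 : b nu = false) : Idl x y A fU fD g nu M (flp b nu) := by
  obtain ⟨h3, h4, h5, h6⟩ := away S hg h h2
  have h7 : 0 < Ev x y A g (flp b nu) := by linarith
  rcases kinds h3 (g := g) with h8 | h8 | h8
  · have hG : InG x y A g (flp b nu) := ⟨h8, h7⟩
    refine idl_of S hg hM hG h5 (fun h9 => ?_) (fun h9 => ?_) (fun h9 => ?_)
    · have := FD_lt S (hM.D h9) h7; linarith
    · have := FU_le S (hM.U h9); linarith
    · have h10 := Ev_nup S hg h8.2.1 h5
      have h11 := h9.2
      have h12 := mul_nonneg S.tau S.A0.le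
      linarith
  · rw [h8.2] at h4; exact Bool.noConfusion h4
  · exact h8.idlu S hM

theorem aw_P (S : Sys x y A pos g nu) (hg : g ≠ nu) (hM : Mat x y A pos M fU fD)
    (h0 : 0 < et x y g nu) {b p : ι → Bool} (h : InG x y A g b)
    (h2 : b nu = false) (hp : InP x A g p) (he : flp p g = flp b nu) :
    ¬ iC x y A fD g nu M p := by
  obtain ⟨h3, h4, h5, h6⟩ := away S hg h h2
  have hE : Ev x y A g p = Ev x y A g (flp b nu) := by
    rw [← he, Ev_flp_false hp.2, S.et_g]; ring
  rintro (h7 | ⟨z, h7, _⟩)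
  · have := FD_lt S (hM.D h7) (by rw [hE]; linarith)
    linarith
  · obtain ⟨j, k, h8⟩ := Lk_elim S (hM.lk h7)
    have := h8.lt S (by rw [hE]; linarith)
    linarith

theorem ful_cases (S : Sys x y A pos g nu) (hg : g ≠ nu) (hM : Mat x y A pos M fU fD) {b : ι → Bool}
    (hf : Ful x y A fU fD g nu M b) : InP x A g b ∨ InG x y A g b := by
  have h0 : A < val x b := by
    rcases hf.1 with h | ⟨c, h, _⟩
    · exact (hM.U h).1
    · exact hM.b0 h
  rcases kinds h0 (g := g) with h | h | h
  · by_cases h' : InG x y A g b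
    · exact Or.inr h'
    · exact absurd hf.1 (notG_oC S hg hM h h')
  · exact Or.inl h
  · exact absurd hf.1 (h.oCu S hM)

/-- a vertex of `G` with a charge -/
theorem ch_pos (S : Sys x y A pos g nu) (hM : Mat x y A pos M fU fD) {b : ι → Bool}
    (h : InG x y A g b) (hf : Ful x y A fU fD g nu M b) : 0 < et x y g nu := by
  rcases hf.2 with h1 | ⟨c, h1, _⟩
  · have := FD_lt S (hM.D h1) h.2
    have := h.2
    linarith
  · obtain ⟨j, k, h3⟩ := Lk_elim S (hM.lk h1)
    have := h3.lt S h.2
    have := h.2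
    linarith

theorem ful_tow (S : Sys x y A pos g nu) (hg : g ≠ nu) (hM : Mat x y A pos M fU fD) {b : ι → Bool}
    (h : InG x y A g b) (h2 : b nu = true) (hf : Ful x y A fU fD g nu M b)
    (hs : ¬ Sp x y A fU fD g nu M b) :
    InG x y A g (nup g nu b) ∧ Idl x y A fU fD g nu M (nup g nu b) := by
  obtain ⟨ho, hi⟩ := hf
  rw [tow_iC S h h2] at hi
  rw [tow_oC S hg hM h h2] at ho
  rcases ho with ho | ⟨h3, h4⟩
  · exact (not_FD_FU S (hM.D hi) (hM.U ho)).elim
  · refine ⟨h3, idl_of S hg hM h3 (by rw [nup_nu hg]; exact h2) (hM.fd h4)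
      (fun h5 => hs ⟨h, h2, hi, h3, h4, h5⟩) (fun _ h6 => ?_)⟩
    rw [nup_nup hg] at h6
    exact hM.fd h6 hi

theorem chg_idl (S : Sys x y A pos g nu) (hg : g ≠ nu) (hM : Mat x y A pos M fU fD) {b : ι → Bool}
    (hf : Ful x y A fU fD g nu M b) (hs : ¬ Sp x y A fU fD g nu M b) :
    Idl x y A fU fD g nu M (chg x A g nu b) := by
  unfold chg
  rcases ful_cases S hg hM hf with h | h
  · rw [if_pos h.2]; exact (InP.flp S h).idlu S hM
  · rw [if_neg (by rw [h.1.2.1]; simp)]
    cases h2 : b nu
    · rw [if_pos rfl]; exact aw_idl S hg hM (ch_pos S hM h hf) h h2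
    · rw [if_neg (by simp)]; exact (ful_tow S hg hM h h2 hf hs).2

theorem chg_inj' (S : Sys x y A pos g nu) (hg : g ≠ nu) (hM : Mat x y A pos M fU fD)
    {b b' : ι → Bool}
    (hf : Ful x y A fU fD g nu M b) (hs : ¬ Sp x y A fU fD g nu M b)
    (hf' : Ful x y A fU fD g nu M b') (hs' : ¬ Sp x y A fU fD g nu M b')
    (he : chg x A g nu b = chg x A g nu b') : b = b' := by
  have m1 : ∀ {b b' : ι → Bool}, Ful x y A fU fD g nu M b → Ful x y A fU fD g nu M b' →
      InP x A g b → InG x y A g b' →
      b' nu = false → flp b g = flp b' nu → False := fun {b b'} hf hf' hp hG h2 he =>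
    aw_P S hg hM (ch_pos S hM hG hf') hG h2 hp he hf.2
  have m2 : ∀ {b b' : ι → Bool}, InP x A g b → InG x y A g (nup g nu b') →
      flp b g = nup g nu b' → False := fun {b b'} hp hG he => by
    have := InP.flp S hp
    rw [he] at this
    exact hG.1.notF this
  have m3 : ∀ {b b' : ι → Bool}, InG x y A g b → b nu = false → InG x y A g b' → b' nu = true →
      flp b nu = nup g nu b' → False := fun {b b'} h h2 h' h2' he => by
    have h3 := (away S hg h h2).2.2.2
    rw [he] at h3
    have := nup_lt S hg h' h2'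
    linarith
  unfold chg at he
  rcases ful_cases S hg hM hf with h | h <;> rcases ful_cases S hg hM hf' with h' | h'
  · rw [if_pos h.2, if_pos h'.2] at he
    rw [← flp_flp b g, he, flp_flp]
  · rw [if_pos h.2, if_neg (by rw [h'.1.2.1]; simp)] at he
    cases h2 : b' nu
    · rw [h2, if_pos rfl] at he
      exact (m1 hf hf' h h' h2 he).elim
    · rw [h2, if_neg (by simp)] at he
      exact (m2 h (ful_tow S hg hM h' h2 hf' hs').1 he).elim
  · rw [if_pos h'.2, if_neg (by rw [h.1.2.1]; simp)] at he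
    cases h2 : b nu
    · rw [h2, if_pos rfl] at he
      exact (m1 hf' hf h' h h2 he.symm).elim
    · rw [h2, if_neg (by simp)] at he
      exact (m2 h' (ful_tow S hg hM h h2 hf hs).1 he.symm).elim
  · rw [if_neg (show ¬ (b g = false) by rw [h.1.2.1]; simp),
      if_neg (show ¬ (b' g = false) by rw [h'.1.2.1]; simp)] at he
    cases h2 : b nu <;> cases h2' : b' nu
    · rw [h2, h2', if_pos rfl, if_pos rfl] at he
      rw [← flp_flp b nu, he, flp_flp]
    · rw [h2, h2', if_pos rfl, if_neg (by simp)] at he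
      exact (m3 h h2 h' h2' he).elim
    · rw [h2, h2', if_pos rfl, if_neg (by simp)] at he
      exact (m3 h' h2' h h2 he.symm).elim
    · rw [h2, h2', if_neg (by simp), if_neg (by simp)] at he
      rw [← nup_nup hg b, he, nup_nup hg]

/-- the number of arcs and loops is at most the number of outer vertices if the special pairs can be
sent injectively to idle vertices which are not used otherwise -/
theorem mat_card [DecidablePred fun b => ∃ c, M b c] [DecidablePred (fU)]
    [DecidablePred (fD)] (S : Sys x y A pos g nu) (hg : g ≠ nu)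
    (hM : Mat x y A pos M fU fD) (pay : (ι → Bool) → (ι → Bool))
    (hp : ∀ b, Sp x y A fU fD g nu M b → Idl x y A fU fD g nu M (pay b) ∧
      ∀ b', Ful x y A fU fD g nu M b' → ¬ Sp x y A fU fD g nu M b' → chg x A g nu b' ≠ pay b)
    (hi : ∀ b b', Sp x y A fU fD g nu M b → Sp x y A fU fD g nu M b' → pay b = pay b' → b = b') :
    (univ.filter fun b => ∃ c, M b c).card + (univ.filter (fU)).card +
      (univ.filter (fD)).card ≤ (univ.filter fun s => A < val x s).card := by
  classical
  set O : Finset (ι → Bool) := univ.filter fun s => A < val x s with hO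
  set FUs : Finset (ι → Bool) := univ.filter (fU) with hFUs
  set FDs : Finset (ι → Bool) := univ.filter (fD) with hFDs
  set Ms : Finset (ι → Bool) := univ.filter fun b => ∃ c, M b c with hMs
  set cC : Finset (ι → Bool) := univ.filter (oC x y A fU g nu M) with hC
  set cD : Finset (ι → Bool) := univ.filter (iC x y A fD g nu M) with hD
  -- the charges
  have hcount : Ms.card + FUs.card + FDs.card ≤ cC.card + cD.card := by
    set M1 : Finset (ι → Bool) := univ.filter fun b => ∃ c, M b c ∧ ¬ Hd1 x y A g nu b c with hM1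
    set M2 : Finset (ι → Bool) := univ.filter fun b => ∃ c, M b c ∧ Hd1 x y A g nu b c with hM2
    set M3 : Finset (ι → Bool) := univ.filter fun c => ∃ b, M b c ∧ Hd1 x y A g nu b c with hM3
    have h1 : Ms.card ≤ M1.card + M2.card := by
      refine (card_le_card (fun b hb => ?_)).trans (card_union_le M1 M2)
      obtain ⟨c, hc⟩ := (mem_filter.1 hb).2
      by_cases hH : Hd1 x y A g nu b c
      · exact mem_union_right _ (mem_filter.2 ⟨mem_univ _, c, hc, hH⟩)
      · exact mem_union_left _ (mem_filter.2 ⟨mem_univ _, c, hc, hH⟩)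
    have h2 : M2.card ≤ M3.card := by
      have hex : ∀ b ∈ M2, ∃ c, M b c ∧ Hd1 x y A g nu b c := fun b hb => (mem_filter.1 hb).2
      choose! f hf using hex
      refine card_le_card_of_injOn f (fun b hb => ?_) (fun b hb b' hb' he => ?_)
      · have := hf b (mem_coe.1 hb)
        exact mem_coe.2 (mem_filter.2 ⟨mem_univ _, b, this⟩)
      · have e1 := (hf b (mem_coe.1 hb)).1
        have e2 := (hf b' (mem_coe.1 hb')).1
        rw [he] at e1
        exact hM.inn e1 e2
    have h3 : M1.card + FUs.card ≤ cC.card := by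
      rw [← card_union_of_disjoint]
      · refine card_le_card (fun b hb => ?_)
        rcases mem_union.1 hb with hb | hb
        · exact mem_filter.2 ⟨mem_univ _, Or.inr (mem_filter.1 hb).2⟩
        · exact mem_filter.2 ⟨mem_univ _, Or.inl (mem_filter.1 hb).2⟩
      · rw [disjoint_left]
        intro b hb hb'
        obtain ⟨c, hc, _⟩ := (mem_filter.1 hb).2
        exact hM.fu hc (mem_filter.1 hb').2
    have h4 : M3.card + FDs.card ≤ cD.card := by
      rw [← card_union_of_disjoint]
      · refine card_le_card (fun b hb => ?_)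
        rcases mem_union.1 hb with hb | hb
        · exact mem_filter.2 ⟨mem_univ _, Or.inr (mem_filter.1 hb).2⟩
        · exact mem_filter.2 ⟨mem_univ _, Or.inl (mem_filter.1 hb).2⟩
      · rw [disjoint_left]
        intro b hb hb'
        obtain ⟨c, hc, _⟩ := (mem_filter.1 hb).2
        exact hM.fd hc (mem_filter.1 hb').2
    omega
  refine hcount.trans ?_
  -- full vertices
  set I : Finset (ι → Bool) := univ.filter (Idl x y A fU fD g nu M) with hI
  set ch : (ι → Bool) → (ι → Bool) := fun b => if Sp x y A fU fD g nu M b then pay b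
    else chg x A g nu b with hch
  have h2 : (cC ∩ cD).card ≤ I.card := by
    refine card_le_card_of_injOn ch (fun b hb => ?_) (fun b hb b' hb' he => ?_)
    · have hf : Ful x y A fU fD g nu M b := by
        have := mem_inter.1 (mem_coe.1 hb)
        exact ⟨(mem_filter.1 this.1).2, (mem_filter.1 this.2).2⟩
      refine mem_coe.2 (mem_filter.2 ⟨mem_univ _, ?_⟩)
      by_cases hs : Sp x y A fU fD g nu M b
      · simp only [hch, if_pos hs]; exact (hp b hs).1
      · simp only [hch, if_neg hs]; exact chg_idl S hg hM hf hs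
    · have hf : Ful x y A fU fD g nu M b := by
        have := mem_inter.1 (mem_coe.1 hb)
        exact ⟨(mem_filter.1 this.1).2, (mem_filter.1 this.2).2⟩
      have hf' : Ful x y A fU fD g nu M b' := by
        have := mem_inter.1 (mem_coe.1 hb')
        exact ⟨(mem_filter.1 this.1).2, (mem_filter.1 this.2).2⟩
      by_cases hs : Sp x y A fU fD g nu M b <;> by_cases hs' : Sp x y A fU fD g nu M b'
      · simp only [hch, if_pos hs, if_pos hs'] at he; exact hi b b' hs hs' he
      · simp only [hch, if_pos hs, if_neg hs'] at he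
        exact absurd he.symm ((hp b hs).2 b' hf' hs')
      · simp only [hch, if_neg hs, if_pos hs'] at he
        exact absurd he ((hp b' hs').2 b hf hs)
      · simp only [hch, if_neg hs, if_neg hs'] at he
        exact chg_inj' S hg hM hf hs hf' hs' he
  have h3 : Disjoint (cC ∪ cD) I := by
    rw [disjoint_left]
    intro b hb hb'
    have hb' := (mem_filter.1 hb').2
    rcases mem_union.1 hb with h | h
    · exact hb'.2.1 (mem_filter.1 h).2
    · exact hb'.2.2 (mem_filter.1 h).2
  have h4 : (cC ∪ cD) ∪ I ⊆ O := by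
    intro b hb
    refine mem_filter.2 ⟨mem_univ _, ?_⟩
    rcases mem_union.1 hb with h | h
    · rcases mem_union.1 h with h | h
      · rcases (mem_filter.1 h).2 with h | ⟨c, h, _⟩
        · exact (hM.U h).1
        · exact hM.b0 h
      · rcases (mem_filter.1 h).2 with h | ⟨c, h, _⟩
        · exact (hM.D h).1
        · exact hM.c0 h
    · exact (mem_filter.1 h).2.1
  have h5 := card_le_card h4
  rw [card_union_of_disjoint h3] at h5
  have h6 := card_union_add_card_inter cC cD
  omega

end

end C1G
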