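import Pool.Agent.C1G.Ex

/-!
# Payees
-/

set_option linter.unusedSectionVars false
set_option linter.unusedVariables false

namespace C1G

open Finset C1E

variable {ι : Type} [Fintype ι] [DecidableEq ι]

/-- the vertex is hit by its partner -/
def Hh (x y : ι → ℝ) (A : ℝ) (fD : (ι → Bool) → Prop) (g nu : ι)
    (M : (ι → Bool) → (ι → Bool) → Prop) (v : ι → Bool) : Prop :=
  InG x y A g (nup g nu v) ∧ fD (nup g nu v) ∧ M (nup g nu v) v

/-- the partner is idle -/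
def Zi (x y : ι → ℝ) (A : ℝ) (fU fD : (ι → Bool) → Prop) (g nu : ι)
    (M : (ι → Bool) → (ι → Bool) → Prop) (v : ι → Bool) : Prop :=
  InG x y A g (nup g nu v) ∧ Idl x y A fU fD g nu M (nup g nu v)

/-- payee and not hit -/
def Gd (x y : ι → ℝ) (A : ℝ) (fU fD : (ι → Bool) → Prop) (g nu : ι)
    (M : (ι → Bool) → (ι → Bool) → Prop) (p : ι → Bool) : Prop :=
  Idl x y A fU fD g nu M p ∧ ∀ b, Ful x y A fU fD g nu M b → ¬ Sp x y A fU fD g nu M b →
    chg x A g nu b ≠ p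

/-- an in-visited vertex which can pay -/
def Oi (x y : ι → ℝ) (A : ℝ) (fU fD : (ι → Bool) → Prop) (g nu : ι)
    (M : (ι → Bool) → (ι → Bool) → Prop) (v : ι → Bool) : Prop :=
  Idl x y A fU fD g nu M v ∧ ¬ ∃ w, M v w

/-- an out-visited vertex which can pay -/
def Oo (x y : ι → ℝ) (A : ℝ) (fU fD : (ι → Bool) → Prop) (g nu : ι)
    (M : (ι → Bool) → (ι → Bool) → Prop) (v : ι → Bool) : Prop :=
  Idl x y A fU fD g nu M v ∧ ¬ Hh x y A fD g nu M v

/-- the next node -/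
def Nx (x y : ι → ℝ) (A : ℝ) (fU fD : (ι → Bool) → Prop) (g nu kp : ι)
    (M : (ι → Bool) → (ι → Bool) → Prop) (LU LD : (ι → Bool) → ι → Prop)
    (c v : ι → Bool) : Prop :=
  ¬ Zi x y A fU fD g nu M v ∧
    ((IV x y A fU fD g nu kp M LU LD c v ∧ ¬ Oi x y A fU fD g nu M v) ∨
     (OV x y A fU fD g nu kp M LU LD c v ∧ ¬ Oo x y A fU fD g nu M v))

/-- payees -/
inductive Py (x y : ι → ℝ) (A : ℝ) (fU fD : (ι → Bool) → Prop) (g nu kp : ι)
    (M : (ι → Bool) → (ι → Bool) → Prop) (LU LD : (ι → Bool) → ι → Prop)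
    (c p : ι → Bool) : Prop
  | u (hn : NL x y A g nu kp LU LD c) (he : ¬ EF x y A fU fD g nu kp M c)
      (hb : ¬ FB x y A fU fD g nu kp M c) (hp : p = flp c kp)
  | m (l : ι) (hl : LT x y A g nu kp LU LD c l)
      (hf : ¬ Ful x y A fU fD g nu M (pl g kp l c)) (hp : p = ul kp l c)
  | t (q : ι → Bool) (ha : AO x y A fU fD g nu kp M LU LD c q) (hM : M q p)
      (hT : InT x A g p) (hG : ¬ InG x y A g p)
  | c (q : ι → Bool) (ha : AO x y A fU fD g nu kp M LU LD c q) (hM : M q p)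
      (hG : InG x y A g p) (hn : p nu = false) (hi : Idl x y A fU fD g nu M p)
  | d (q v : ι → Bool) (ha : AO x y A fU fD g nu kp M LU LD c q) (hM : M q v)
      (hG : InG x y A g v) (hn : v nu = false) (hi : ¬ Idl x y A fU fD g nu M v)
      (hc : ∀ c', Nod x y A fU fD g nu kp c' → v ≠ ep nu kp c') (hp : p = flp v nu)
  | b (q v : ι → Bool) (ha : AI x y A fU fD g nu kp M LU LD c q) (hM : M v q)
      (hG : InG x y A g v) (hn : v nu = false) (hp : p = flp v nu)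
  | iv (hv : IV x y A fU fD g nu kp M LU LD c p) (hi : Oi x y A fU fD g nu M p)
  | ov (hv : OV x y A fU fD g nu kp M LU LD c p) (hi : Oo x y A fU fD g nu M p)
  | iz (v : ι → Bool) (hv : IV x y A fU fD g nu kp M LU LD c v)
      (hi : ¬ Oi x y A fU fD g nu M v) (hz : Zi x y A fU fD g nu M v) (hp : p = nup g nu v)
  | oz (v : ι → Bool) (hv : OV x y A fU fD g nu kp M LU LD c v)
      (hi : ¬ Oo x y A fU fD g nu M v) (hz : Zi x y A fU fD g nu M v) (hp : p = nup g nu v)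

/-- a special pair, at its `kp`-closed member -/
def St (x y : ι → ℝ) (A : ℝ) (fU fD : (ι → Bool) → Prop) (g nu kp : ι)
    (M : (ι → Bool) → (ι → Bool) → Prop) (c : ι → Bool) : Prop :=
  c kp = false ∧ (Sp x y A fU fD g nu M c ∨ Sp x y A fU fD g nu M (nup g nu c))

section

variable {x y : ι → ℝ} {A : ℝ} {pos : (ι → Bool) → Prop} {g nu kp : ι}
  {M : (ι → Bool) → (ι → Bool) → Prop} {fU fD : (ι → Bool) → Prop}
  {LU LD : (ι → Bool) → ι → Prop}

/-- both visits -/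
theorem both (X : Cx x y A pos fU fD g nu kp M) {v w w' : ι → Bool}
    (hG : InG x y A g v) (hn : v nu = true) (h1 : M w v) (h2 : w ≠ nup g nu v)
    (h3 : M v w') (h4 : w' ≠ nup g nu v) : Oo x y A fU fD g nu M v :=
  ⟨idl_of X.S X.hg X.hM hG hn (X.hM.fd h1) (X.hM.fu h3) fun _ h5 => h4 (X.hM.out h3 h5),
    fun h5 => h2 (X.hM.inn h1 h5.2.2)⟩

/-- an out-visited vertex which cannot pay -/
theorem nn (X : Cx x y A pos fU fD g nu kp M) {v w' : ι → Bool}
    (hG : InG x y A g v) (hn : v nu = true)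
    (h3 : M v w') (h4 : w' ≠ nup g nu v) (hi : ¬ Oo x y A fU fD g nu M v) :
    (fD v ∨ Hh x y A fD g nu M v) ∧ 0 < Bv x y A g nu v := by
  have h5 : fD v ∨ Hh x y A fD g nu M v := by
    by_contra hc
    rw [not_or] at hc
    exact hi ⟨idl_of X.S X.hg X.hM hG hn hc.1 (X.hM.fu h3) fun _ h5 =>
      h4 (X.hM.out h3 h5), hc.2⟩
  refine ⟨h5, ?_⟩
  rcases h5 with h1 | ⟨h1, h2, h6⟩
  · exact src_pos X.S X.K (X.hM.D h1)
  · have h7 := lk_B X.S X.hg h1 (by rw [nup_nu X.hg]; exact hn)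
      (by rw [nup_nup X.hg]; exact hG) (by rw [nup_nup X.hg]; exact X.hM.lk h6)
    rwa [nup_nup X.hg] at h7

/-- a visited vertex with a positive side and without idle partner is a node -/
theorem Vis.nod (X : Cx x y A pos fU fD g nu kp M) {v : ι → Bool}
    (h : Vis x y A g nu kp v) (hB : 0 < Bv x y A g nu v)
    (hl : InG x y A g (nup g nu v) → fD (nup g nu v) ∨ fU (nup g nu v)) :
    Nod x y A fU fD g nu kp v := by
  obtain ⟨h1, h2⟩ := h.c hB
  rcases h1 with ⟨h3, h4⟩ | h3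
  · have h5 := hl h3
    refine ⟨h.G, h.n, h.k, hB, ?_, Or.inl ⟨h3, h4, h5, fun _ => Or.inr h2⟩⟩
    rcases h5 with h5 | h5
    · exact loop_lt X.S X.K h3 (Or.inl (X.hM.D h5))
    · exact loop_lt X.S X.K h3 (Or.inr (X.hM.U h5))
  · refine ⟨h.G, h.n, h.k, hB, ?_, Or.inr h3⟩
    have h4 := B_nup X.S X.hg h.G.1.2.1 h.n
    have h5 := h3.h
    unfold Hgl at h5
    linarith

theorem Nx.nod (X : Cx x y A pos fU fD g nu kp M) (L : Lps x y A pos fU fD LU LD)
    {c v : ι → Bool} (h : Nod x y A fU fD g nu kp c)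
    (hx : Nx x y A fU fD g nu kp M LU LD c v) : Nod x y A fU fD g nu kp v := by
  obtain ⟨hz, ⟨hv, hi⟩ | ⟨hv, hi⟩⟩ := hx
  · obtain ⟨h1, h2, w, h3, h4⟩ := hv.vis X L h
    refine h1.nod X h2 (fun hG => ?_)
    by_contra hc
    rw [not_or] at hc
    refine hz ⟨hG, idl_of X.S X.hg X.hM hG (by rw [nup_nu X.hg]; exact h1.n) hc.1 hc.2
      fun _ h5 => ?_⟩
    rw [nup_nup X.hg] at h5
    exact h4 (X.hM.inn h3 h5)
  · obtain ⟨h1, w, h3, h4⟩ := hv.vis X L h
    obtain ⟨h5, h6⟩ := nn X h1.G h1.n h3 h4 hi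
    refine h1.nod X h6 (fun hG => ?_)
    by_contra hc
    rw [not_or] at hc
    refine hz ⟨hG, idl_of X.S X.hg X.hM hG (by rw [nup_nu X.hg]; exact h1.n) hc.1 hc.2
      fun _ h7 => ?_⟩
    rw [nup_nup X.hg] at h7
    rcases h5 with h5 | h5
    · exact X.hM.fd h7 h5
    · exact hc.1 h5.2.1

theorem Nx.inj (X : Cx x y A pos fU fD g nu kp M) (L : Lps x y A pos fU fD LU LD)
    {c c' v : ι → Bool} (h : Nod x y A fU fD g nu kp c) (h' : Nod x y A fU fD g nu kp c')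
    (hx : Nx x y A fU fD g nu kp M LU LD c v)
    (hx' : Nx x y A fU fD g nu kp M LU LD c' v) : c = c' := by
  obtain ⟨hz, ⟨hv, hi⟩ | ⟨hv, hi⟩⟩ := hx <;> obtain ⟨hz', ⟨hv', hi'⟩ | ⟨hv', hi'⟩⟩ := hx'
  · exact hv.inj X L h h' hv'
  · exfalso
    obtain ⟨h1, h2, w, h3, h4⟩ := hv.vis X L h
    obtain ⟨h5, w', h6, h7⟩ := hv'.vis X L h'
    exact hi' (both X h1.G h1.n h3 h4 h6 h7)
  · exfalso
    obtain ⟨h1, h2, w, h3, h4⟩ := hv'.vis X L h'
    obtain ⟨h5, w', h6, h7⟩ := hv.vis X L h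
    exact hi (both X h1.G h1.n h3 h4 h6 h7)
  · exact hv.inj X L h h' hv'

theorem Nx.notSt (X : Cx x y A pos fU fD g nu kp M) (L : Lps x y A pos fU fD LU LD)
    {c v : ι → Bool} (h : Nod x y A fU fD g nu kp c)
    (hx : Nx x y A fU fD g nu kp M LU LD c v) : ¬ St x y A fU fD g nu kp M v := by
  rintro ⟨-, h1 | h1⟩
  · obtain ⟨hz, ⟨hv, hi⟩ | ⟨hv, hi⟩⟩ := hx
    · obtain ⟨_, _, w, h3, h4⟩ := hv.vis X L h
      exact X.hM.fd h3 h1.2.2.1
    · obtain ⟨_, w, h3, h4⟩ := hv.vis X L h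
      exact h4 (X.hM.out h3 h1.2.2.2.2.1)
  · obtain ⟨-, -, h2, -, h3, h4⟩ := h1
    rw [nup_nup X.hg] at h3 h4
    obtain ⟨hz, ⟨hv, hi⟩ | ⟨hv, hi⟩⟩ := hx
    · obtain ⟨_, _, w, h5, h6⟩ := hv.vis X L h
      exact h6 (X.hM.inn h5 h3)
    · obtain ⟨_, w, h5, h6⟩ := hv.vis X L h
      exact X.hM.fu h5 h4

theorem St.nod (X : Cx x y A pos fU fD g nu kp M) {c : ι → Bool}
    (h : St x y A fU fD g nu kp M c) : Nod x y A fU fD g nu kp c := by
  obtain ⟨h0, h1 | h1⟩ := h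
  · obtain ⟨h1, h2, h3, h4, h5, h6⟩ := h1
    have hB := lk_B X.S X.hg h1 h2 h4 (X.hM.lk h5)
    refine ⟨h1, h2, h0, src_pos X.S X.K (X.hM.D h3),
      loop_lt X.S X.K h4 (Or.inr (X.hM.U h6)), Or.inl ⟨h4, hB, Or.inr h6, fun h7 => ?_⟩⟩
    exact (not_FD_FU X.S (X.hM.D h7) (X.hM.U h6)).elim
  · obtain ⟨h1, h2, h3, h4, h5, h6⟩ := h1
    have hn : c nu = true := by rw [nup_nu X.hg] at h2; exact h2
    have hB := lk_B X.S X.hg h1 h2 h4 (X.hM.lk h5)
    rw [nup_nup X.hg] at h4 h5 h6 hB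
    exact ⟨h4, hn, h0, hB, loop_lt X.S X.K h1 (Or.inl (X.hM.D h3)),
      Or.inl ⟨h1, src_pos X.S X.K (X.hM.D h3), Or.inl h3, fun _ => Or.inl h6⟩⟩

/-- deep nodes are not far -/
theorem EF.nfb (X : Cx x y A pos fU fD g nu kp M) {c : ι → Bool}
    (h : Nod x y A fU fD g nu kp c) (he : InG x y A g (ep nu kp c))
    (hb : FB x y A fU fD g nu kp M c) : False := by
  have h1 : InP x A g (pp g kp c) := by
    rcases ful_cases X.S X.hg X.hM hb.2 with h2 | h2
    · exact h2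
    · exact (bf h2.1.2.1 (h.Pg X)).elim
  have h2 : flp (pp g kp c) g = flp (ep nu kp c) nu := by
    unfold pp ep; rw [flp_flp, flp_flp]
  exact aw_P X.S X.hg X.hM (X.K.eta X.S) he (h.en X.K) h1 h2 hb.2.2

/-- after an in-visit -/
theorem iv_next (X : Cx x y A pos fU fD g nu kp M) {c v : ι → Bool}
    (hv : IV x y A fU fD g nu kp M LU LD c v) :
    (∃ v, Nx x y A fU fD g nu kp M LU LD c v) ∨
      ∃ p, Py x y A fU fD g nu kp M LU LD c p := by
  by_cases h1 : Oi x y A fU fD g nu M v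
  · exact Or.inr ⟨v, Py.iv hv h1⟩
  · by_cases h2 : Zi x y A fU fD g nu M v
    · exact Or.inr ⟨_, Py.iz v hv h1 h2 rfl⟩
    · exact Or.inl ⟨v, h2, Or.inl ⟨hv, h1⟩⟩

/-- after an out-visit -/
theorem ov_next (X : Cx x y A pos fU fD g nu kp M) {c v : ι → Bool}
    (hv : OV x y A fU fD g nu kp M LU LD c v) :
    (∃ v, Nx x y A fU fD g nu kp M LU LD c v) ∨
      ∃ p, Py x y A fU fD g nu kp M LU LD c p := by
  by_cases h1 : Oo x y A fU fD g nu M v
  · exact Or.inr ⟨v, Py.ov hv h1⟩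
  · by_cases h2 : Zi x y A fU fD g nu M v
    · exact Or.inr ⟨_, Py.oz v hv h1 h2 rfl⟩
    · exact Or.inl ⟨v, h2, Or.inr ⟨hv, h1⟩⟩

/-- an active vertex with an arc out -/
theorem ao_next (X : Cx x y A pos fU fD g nu kp M) (L : Lps x y A pos fU fD LU LD)
    {c q v : ι → Bool} (h : Nod x y A fU fD g nu kp c)
    (ha : AO x y A fU fD g nu kp M LU LD c q) (hM : M q v) :
    (∃ v, Nx x y A fU fD g nu kp M LU LD c v) ∨
      ∃ p, Py x y A fU fD g nu kp M LU LD c p := by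
  have hT := hd_T X (ha.q.qg X L h) hM
  by_cases hG : InG x y A g v
  · cases hn : v nu
    · by_cases hi : Idl x y A fU fD g nu M v
      · exact Or.inr ⟨v, Py.c q ha hM hG hn hi⟩
      · by_cases hc : ∃ c', Nod x y A fU fD g nu kp c' ∧ v = ep nu kp c'
        · obtain ⟨c', hc, hd⟩ := hc
          have ho : oC x y A fU g nu M v := by
            by_contra ho
            exact hi ⟨hG.1.1, ho, niC X (ha.q.qg X L h) hM hG.1.2.1⟩
          have hB : 2 * Bl x y g nu kp < Bv x y A g nu v := by rw [hd]; exact hc.eB X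
          rcases ho with ho | ⟨w, h1, h2⟩
          · have := loop_lt X.S X.K hG (Or.inr (X.hM.U ho)); linarith
          · have h3 : InG x y A g w ∧ w nu = true := by
              rcases kinds (X.hM.c0 h1) (g := g) with h3 | h3 | h3
              · by_cases h4 : InG x y A g w
                · refine ⟨h4, ?_⟩
                  cases h5 : w nu
                  · exact absurd (Or.inr (Or.inr ⟨hG, h4, h5⟩)) h2
                  · rfl
                · exact absurd (Or.inr (Or.inl ⟨hG.1, h3, h4⟩)) h2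
              · exact absurd (Or.inl h3) h2
              · exact absurd (X.hM.lk h1) (h3.noLk' X.S)
            exact iv_next X (IV.w q v c' ha hM hG hc hd h1 h3.1 h3.2)
        · exact Or.inr ⟨_, Py.d q v ha hM hG hn hi (fun c' h1 h2 => hc ⟨c', h1, h2⟩) rfl⟩
    · exact iv_next X (IV.p q ha hM hG hn)
  · exact Or.inr ⟨v, Py.t q ha hM hT hG⟩

/-- an active vertex with an arc in -/
theorem ai_next (X : Cx x y A pos fU fD g nu kp M) (L : Lps x y A pos fU fD LU LD)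
    {c q v : ι → Bool} (h : Nod x y A fU fD g nu kp c)
    (ha : AI x y A fU fD g nu kp M LU LD c q) (hM : M v q) :
    (∃ v, Nx x y A fU fD g nu kp M LU LD c v) ∨
      ∃ p, Py x y A fU fD g nu kp M LU LD c p := by
  have hG := tl_G X (ha.q.qg X L h) (ha.q.E X L h) hM
  cases hn : v nu
  · exact Or.inr ⟨_, Py.b q v ha hM hG hn rfl⟩
  · exact ov_next X (OV.p q ha hM hG hn)

theorem nx_or_py (X : Cx x y A pos fU fD g nu kp M) (L : Lps x y A pos fU fD LU LD)
    {c : ι → Bool} (h : Nod x y A fU fD g nu kp c) :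
    (∃ v, Nx x y A fU fD g nu kp M LU LD c v) ∨
      ∃ p, Py x y A fU fD g nu kp M LU LD c p := by
  by_cases hl : ∃ l, LT x y A g nu kp LU LD c l
  · obtain ⟨l, hl⟩ := hl
    by_cases hf : Ful x y A fU fD g nu M (pl g kp l c)
    · rcases hf.1 with hu | ⟨v, hM, _⟩
      · have ha : AI x y A fU fD g nu kp M LU LD c (pl g kp l c) := AI.l l hl hf hu rfl
        rcases hf.2 with hd | ⟨v, hM, _⟩
        · exact (not_FD_FU X.S (X.hM.D hd) (X.hM.U hu)).elim
        · exact ai_next X L h ha hM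
      · exact ao_next X L h (AO.l l hl hf rfl) hM
    · exact Or.inr ⟨_, Py.m l hl hf rfl⟩
  · have hn : NL x y A g nu kp LU LD c := fun l hl' => hl ⟨l, hl'⟩
    by_cases he : EF x y A fU fD g nu kp M c
    · rcases exit_cases X h he with ⟨v, hv⟩ | ⟨v, hv⟩
      · exact iv_next X (IV.e hn he hv)
      · exact ov_next X (OV.e hn he hv)
    · by_cases hb : FB x y A fU fD g nu kp M c
      · by_cases hB : 0 < Bv x y A g nu (pp g kp c)
        · rcases hb.2.1 with hu | ⟨v, hM, _⟩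
          · rcases hb.2.2 with hd | ⟨v, hM, _⟩
            · exact (not_FD_FU X.S (X.hM.D hd) (X.hM.U hu)).elim
            · exact ai_next X L h (AI.k hn hb (Or.inr hu) rfl) hM
          · exact ao_next X L h (AO.k hn hb hB rfl) hM
        · rcases hb.2.2 with hd | ⟨v, hM, _⟩
          · exact absurd (src_pos X.S X.K (X.hM.D hd)) hB
          · exact ai_next X L h (AI.k hn hb (Or.inl (not_lt.1 hB)) rfl) hM
      · exact Or.inr ⟨_, Py.u hn he hb rfl⟩

/-- who is charged to a vertex which is away -/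
theorem aw_unhit (X : Cx x y A pos fU fD g nu kp M) {v b : ι → Bool}
    (hG : InG x y A g v) (hn : v nu = false) (hf : Ful x y A fU fD g nu M b)
    (he : chg x A g nu b = flp v nu) : b = v := by
  unfold chg at he
  rcases ful_cases X.S X.hg X.hM hf with h1 | h1
  · rw [if_pos h1.2] at he
    exact absurd hf.2 (aw_P X.S X.hg X.hM (X.K.eta X.S) hG hn h1 he)
  · rw [if_neg (by rw [h1.1.2.1]; simp)] at he
    cases h2 : b nu
    · rw [h2, if_pos rfl] at he
      exact flp_inj he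
    · exfalso
      rw [h2, if_neg (by simp)] at he
      have h3 := ful_tow X.S X.hg X.hM h1 h2 hf
      have h4 := (away X.S X.hg hG hn).2.2.2
      rw [← he] at h4
      have := nup_lt X.S X.hg h1 h2
      linarith

theorem Py.gd (X : Cx x y A pos fU fD g nu kp M) (L : Lps x y A pos fU fD LU LD)
    {c p : ι → Bool} (h : Nod x y A fU fD g nu kp c)
    (hx : Py x y A fU fD g nu kp M LU LD c p) : Gd x y A fU fD g nu M p := by
  rcases hx with ⟨hn, he, hb, hp⟩ | ⟨l, hl, hf, hp⟩ | ⟨q, ha, hM, hT, hG⟩ |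
    ⟨q, ha, hM, hG, hn, hi⟩ | ⟨q, v, ha, hM, hG, hn, hi, hc, hp⟩ | ⟨q, v, ha, hM, hG, hn, hp⟩ |
    ⟨hv, hi⟩ | ⟨hv, hi⟩ | ⟨v, hv, hi, hz, hp⟩ | ⟨v, hv, hi, hz, hp⟩
  · subst hp
    refine ⟨h.idl X.S X.hg X.K X.hM, fun b hb' hs hc => ?_⟩
    rcases h.unhit X.S X.hg X.K X.hM hb' hs hc with ⟨rfl, h1⟩ | ⟨h1, rfl⟩
    · exact he ⟨h1, hb'⟩
    · exact hb ⟨h1, hb'⟩
  · subst hp
    have f := hl.f X L h
    exact ⟨f.idl X h, fun b hb' hs hc => hf ((f.unhit X h hb' hc) ▸ hb')⟩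
  · have hq := ha.q.qg X L h
    refine ⟨⟨hT.1, notG_oC X.S X.hg X.hM hT hG, niC X hq hM hT.2.1⟩, fun b hb' hs hc => ?_⟩
    have h1 := chg_idl X.S X.hg X.hM hb' hs
    unfold chg at hc
    rcases ful_cases X.S X.hg X.hM hb' with h2 | h2
    · rw [if_pos h2.2] at hc
      have h3 := InP.flp X.S h2
      rw [hc] at h3
      exact hT.notF h3
    · rw [if_neg (by rw [h2.1.2.1]; simp)] at hc
      cases h3 : b nu
      · rw [h3, if_pos rfl] at hc
        have h4 := (away X.S X.hg h2 h3).2.2.2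
        rw [hc] at h4
        have h5 := X.K.eta X.S
        exact hG ⟨hT, by linarith⟩
      · rw [h3, if_neg (by simp)] at hc
        have h4 := (ful_tow X.S X.hg X.hM h2 h3 hb' hs).1
        rw [hc] at h4
        exact hG h4
  · refine ⟨hi, fun b hb' hs hc => ?_⟩
    unfold chg at hc
    rcases ful_cases X.S X.hg X.hM hb' with h2 | h2
    · rw [if_pos h2.2] at hc
      have h3 := InP.flp X.S h2
      rw [hc] at h3
      exact hG.1.notF h3
    · rw [if_neg (by rw [h2.1.2.1]; simp)] at hc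
      cases h3 : b nu
      · rw [h3, if_pos rfl] at hc
        rw [← hc, flp_same, h3] at hn
        exact Bool.noConfusion hn
      · rw [h3, if_neg (by simp)] at hc
        rw [← hc, nup_nu X.hg, h3] at hn
        exact Bool.noConfusion hn
  · subst hp
    refine ⟨aw_idl X.S X.hg X.hM (X.K.eta X.S) hG hn, fun b hb' hs hc' => ?_⟩
    have h1 := aw_unhit X hG hn hb' hc'
    subst h1
    exact niC X (ha.q.qg X L h) hM hG.1.2.1 hb'.2
  · subst hp
    refine ⟨aw_idl X.S X.hg X.hM (X.K.eta X.S) hG hn, fun b hb' hs hc' => ?_⟩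
    have h1 := aw_unhit X hG hn hb' hc'
    subst h1
    exact noC X (ha.q.qg X L h) hM hb'.1
  · obtain ⟨h1, h2, w, h3, h4⟩ := hv.vis X L h
    refine ⟨hi.1, fun b hb' hs hc => ?_⟩
    exact h4 (X.hM.inn h3 (tw_unhit X h1.G h1.n h1.h hb' hc).2.2.2)
  · obtain ⟨h1, w, h3, h4⟩ := hv.vis X L h
    refine ⟨hi.1, fun b hb' hs hc => ?_⟩
    exact hi.2 (tw_unhit X h1.G h1.n h1.h hb' hc).2
  · subst hp
    obtain ⟨h1, h2, w, h3, h4⟩ := hv.vis X L h
    refine ⟨hz.2, fun b hb' hs hc => ?_⟩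
    have h5 := (tw_unhit X hz.1 (by rw [nup_nu X.hg]; exact h1.n)
      (nup_lt X.S X.hg h1.G h1.n).le hb' hc).2.2.1
    rw [nup_nup X.hg] at h5
    exact X.hM.fd h3 h5
  · subst hp
    obtain ⟨h1, w, h3, h4⟩ := hv.vis X L h
    refine ⟨hz.2, fun b hb' hs hc => ?_⟩
    have h5 := (tw_unhit X hz.1 (by rw [nup_nu X.hg]; exact h1.n)
      (nup_lt X.S X.hg h1.G h1.n).le hb' hc).2.2.2
    rw [nup_nup X.hg] at h5
    exact h4 (X.hM.out h3 h5)

end

end C1G
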