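import Pool.Agent.C1G.Pc
import Pool.Agent.SpC.Core

/-!
# Simplices have the colouring property
-/

namespace C1G

open Finset

/-- Barycentric coordinates: linear functionals `l k` with sum `0`, such that the simplex is
`{z | l k z ≥ b k}`, `∑ b k = -1`, its interior is `{z | l k z > b k}`, and every vector with sum `0`
is `(l k z)_k` for some `z`. -/
theorem simplex_coords {d : ℕ} (p : Fin (d + 1) → EuclideanSpace ℝ (Fin d))
    (hp : AffineIndependent ℝ p) :
    ∃ (l : Fin (d + 1) → EuclideanSpace ℝ (Fin d) →ₗ[ℝ] ℝ) (b : Fin (d + 1) → ℝ),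
      (∀ z, ∑ k, l k z = 0) ∧ ∑ k, b k = -1 ∧
      convexHull ℝ (Set.range p) = {z | ∀ k, b k ≤ l k z} ∧
      interior (convexHull ℝ (Set.range p)) = {z | ∀ k, b k < l k z} ∧
      ∀ y : Fin (d + 1) → ℝ, ∑ k, y k = 0 → ∃ z, ∀ k, l k z = y k := by
  classical
  have htop : affineSpan ℝ (Set.range p) = ⊤ := by
    rw [hp.affineSpan_eq_top_iff_card_eq_finrank_add_one]
    simp
  let B : AffineBasis (Fin (d + 1)) ℝ (EuclideanSpace ℝ (Fin d)) := ⟨p, hp, htop⟩
  have hB : ∀ k, B k = p k := fun _ => rfl
  have hdec : ∀ k z, B.coord k z = (B.coord k).linear z + B.coord k 0 := by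
    intro k z
    have := (B.coord k).map_vadd 0 z
    simpa using this
  have hs : ∀ z, ∑ k, B.coord k z = 1 := fun z => B.sum_coord_apply_eq_one z
  refine ⟨fun k => (B.coord k).linear, fun k => - B.coord k 0, ?_, ?_, ?_, ?_, ?_⟩
  · intro z
    have h1 := hs z
    rw [Finset.sum_congr rfl fun k _ => hdec k z, Finset.sum_add_distrib, hs 0] at h1
    linarith
  · rw [Finset.sum_neg_distrib, hs 0]
  · have h1 := B.convexHull_eq_nonneg_coord
    have h2 : Set.range B = Set.range p := rfl
    rw [← h2, h1]
    ext z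
    simp only [Set.mem_ofPred_eq]
    refine forall_congr' fun k => ?_
    rw [hdec k z]
    constructor <;> intro h <;> linarith
  · have h1 := B.interior_convexHull
    have h2 : Set.range B = Set.range p := rfl
    rw [← h2, h1]
    ext z
    simp only [Set.mem_ofPred_eq]
    refine forall_congr' fun k => ?_
    rw [hdec k z]
    constructor <;> intro h <;> linarith
  · intro y hy
    refine ⟨∑ j, y j • p j, fun k => ?_⟩
    have h1 : ∀ j, (B.coord k).linear (p j) = (if k = j then 1 else 0) - B.coord k 0 := by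
      intro j
      have h2 := hdec k (p j)
      have h3 : B.coord k (p j) = if k = j then 1 else 0 := by
        rw [← hB j, B.coord_apply]
      rw [h3] at h2
      linarith
    rw [map_sum]
    simp only [map_smul, smul_eq_mul, h1, mul_sub, Finset.sum_sub_distrib]
    rw [← Finset.sum_mul, hy]
    simp

theorem mem_interior_image {d : ℕ} {K : Set (EuclideanSpace ℝ (Fin d))}
    (z : EuclideanSpace ℝ (Fin d)) {r : ℝ} (hr : 0 < r) {u : EuclideanSpace ℝ (Fin d)}
    (hu : r⁻¹ • (u - z) ∈ interior K) : u ∈ interior ((fun y => z + r • y) '' K) := by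
  have h3 : IsOpenMap (fun y : EuclideanSpace ℝ (Fin d) => z + r • y) :=
    (isOpenMap_add_left z).comp (isOpenMap_smul₀ hr.ne')
  refine h3.image_interior_subset K ⟨_, hu, ?_⟩
  simp [smul_smul, hr.ne']

/-- Simplices. -/
theorem colB_simplex {d : ℕ} (p : Fin (d + 1) → EuclideanSpace ℝ (Fin d))
    (hp : AffineIndependent ℝ p) : ColB (convexHull ℝ (Set.range p)) (2 ^ d) := by
  classical
  intro n c x hc hm
  obtain ⟨l, b, hl, hb, hK, hI, hsur⟩ := simplex_coords p hp
  -- the `i`-th homothet is `{z | ∀ k, a i k ≤ l k z}`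
  set a : Fin n → Fin (d + 1) → ℝ := fun i k => l k (x i) + c i * b k with ha
  have hge : ∀ i, ∀ P ∈ (fun y => x i + c i • y) '' (convexHull ℝ (Set.range p)), ∀ k,
      a i k ≤ l k P := by
    rintro i P ⟨u, hu, rfl⟩ k
    rw [hK] at hu
    simp only [ha, map_add, map_smul, smul_eq_mul]
    have := mul_le_mul_of_nonneg_left (hu k) (hc i).le
    linarith
  have hint : ∀ i z, (∀ k, a i k < l k z) →
      z ∈ interior ((fun y => x i + c i • y) '' (convexHull ℝ (Set.range p))) := by
    intro i z hz
    refine mem_interior_image (x i) (hc i) ?_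
    rw [hI]
    intro k
    rw [map_smul, map_sub, smul_eq_mul, lt_inv_mul_iff₀ (hc i)]
    have := hz k
    simp only [ha] at this
    linarith
  have hsum : ∀ i, ∑ k, a i k = - c i := by
    intro i
    simp only [ha]
    rw [Finset.sum_add_distrib, hl, ← Finset.mul_sum, hb]
    ring
  have hneg : ∀ i j, ∑ k, min (- a i k) (- a j k) = - ∑ k, max (a i k) (a j k) := by
    intro i j
    rw [← Finset.sum_neg_distrib]
    exact Finset.sum_congr rfl fun k _ => by
      rw [max_def, min_def]; split_ifs <;> linarith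
  have hmeet : ∀ i j, i ≠ j → ∑ k, max (a i k) (a j k) ≤ 0 := by
    intro i j hij
    obtain ⟨P, hPi, hPj⟩ := hm i j hij
    rw [← hl P]
    exact Finset.sum_le_sum fun k _ => max_le (hge i P hPi k) (hge j P hPj k)
  have hdis : ∀ i j, interior ((fun y => x i + c i • y) '' (convexHull ℝ (Set.range p))) ∩
      interior ((fun y => x j + c j • y) '' (convexHull ℝ (Set.range p))) = ∅ →
      0 ≤ ∑ k, max (a i k) (a j k) := by
    intro i j hd
    by_contra hcon
    push Not at hcon
    set σ := -∑ k, max (a i k) (a j k) with hσ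
    have hσ0 : 0 < σ := by linarith
    have hd1 : (0 : ℝ) < ((d + 1 : ℕ) : ℝ) := by positivity
    obtain ⟨z, hz⟩ := hsur (fun k => max (a i k) (a j k) + σ / ((d + 1 : ℕ) : ℝ)) (by
      rw [Finset.sum_add_distrib, Finset.sum_const, Finset.card_univ, Fintype.card_fin,
        nsmul_eq_mul, mul_div_cancel₀ _ hd1.ne']
      linarith)
    have hgt : 0 < σ / ((d + 1 : ℕ) : ℝ) := by positivity
    have h1 := hint i z fun k => by
      rw [hz k]; have := le_max_left (a i k) (a j k); linarith
    have h2 := hint j z fun k => by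
      rw [hz k]; have := le_max_right (a i k) (a j k); linarith
    exact (Set.eq_empty_iff_forall_notMem.1 hd) z ⟨h1, h2⟩
  obtain ⟨col, hcol⟩ := SpC.colour (fun i k => - a i k) (d := d) (by simp) (fun i => by
    rw [Finset.sum_neg_distrib, hsum, neg_neg]; exact hc i) (fun i j hij => by
    rw [hneg]; linarith [hmeet i j hij])
  refine ⟨col, fun i j hij hd => hcol i j hij ?_⟩
  rw [hneg]
  linarith [hmeet i j hij, hdis i j hd]

end C1G
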